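import Mathlib

/-! # Project EP (the partial sums of `μ(n) n^(-s)` at every point `s`): definitions and statements

`MP_323ce2_nt`, the weak Mertens hypothesis. The packages are independent of each other and of the
library: they need only this file.
-/

set_option autoImplicit false

namespace Pool.Agent.P8H42.EP

open MeasureTheory Filter Topology Set

noncomputable section

/-- measurable, zero for negative arguments, locally bounded, mean square at most `A (V + 1)` -/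
structure Gr (F : ℝ → ℂ) (A : ℝ) : Prop where
  meas : Measurable F
  neg : ∀ v : ℝ, v < 0 → F v = 0
  bdd : ∀ V : ℝ, ∃ B : ℝ, 0 ≤ B ∧ ∀ v ≤ V, ‖F v‖ ≤ B
  grow : ∀ V : ℝ, 0 ≤ V → ∫ v in (0:ℝ)..V, ‖F v‖ ^ 2 ≤ A * (V + 1)

/-- kernels -/
structure Kr (h : ℝ → ℂ) : Prop where
  meas : Measurable h
  bd : ∃ C : ℝ, ∀ x : ℝ, ‖h x‖ ≤ C / (1 + |x|) ^ 4

/-- the convolution `h * F`, cut off at `0` -/
def cv (h F : ℝ → ℂ) (v : ℝ) : ℂ := if v < 0 then 0 else ∫ w : ℝ, h (v - w) * F w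

/-- the exponential `e^{iγv}`, cut off at `0` -/
def ex (γ v : ℝ) : ℂ := if v < 0 then 0 else Complex.exp (γ * v * Complex.I)

/-- the Fourier transform `∫ h(x) e^{-iγx} dx` -/
def ft (h : ℝ → ℂ) (γ : ℝ) : ℂ := ∫ x : ℝ, h x * Complex.exp (-(γ * x * Complex.I))

/-! ## Package KER -/

/-- KER (1): integrability -/
def S_INTG : Prop := ∀ (h F : ℝ → ℂ) (A : ℝ), Kr h → Gr F A → ∀ v : ℝ,
  Integrable (fun w : ℝ => h (v - w) * F w)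

/-- KER (2): the convolution is measurable and locally bounded -/
def S_CAD : Prop := ∀ (h F : ℝ → ℂ) (A : ℝ), Kr h → Gr F A →
  Measurable (cv h F) ∧ ∀ V : ℝ, ∃ B : ℝ, 0 ≤ B ∧ ∀ v ≤ V, ‖cv h F v‖ ≤ B

/-- KER (3): Young's inequality for the mean square -/
def S_YNG : Prop := ∀ h : ℝ → ℂ, Kr h → ∃ K : ℝ, 0 ≤ K ∧ ∀ (F : ℝ → ℂ) (A : ℝ), Gr F A → ∀ τ : ℝ,
  Tendsto (fun V : ℝ => (∫ v in (0:ℝ)..V, ‖F v‖ ^ 2) / V) atTop (𝓝 τ) → ∀ δ : ℝ, 0 < δ →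
    ∀ᶠ V : ℝ in atTop, (∫ v in (0:ℝ)..V, ‖cv h F v‖ ^ 2) / V ≤ K * τ + δ

/-- KER (4): the action on exponentials -/
def S_EXP : Prop := ∀ h : ℝ → ℂ, Kr h → ∀ γ : ℝ,
  Tendsto (fun v : ℝ => cv h (ex γ) v - ft h γ * ex γ v) atTop (𝓝 0)

/-! ## Package CRIT -/

/-- CRIT (1): the band limited kernel; CRIT (2): integration on a spectral gap -/
def S_CRIT : Prop := ∀ τ δ : ℝ, 0 < δ → ∃ h : ℝ → ℂ, Kr h ∧
  (∀ γ : ℝ, δ ≤ |γ - τ| → ft h γ = 1 / ((γ - τ) * Complex.I)) ∧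
  ∀ (F : ℝ → ℂ) (A : ℝ), Gr F A → ∀ Φ : ℝ → ℂ,
    ContDiffOn ℝ ((⊤ : ℕ∞) : WithTop ℕ∞) Φ (Ioo (τ - δ) (τ + δ)) →
    (∀ ξ ∈ Ioo (τ - δ) (τ + δ), Tendsto (fun ε : ℝ =>
      ∫ v in Ioi (0:ℝ), F v * Complex.exp (-((ε + ξ * Complex.I) * v))) (𝓝[>] 0) (𝓝 (Φ ξ))) →
    (∃ B : ℝ, ∀ ε : ℝ, 0 < ε → ε < 1 → ∀ ξ ∈ Ioo (τ - δ) (τ + δ),
      ‖∫ v in Ioi (0:ℝ), F v * Complex.exp (-((ε + ξ * Complex.I) * v))‖ ≤ B) →
    Tendsto (fun v : ℝ => Complex.exp (τ * v * Complex.I) *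
      ((∫ w in (0:ℝ)..v, Complex.exp (-(τ * w * Complex.I)) * F w) - Φ τ) - cv h F v) atTop (𝓝 0)

/-! ## Package LAP -/

/-- the Mertens function -/
def Mf (u : ℝ) : ℝ := ∑ n ∈ Finset.Icc 1 ⌊u⌋₊, ((ArithmeticFunction.moebius n : ℤ) : ℝ)

/-- `M(e^v) e^{-v/2}` (this is `0` for negative `v`) -/
def ff (v : ℝ) : ℂ := ((Mf (Real.exp v) * Real.exp (-(v / 2)) : ℝ) : ℂ)

/-- LAP: the Laplace transform of `M(e^v) e^{-v/2}` in the half plane `Re z > 0` -/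
def S_LAP : Prop := ∀ A : ℝ, Gr ff A → ∀ z : ℂ, 0 < z.re →
  IntegrableOn (fun v : ℝ => ff v * Complex.exp (-(z * v))) (Ioi 0) ∧
  (z = 1 / 2 → ∫ v in Ioi (0:ℝ), ff v * Complex.exp (-(z * v)) = 0) ∧
  (z ≠ 1 / 2 → riemannZeta (z + 1 / 2) ≠ 0 ∧ ∫ v in Ioi (0:ℝ), ff v * Complex.exp (-(z * v)) =
    1 / ((z + 1 / 2) * riemannZeta (z + 1 / 2)))

/-! ## Package IDN -/

/-- `∑_{n ≤ u} μ(n) n^(-s)` -/
def As (s : ℂ) (u : ℝ) : ℂ :=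
  ∑ n ∈ Finset.Icc 1 ⌊u⌋₊, ((ArithmeticFunction.moebius n : ℤ) : ℂ) * (n : ℂ) ^ (-s)

/-- IDN (1): partial summation from `μ(n)` to `μ(n) n^(-s)` -/
def S_ID1 : Prop := ∀ (s : ℂ) (v : ℝ), 0 ≤ v → Complex.exp ((s - 1 / 2) * v) * As s (Real.exp v) =
  ff v + s * ∫ w in (0:ℝ)..v, Complex.exp ((s - 1 / 2) * (v - w)) * ff w

/-- IDN (2): partial summation from `μ(n) n^(-s)` to `μ(n)` -/
def S_ID2 : Prop := ∀ (s : ℂ) (v : ℝ), 0 ≤ v → ff v =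
  Complex.exp ((s - 1 / 2) * v) * As s (Real.exp v) - s * ∫ w in (0:ℝ)..v,
    Complex.exp (-((v - w) / 2)) * (Complex.exp ((s - 1 / 2) * w) * As s (Real.exp w))

end

end Pool.Agent.P8H42.EP
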