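import Mathlib
import Pool.Agent.P8H42.EP.Stm

/-!
# Package KER of project EP (helper52): two-sided kernels, Young's inequality for the mean square
-/

set_option autoImplicit false

namespace Pool.Agent.P8H42.EP

open MeasureTheory Filter Topology Set

namespace KERP

/-! ## Weights -/

lemma w4_int : Integrable (fun x : ℝ => 1 / (1 + |x|) ^ 4) := by
  have h := integrable_one_add_norm (E := ℝ) (μ := volume) (r := 4) (by simp)
  refine h.congr (Eventually.of_forall fun x => ?_)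
  show (1 + ‖x‖) ^ (-(4:ℝ)) = 1 / (1 + |x|) ^ 4
  rw [Real.norm_eq_abs, Real.rpow_neg (by positivity), show (4:ℝ) = ((4:ℕ):ℝ) by norm_num, Real.rpow_natCast,
    one_div]

lemma w3_int : Integrable (fun x : ℝ => 1 / (1 + |x|) ^ 3) := by
  have h := integrable_one_add_norm (E := ℝ) (μ := volume) (r := 3) (by simp)
  refine h.congr (Eventually.of_forall fun x => ?_)
  show (1 + ‖x‖) ^ (-(3:ℝ)) = 1 / (1 + |x|) ^ 3
  rw [Real.norm_eq_abs, Real.rpow_neg (by positivity), show (3:ℝ) = ((3:ℕ):ℝ) by norm_num, Real.rpow_natCast,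
    one_div]

/-- a nonnegative constant in the bound of a kernel -/
lemma kr_bd {h : ℝ → ℂ} (hh : Kr h) : ∃ C : ℝ, 0 ≤ C ∧ ∀ x : ℝ, ‖h x‖ ≤ C * (1 / (1 + |x|) ^ 4) := by
  obtain ⟨C, hC⟩ := hh.bd
  refine ⟨C, ?_, fun x => ?_⟩
  · have := hC 0
    simp at this
    exact (norm_nonneg _).trans this
  · have := hC x
    rwa [div_eq_mul_one_div] at this

lemma h_int {h : ℝ → ℂ} (hh : Kr h) : Integrable h := by
  obtain ⟨C, -, hC⟩ := kr_bd hh
  exact Integrable.mono' (w4_int.const_mul C) hh.meas.aestronglyMeasurable (Eventually.of_forall hC)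

lemma h1_int {h : ℝ → ℂ} (hh : Kr h) : Integrable (fun x : ℝ => ‖h x‖ * (1 + |x|)) := by
  obtain ⟨C, hC0, hC⟩ := kr_bd hh
  refine Integrable.mono' (w3_int.const_mul C) ?_ (Eventually.of_forall fun x => ?_)
  · exact (hh.meas.norm.mul (by fun_prop)).aestronglyMeasurable
  · have h0 : (0:ℝ) < 1 + |x| := by positivity
    rw [Real.norm_eq_abs, abs_of_nonneg (by positivity)]
    calc ‖h x‖ * (1 + |x|) ≤ C * (1 / (1 + |x|) ^ 4) * (1 + |x|) := mul_le_mul_of_nonneg_right (hC x) h0.le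
      _ = C * (1 / (1 + |x|) ^ 3) := by field_simp

lemma A_nonneg {F : ℝ → ℂ} {A : ℝ} (hF : Gr F A) : 0 ≤ A := by
  have := hF.grow 0 le_rfl
  simpa using this

lemma sq_loc {F : ℝ → ℂ} {A : ℝ} (hF : Gr F A) (a b : ℝ) : IntervalIntegrable (fun w => ‖F w‖ ^ 2) volume a b := by
  obtain ⟨B, hB0, hB⟩ := hF.bdd (max a b)
  rw [intervalIntegrable_iff]
  refine Measure.integrableOn_of_bounded (M := B ^ 2) (by simp) (hF.meas.norm.pow_const 2).aestronglyMeasurable ?_
  refine (ae_restrict_mem measurableSet_uIoc).mono fun x hx => ?_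
  have hx2 : x ≤ max a b := hx.2
  rw [Real.norm_eq_abs, abs_of_nonneg (by positivity)]
  exact pow_le_pow_left₀ (norm_nonneg _) (hB x hx2) 2

lemma wsq_loc {F : ℝ → ℂ} {A : ℝ} (hF : Gr F A) (a b : ℝ) :
    IntervalIntegrable (fun w => 1 / (1 + |w|) ^ 4 * ‖F w‖ ^ 2) volume a b := by
  have h := sq_loc hF a b
  refine h.mono_fun' ?_ (Eventually.of_forall fun x => ?_)
  · exact (Measurable.mul (by fun_prop) (hF.meas.norm.pow_const 2)).aestronglyMeasurable
  · show ‖1 / (1 + |x|) ^ 4 * ‖F x‖ ^ 2‖ ≤ ‖F x‖ ^ 2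
    rw [Real.norm_eq_abs, abs_of_nonneg (by positivity)]
    have h1 : 1 / (1 + |x|) ^ 4 ≤ 1 := by
      rw [div_le_one (by positivity)]
      exact one_le_pow₀ (by linarith [abs_nonneg x])
    nlinarith [sq_nonneg ‖F x‖]

lemma wsq_int {F : ℝ → ℂ} {A : ℝ} (hF : Gr F A) : Integrable (fun w : ℝ => 1 / (1 + |w|) ^ 4 * ‖F w‖ ^ 2) := by
  have hA := A_nonneg hF
  have hn : ∀ n : ℕ, ∫ w in (0:ℝ)..n, 1 / (1 + |w|) ^ 4 * ‖F w‖ ^ 2 ≤ 4 * A * (1 - 1 / ((n:ℝ) + 1)) := by
    intro n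
    induction n with
    | zero => simp
    | succ n ih =>
      have hn0 : (0:ℝ) ≤ n := Nat.cast_nonneg n
      rw [Nat.cast_succ, ← intervalIntegral.integral_add_adjacent_intervals (wsq_loc hF 0 n) (wsq_loc hF n (n + 1))]
      have h1 : ∫ w in (n:ℝ)..((n:ℝ) + 1), 1 / (1 + |w|) ^ 4 * ‖F w‖ ^ 2 ≤
          ∫ w in (n:ℝ)..((n:ℝ) + 1), 1 / (1 + (n:ℝ)) ^ 4 * ‖F w‖ ^ 2 := by
        apply intervalIntegral.integral_mono_on (by linarith) (wsq_loc hF _ _) ((sq_loc hF _ _).const_mul _)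
        intro x hx
        have hx0 : (n:ℝ) ≤ |x| := hx.1.trans (le_abs_self x)
        refine mul_le_mul_of_nonneg_right ?_ (by positivity)
        exact one_div_le_one_div_of_le (by positivity) (pow_le_pow_left₀ (by positivity) (by linarith) 4)
      rw [intervalIntegral.integral_const_mul] at h1
      have h2 : ∫ w in (n:ℝ)..((n:ℝ) + 1), ‖F w‖ ^ 2 ≤ A * (n + 2) := by
        have h3 := hF.grow ((n:ℝ) + 1) (by linarith)
        rw [← intervalIntegral.integral_add_adjacent_intervals (sq_loc hF 0 n) (sq_loc hF n (n + 1))] at h3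
        have h4 : 0 ≤ ∫ w in (0:ℝ)..n, ‖F w‖ ^ 2 :=
          intervalIntegral.integral_nonneg hn0 fun x _ => by positivity
        linarith
      have h5 : 1 / (1 + (n:ℝ)) ^ 4 * (∫ w in (n:ℝ)..((n:ℝ) + 1), ‖F w‖ ^ 2) ≤ 1 / (1 + (n:ℝ)) ^ 4 * (A * (n + 2)) :=
        mul_le_mul_of_nonneg_left h2 (by positivity)
      have h6 : 1 / (1 + (n:ℝ)) ^ 4 * (A * (n + 2)) ≤ 4 * A * (1 / ((n:ℝ) + 1) - 1 / ((n:ℝ) + 1 + 1)) := by
        have h7 : 1 / ((n:ℝ) + 1) - 1 / ((n:ℝ) + 1 + 1) = 1 / (((n:ℝ) + 1) * (n + 2)) := by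
          field_simp
          ring
        have h8 : 1 / (1 + (n:ℝ)) ^ 4 * (n + 2) ≤ 4 * (1 / (((n:ℝ) + 1) * (n + 2))) := by
          rw [div_mul_eq_mul_div, one_mul, mul_one_div, div_le_div_iff₀ (by positivity) (by positivity)]
          nlinarith [mul_nonneg hn0 hn0, mul_nonneg (mul_nonneg hn0 hn0) hn0,
            mul_nonneg (mul_nonneg hn0 hn0) (mul_nonneg hn0 hn0)]
        rw [h7]
        calc 1 / (1 + (n:ℝ)) ^ 4 * (A * (n + 2)) = A * (1 / (1 + (n:ℝ)) ^ 4 * (n + 2)) := by ring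
          _ ≤ A * (4 * (1 / (((n:ℝ) + 1) * (n + 2)))) := mul_le_mul_of_nonneg_left h8 hA
          _ = _ := by ring
      linarith
  have hpos : IntegrableOn (fun w : ℝ => 1 / (1 + |w|) ^ 4 * ‖F w‖ ^ 2) (Ioi 0) := by
    refine integrableOn_Ioi_of_intervalIntegral_norm_bounded (b := fun n : ℕ => (n:ℝ)) (l := atTop) (4 * A) 0
      (fun n => ?_) tendsto_natCast_atTop_atTop (Eventually.of_forall fun n => ?_)
    · have h := wsq_loc hF 0 n
      rwa [intervalIntegrable_iff_integrableOn_Ioc_of_le (Nat.cast_nonneg n)] at h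
    · have h1 : ∫ x in (0:ℝ)..n, ‖1 / (1 + |x|) ^ 4 * ‖F x‖ ^ 2‖ =
          ∫ x in (0:ℝ)..n, 1 / (1 + |x|) ^ 4 * ‖F x‖ ^ 2 := by
        congr 1
        ext x
        rw [Real.norm_eq_abs, abs_of_nonneg (by positivity)]
      rw [h1]
      refine (hn n).trans ?_
      have : 0 ≤ 1 / ((n:ℝ) + 1) := by positivity
      nlinarith
  have hneg : IntegrableOn (fun w : ℝ => 1 / (1 + |w|) ^ 4 * ‖F w‖ ^ 2) (Iic 0) := by
    rw [integrableOn_Iic_iff_integrableOn_Iio]
    refine integrableOn_zero.congr_fun (fun x hx => ?_) measurableSet_Iio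
    rw [hF.neg x hx]
    simp
  rw [← integrableOn_univ, ← Iic_union_Ioi (a := (0:ℝ))]
  exact hneg.union hpos

/-- the weight at `v - w` is at most `(1 + |v|) ^ 4` times the weight at `w` -/
lemma w_shift (v w : ℝ) : 1 / (1 + |v - w|) ^ 4 ≤ (1 + |v|) ^ 4 * (1 / (1 + |w|) ^ 4) := by
  rw [mul_one_div, div_le_div_iff₀ (by positivity) (by positivity), one_mul, ← mul_pow]
  refine pow_le_pow_left₀ (by positivity) ?_ 4
  have h1 : |w| ≤ |v| + |v - w| := by
    have := abs_sub_abs_le_abs_sub w v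
    rw [abs_sub_comm w v] at this
    linarith
  nlinarith [abs_nonneg v, abs_nonneg (v - w), mul_nonneg (abs_nonneg v) (abs_nonneg (v - w))]

section young

variable {h F : ℝ → ℂ} {A : ℝ}

lemma hF_meas (hh : Kr h) (hF : Gr F A) (v : ℝ) : Measurable (fun w : ℝ => h (v - w) * F w) :=
  (hh.meas.comp (measurable_const.sub measurable_id)).mul hF.meas

/-- the bound, locally uniform in `v` -/
lemma hF_bd {C : ℝ} (hC0 : 0 ≤ C) (hC : ∀ x : ℝ, ‖h x‖ ≤ C * (1 / (1 + |x|) ^ 4)) (v w : ℝ) :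
    ‖h (v - w) * F w‖ ≤ C * (1 + |v|) ^ 4 * (1 / (1 + |w|) ^ 4 + 1 / (1 + |w|) ^ 4 * ‖F w‖ ^ 2) := by
  rw [norm_mul]
  have h1 : ‖h (v - w)‖ ≤ C * ((1 + |v|) ^ 4 * (1 / (1 + |w|) ^ 4)) :=
    (hC _).trans (mul_le_mul_of_nonneg_left (w_shift v w) hC0)
  have h2 : ‖F w‖ ≤ 1 + ‖F w‖ ^ 2 := by nlinarith [norm_nonneg (F w), sq_nonneg (‖F w‖ - 1)]
  calc ‖h (v - w)‖ * ‖F w‖ ≤ (C * ((1 + |v|) ^ 4 * (1 / (1 + |w|) ^ 4))) * (1 + ‖F w‖ ^ 2) :=
        mul_le_mul h1 h2 (norm_nonneg _) (by positivity)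
    _ = _ := by ring

lemma intg' (hh : Kr h) (hF : Gr F A) (v : ℝ) : Integrable (fun w : ℝ => h (v - w) * F w) := by
  obtain ⟨C, hC0, hC⟩ := kr_bd hh
  exact Integrable.mono' ((w4_int.add (wsq_int hF)).const_mul (C * (1 + |v|) ^ 4))
    (hF_meas hh hF v).aestronglyMeasurable (Eventually.of_forall fun w => hF_bd hC0 hC v w)

lemma cv_meas (hh : Kr h) (hF : Gr F A) : Measurable (cv h F) := by
  have h1 : Measurable (fun p : ℝ × ℝ => h (p.1 - p.2) * F p.2) :=
    (hh.meas.comp (measurable_fst.sub measurable_snd)).mul (hF.meas.comp measurable_snd)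
  have h2 : StronglyMeasurable (fun v : ℝ => ∫ w : ℝ, h (v - w) * F w) :=
    h1.stronglyMeasurable.integral_prod_right
  exact Measurable.ite measurableSet_Iio measurable_const h2.measurable

lemma cv_bd (hh : Kr h) (hF : Gr F A) (V : ℝ) : ∃ B : ℝ, 0 ≤ B ∧ ∀ v ≤ V, ‖cv h F v‖ ≤ B := by
  obtain ⟨C, hC0, hC⟩ := kr_bd hh
  have hI := w4_int.add (wsq_int hF)
  have hI0 : 0 ≤ ∫ w : ℝ, (1 / (1 + |w|) ^ 4 + 1 / (1 + |w|) ^ 4 * ‖F w‖ ^ 2) :=
    integral_nonneg fun w => by positivity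
  refine ⟨C * (1 + |V|) ^ 4 * ∫ w : ℝ, (1 / (1 + |w|) ^ 4 + 1 / (1 + |w|) ^ 4 * ‖F w‖ ^ 2), by positivity,
    fun v hv => ?_⟩
  unfold cv
  split_ifs with hv0
  · rw [norm_zero]
    positivity
  · have h1 : ‖∫ w : ℝ, h (v - w) * F w‖ ≤
        ∫ w : ℝ, C * (1 + |v|) ^ 4 * (1 / (1 + |w|) ^ 4 + 1 / (1 + |w|) ^ 4 * ‖F w‖ ^ 2) :=
      norm_integral_le_of_norm_le (hI.const_mul _) (Eventually.of_forall fun w => hF_bd hC0 hC v w)
    rw [integral_const_mul] at h1
    refine h1.trans (mul_le_mul_of_nonneg_right (mul_le_mul_of_nonneg_left ?_ hC0) hI0)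
    have h2 : |v| ≤ |V| := by
      rw [abs_of_nonneg (by linarith), abs_of_nonneg (by linarith)]
      exact hv
    exact pow_le_pow_left₀ (by positivity) (by linarith) 4

/-- the mass of the kernel -/
noncomputable def Hn (h : ℝ → ℂ) : ℝ := ∫ x : ℝ, ‖h x‖

lemma Hn_nonneg (h : ℝ → ℂ) : 0 ≤ Hn h := integral_nonneg fun _ => norm_nonneg _

/-- `|h| * |F|^2` -/
noncomputable def Sq (h F : ℝ → ℂ) (v : ℝ) : ℝ := ∫ w : ℝ, ‖h (v - w)‖ * ‖F w‖ ^ 2

lemma Sq_bd {C : ℝ} (hC0 : 0 ≤ C) (hC : ∀ x : ℝ, ‖h x‖ ≤ C * (1 / (1 + |x|) ^ 4)) (v w : ℝ) :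
    ‖h (v - w)‖ * ‖F w‖ ^ 2 ≤ C * (1 + |v|) ^ 4 * (1 / (1 + |w|) ^ 4 * ‖F w‖ ^ 2) := by
  have h1 : ‖h (v - w)‖ ≤ C * ((1 + |v|) ^ 4 * (1 / (1 + |w|) ^ 4)) :=
    (hC _).trans (mul_le_mul_of_nonneg_left (w_shift v w) hC0)
  calc ‖h (v - w)‖ * ‖F w‖ ^ 2 ≤ (C * ((1 + |v|) ^ 4 * (1 / (1 + |w|) ^ 4))) * ‖F w‖ ^ 2 :=
        mul_le_mul_of_nonneg_right h1 (by positivity)
    _ = _ := by ring

lemma Sq_int (hh : Kr h) (hF : Gr F A) (v : ℝ) : Integrable (fun w : ℝ => ‖h (v - w)‖ * ‖F w‖ ^ 2) := by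
  obtain ⟨C, hC0, hC⟩ := kr_bd hh
  refine Integrable.mono' ((wsq_int hF).const_mul (C * (1 + |v|) ^ 4)) ?_ (Eventually.of_forall fun w => ?_)
  · exact ((hh.meas.comp (measurable_const.sub measurable_id)).norm.mul (hF.meas.norm.pow_const 2)).aestronglyMeasurable
  · rw [Real.norm_eq_abs, abs_of_nonneg (by positivity)]
    exact Sq_bd hC0 hC v w

/-- Cauchy-Schwarz -/
lemma young_pt (hh : Kr h) (hF : Gr F A) (v : ℝ) : ‖cv h F v‖ ^ 2 ≤ (Hn h + 1) * Sq h F v := by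
  have hS0 : 0 ≤ Sq h F v := integral_nonneg fun w => by positivity
  have hH0 := Hn_nonneg h
  unfold cv
  split_ifs with hv
  · rw [norm_zero]
    simp only [ne_eq, OfNat.ofNat_ne_zero, not_false_eq_true, zero_pow]
    positivity
  set X : ℝ := ‖∫ w : ℝ, h (v - w) * F w‖ with hX
  have hX0 : 0 ≤ X := norm_nonneg _
  have hHv : ∫ w : ℝ, ‖h (v - w)‖ = Hn h := integral_sub_left_eq_self (fun x => ‖h x‖) volume v
  have hIv : Integrable (fun w : ℝ => ‖h (v - w)‖) := (h_int hh).norm.comp_sub_left v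
  have key : ∀ t : ℝ, 0 < t → X ≤ t / 2 * Hn h + 1 / (2 * t) * Sq h F v := by
    intro t ht
    have h1 : X ≤ ∫ w : ℝ, (t / 2 * ‖h (v - w)‖ + 1 / (2 * t) * (‖h (v - w)‖ * ‖F w‖ ^ 2)) := by
      refine norm_integral_le_of_norm_le ((hIv.const_mul _).add ((Sq_int hh hF v).const_mul _))
        (Eventually.of_forall fun w => ?_)
      rw [norm_mul]
      have h2 : ‖F w‖ ≤ t / 2 + 1 / (2 * t) * ‖F w‖ ^ 2 := by
        have h3 : t / 2 + 1 / (2 * t) * ‖F w‖ ^ 2 - ‖F w‖ = (t - ‖F w‖) ^ 2 / (2 * t) := by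
          field_simp
          ring
        have h4 : 0 ≤ (t - ‖F w‖) ^ 2 / (2 * t) := by positivity
        linarith
      calc ‖h (v - w)‖ * ‖F w‖ ≤ ‖h (v - w)‖ * (t / 2 + 1 / (2 * t) * ‖F w‖ ^ 2) :=
            mul_le_mul_of_nonneg_left h2 (norm_nonneg _)
        _ = _ := by ring
    rw [integral_add (hIv.const_mul _) ((Sq_int hh hF v).const_mul _), integral_const_mul, integral_const_mul,
      hHv] at h1
    exact h1
  rcases hX0.eq_or_lt with h0 | h0
  · rw [← h0]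
    simp only [ne_eq, OfNat.ofNat_ne_zero, not_false_eq_true, zero_pow]
    positivity
  have h1 := key (X / (Hn h + 1)) (by positivity)
  have h2 : X / (Hn h + 1) / 2 * Hn h ≤ X / 2 := by
    rw [div_div, div_mul_eq_mul_div, div_le_div_iff₀ (by positivity) (by positivity)]
    nlinarith
  have h3 : 1 / (2 * (X / (Hn h + 1))) * Sq h F v = (Hn h + 1) * Sq h F v / (2 * X) := by
    field_simp
  rw [h3] at h1
  have h4 : X / 2 ≤ (Hn h + 1) * Sq h F v / (2 * X) := by linarith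
  rw [div_le_div_iff₀ (by positivity) (by positivity)] at h4
  nlinarith

/-- the mean square of `F` up to `y` -/
lemma inner_le (hF : Gr F A) (V x Y : ℝ) (hV : 0 ≤ V) (_hY : 0 ≤ Y) (hYx : V - x ≤ Y) :
    ∫ v in (0:ℝ)..V, ‖F (v - x)‖ ^ 2 ≤ ∫ v in (0:ℝ)..Y, ‖F v‖ ^ 2 := by
  rw [intervalIntegral.integral_comp_sub_right (fun v => ‖F v‖ ^ 2) x, zero_sub]
  have h1 : ∫ v in (-x)..(V - x), ‖F v‖ ^ 2 ≤ ∫ v in (-|x|)..Y, ‖F v‖ ^ 2 :=
    intervalIntegral.integral_mono_interval (neg_le_neg (le_abs_self x)) (by linarith) hYx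
      (Eventually.of_forall fun v => by positivity) (sq_loc hF _ _)
  have h2 : ∫ v in (-|x|)..(0:ℝ), ‖F v‖ ^ 2 = 0 := by
    rw [intervalIntegral.integral_of_le (neg_nonpos.2 (abs_nonneg x)), integral_Ioc_eq_integral_Ioo]
    refine setIntegral_eq_zero_of_forall_eq_zero fun v hv => ?_
    rw [hF.neg v hv.2]
    simp
  rw [← intervalIntegral.integral_add_adjacent_intervals (sq_loc hF (-|x|) 0) (sq_loc hF 0 Y), h2, zero_add] at h1
  exact h1

/-- Fubini -/
lemma fub (hh : Kr h) (hF : Gr F A) (V : ℝ) (hV : 0 ≤ V) :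
    ∫ v in (0:ℝ)..V, Sq h F v = ∫ x : ℝ, ‖h x‖ * ∫ v in (0:ℝ)..V, ‖F (v - x)‖ ^ 2 ∧
    IntervalIntegrable (Sq h F) volume 0 V := by
  obtain ⟨C, hC0, hC⟩ := kr_bd hh
  have hSx : ∀ v : ℝ, Sq h F v = ∫ x : ℝ, ‖h x‖ * ‖F (v - x)‖ ^ 2 := by
    intro v
    have h1 := integral_sub_left_eq_self (fun x => ‖h x‖ * ‖F (v - x)‖ ^ 2) volume v
    rw [← h1]
    unfold Sq
    simp only [sub_sub_cancel]
  have hm : Measurable (fun p : ℝ × ℝ => ‖h p.2‖ * ‖F (p.1 - p.2)‖ ^ 2) :=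
    (hh.meas.comp measurable_snd).norm.mul ((hF.meas.comp (measurable_fst.sub measurable_snd)).norm.pow_const 2)
  have hxI : ∀ v : ℝ, Integrable (fun x : ℝ => ‖h x‖ * ‖F (v - x)‖ ^ 2) := by
    intro v
    have h1 := (Sq_int hh hF v).comp_sub_left v
    simpa only [sub_sub_cancel] using h1
  have hJ : Integrable (fun p : ℝ × ℝ => ‖h p.2‖ * ‖F (p.1 - p.2)‖ ^ 2)
      ((volume.restrict (Ioc 0 V)).prod volume) := by
    rw [integrable_prod_iff hm.aestronglyMeasurable]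
    refine ⟨Eventually.of_forall hxI, ?_⟩
    have hms : StronglyMeasurable (fun v : ℝ => ∫ x : ℝ, ‖‖h x‖ * ‖F (v - x)‖ ^ 2‖) :=
      hm.norm.stronglyMeasurable.integral_prod_right
    refine Measure.integrableOn_of_bounded
      (M := C * (1 + V) ^ 4 * ∫ w : ℝ, 1 / (1 + |w|) ^ 4 * ‖F w‖ ^ 2) (by simp) hms.aestronglyMeasurable ?_
    refine (ae_restrict_mem measurableSet_Ioc).mono fun v hv => ?_
    have h1 : ∫ x : ℝ, ‖‖h x‖ * ‖F (v - x)‖ ^ 2‖ = Sq h F v := by
      rw [hSx]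
      congr 1
      ext x
      rw [Real.norm_eq_abs, abs_of_nonneg (by positivity)]
    have hS0 : 0 ≤ Sq h F v := integral_nonneg fun w => by positivity
    rw [h1, Real.norm_eq_abs, abs_of_nonneg hS0]
    have h2 : Sq h F v ≤ ∫ w : ℝ, C * (1 + |v|) ^ 4 * (1 / (1 + |w|) ^ 4 * ‖F w‖ ^ 2) :=
      integral_mono (Sq_int hh hF v) ((wsq_int hF).const_mul _) (Sq_bd hC0 hC v)
    rw [integral_const_mul] at h2
    refine h2.trans (mul_le_mul_of_nonneg_right (mul_le_mul_of_nonneg_left ?_ hC0)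
      (integral_nonneg fun w => by positivity))
    rw [abs_of_nonneg hv.1.le]
    exact pow_le_pow_left₀ (by linarith [hv.1]) (by linarith [hv.2]) 4
  constructor
  · rw [intervalIntegral.integral_of_le hV]
    simp_rw [hSx]
    rw [integral_integral_swap hJ]
    congr 1
    ext x
    rw [intervalIntegral.integral_of_le hV, ← integral_const_mul]
  · rw [intervalIntegrable_iff_integrableOn_Ioc_of_le hV]
    refine hJ.integral_prod_left.congr (Eventually.of_forall fun v => ?_)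
    exact (hSx v).symm

/-- the tail of the kernel -/
noncomputable def Tl (h : ℝ → ℂ) (W : ℝ) : ℝ := ∫ x : ℝ, (Iio (-W)).indicator (fun x => ‖h x‖ * (1 + |x|)) x

lemma Tl_nonneg (h : ℝ → ℂ) (W : ℝ) : 0 ≤ Tl h W :=
  integral_nonneg fun x => indicator_nonneg (fun x _ => by positivity) x

lemma Tl_tendsto (hh : Kr h) : Tendsto (Tl h) atTop (𝓝 0) := by
  have h0 : (0:ℝ) = ∫ _ : ℝ, (0:ℝ) := by simp
  rw [h0]
  refine tendsto_integral_filter_of_dominated_convergence (fun x => ‖h x‖ * (1 + |x|)) ?_ ?_ (h1_int hh) ?_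
  · refine Eventually.of_forall fun W => ?_
    exact ((h1_int hh).aestronglyMeasurable).indicator measurableSet_Iio
  · refine Eventually.of_forall fun W => Eventually.of_forall fun x => ?_
    have h1 : 0 ≤ ‖h x‖ * (1 + |x|) := by positivity
    rw [Real.norm_eq_abs, abs_of_nonneg (indicator_nonneg (fun x _ => by positivity) x)]
    exact indicator_le_self' (fun _ _ => h1) x
  · refine Eventually.of_forall fun x => ?_
    refine tendsto_const_nhds.congr' ?_
    filter_upwards [eventually_ge_atTop (-x)] with W hW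
    rw [indicator_of_notMem]
    rw [mem_Iio, not_lt]
    linarith

lemma young_main (hh : Kr h) (hF : Gr F A) (V W : ℝ) (hV : 0 ≤ V) (hW : 0 ≤ W) :
    ∫ v in (0:ℝ)..V, ‖cv h F v‖ ^ 2 ≤
      (Hn h + 1) * (Hn h * (∫ v in (0:ℝ)..(V + W), ‖F v‖ ^ 2) + A * (V + 1) * Tl h W) := by
  have hA := A_nonneg hF
  have hH0 := Hn_nonneg h
  obtain ⟨hf1, hf2⟩ := fub hh hF V hV
  have hG0 : 0 ≤ ∫ v in (0:ℝ)..(V + W), ‖F v‖ ^ 2 :=
    intervalIntegral.integral_nonneg (by linarith) fun x _ => by positivity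
  have h1 : ∫ v in (0:ℝ)..V, ‖cv h F v‖ ^ 2 ≤ ∫ v in (0:ℝ)..V, (Hn h + 1) * Sq h F v := by
    obtain ⟨B, hB0, hB⟩ := cv_bd hh hF V
    have hi : IntervalIntegrable (fun v => ‖cv h F v‖ ^ 2) volume 0 V := by
      rw [intervalIntegrable_iff_integrableOn_Ioc_of_le hV]
      refine Measure.integrableOn_of_bounded (M := B ^ 2) (by simp)
        ((cv_meas hh hF).norm.pow_const 2).aestronglyMeasurable ?_
      refine (ae_restrict_mem measurableSet_Ioc).mono fun x hx => ?_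
      rw [Real.norm_eq_abs, abs_of_nonneg (by positivity)]
      exact pow_le_pow_left₀ (norm_nonneg _) (hB x hx.2) 2
    exact intervalIntegral.integral_mono_on hV hi (hf2.const_mul _) fun v _ => young_pt hh hF v
  rw [intervalIntegral.integral_const_mul, hf1] at h1
  refine h1.trans (mul_le_mul_of_nonneg_left ?_ (by linarith))
  have hind : Integrable (fun x : ℝ => (Iio (-W)).indicator (fun x => ‖h x‖ * (1 + |x|)) x) :=
    (h1_int hh).indicator measurableSet_Iio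
  have h2 : ∫ x : ℝ, ‖h x‖ * ∫ v in (0:ℝ)..V, ‖F (v - x)‖ ^ 2 ≤
      ∫ x : ℝ, ((∫ v in (0:ℝ)..(V + W), ‖F v‖ ^ 2) * ‖h x‖ +
        A * (V + 1) * (Iio (-W)).indicator (fun x => ‖h x‖ * (1 + |x|)) x) := by
    refine integral_mono_of_nonneg (Eventually.of_forall fun x => ?_)
      (((h_int hh).norm.const_mul _).add (hind.const_mul _)) (Eventually.of_forall fun x => ?_)
    · exact mul_nonneg (norm_nonneg _) (intervalIntegral.integral_nonneg hV fun v _ => by positivity)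
    · show ‖h x‖ * ∫ v in (0:ℝ)..V, ‖F (v - x)‖ ^ 2 ≤ (∫ v in (0:ℝ)..(V + W), ‖F v‖ ^ 2) * ‖h x‖ +
        A * (V + 1) * (Iio (-W)).indicator (fun x => ‖h x‖ * (1 + |x|)) x
      by_cases hx : x < -W
      · rw [indicator_of_mem (show x ∈ Iio (-W) from hx)]
        have h3 := inner_le hF V x (V + |x|) hV (by positivity) (by linarith [neg_abs_le x])
        have h4 := hF.grow (V + |x|) (by positivity)
        have h5 : A * (V + |x| + 1) ≤ A * ((V + 1) * (1 + |x|)) := by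
          refine mul_le_mul_of_nonneg_left ?_ hA
          nlinarith [mul_nonneg hV (abs_nonneg x), abs_nonneg x]
        have h6 : ‖h x‖ * ∫ v in (0:ℝ)..V, ‖F (v - x)‖ ^ 2 ≤ ‖h x‖ * (A * ((V + 1) * (1 + |x|))) :=
          mul_le_mul_of_nonneg_left (h3.trans (h4.trans h5)) (norm_nonneg _)
        have h7 : 0 ≤ (∫ v in (0:ℝ)..(V + W), ‖F v‖ ^ 2) * ‖h x‖ := by positivity
        linarith
      · rw [indicator_of_notMem (show x ∉ Iio (-W) from hx), mul_zero, add_zero, mul_comm]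
        refine mul_le_mul_of_nonneg_right ?_ (norm_nonneg _)
        rw [not_lt] at hx
        exact inner_le hF V x (V + W) hV (by linarith) (by linarith)
  refine h2.trans (le_of_eq ?_)
  rw [integral_add ((h_int hh).norm.const_mul _) (hind.const_mul _), integral_const_mul, integral_const_mul]
  unfold Hn Tl
  ring

end young

/-! ## Exponentials -/

lemma exp_norm (x : ℝ) : ‖Complex.exp (x * Complex.I)‖ = 1 := Complex.norm_exp_ofReal_mul_I x

lemma exp_norm' (γ x : ℝ) : ‖Complex.exp (γ * x * Complex.I)‖ = 1 := by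
  rw [← Complex.ofReal_mul]
  exact Complex.norm_exp_ofReal_mul_I _

lemma ex_meas (γ : ℝ) : Measurable (ex γ) := by
  unfold ex
  exact Measurable.ite measurableSet_Iio measurable_const (by fun_prop)

lemma ex_norm_le (γ v : ℝ) : ‖ex γ v‖ ≤ 1 := by
  unfold ex
  split_ifs
  · simp
  · rw [exp_norm']

lemma expo' {h : ℝ → ℂ} (hh : Kr h) (γ : ℝ) :
    Tendsto (fun v : ℝ => cv h (ex γ) v - ft h γ * ex γ v) atTop (𝓝 0) := by
  have hI := h_int hh
  have h1 : Tendsto (fun v : ℝ => ∫ x : ℝ, h x * (ex γ (v - x) - Complex.exp (γ * (v - x : ℝ) * Complex.I)))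
      atTop (𝓝 (∫ _ : ℝ, (0:ℂ))) := by
    refine tendsto_integral_filter_of_dominated_convergence (fun x => ‖h x‖ * 2) ?_ ?_ (hI.norm.mul_const 2) ?_
    · refine Eventually.of_forall fun v => ?_
      refine (hh.meas.mul (Measurable.sub ((ex_meas γ).comp (measurable_const.sub measurable_id)) ?_)).aestronglyMeasurable
      fun_prop
    · refine Eventually.of_forall fun v => Eventually.of_forall fun x => ?_
      rw [norm_mul]
      refine mul_le_mul_of_nonneg_left ?_ (norm_nonneg _)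
      refine (norm_sub_le _ _).trans ?_
      rw [exp_norm']
      linarith [ex_norm_le γ (v - x)]
    · refine Eventually.of_forall fun x => ?_
      refine tendsto_const_nhds.congr' ?_
      filter_upwards [eventually_ge_atTop x] with v hv
      unfold ex
      rw [if_neg (by linarith), sub_self, mul_zero]
  rw [integral_zero] at h1
  refine h1.congr' ?_
  filter_upwards [eventually_ge_atTop (0:ℝ)] with v hv
  have h2 : cv h (ex γ) v = ∫ x : ℝ, h x * ex γ (v - x) := by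
    have h3 := integral_sub_left_eq_self (fun x => h x * ex γ (v - x)) volume v
    rw [← h3]
    unfold cv
    rw [if_neg (by linarith)]
    simp only [sub_sub_cancel]
  have h4 : ft h γ * ex γ v = ∫ x : ℝ, h x * Complex.exp (γ * (v - x : ℝ) * Complex.I) := by
    unfold ft
    rw [← integral_mul_const]
    congr 1
    ext x
    unfold ex
    rw [if_neg (by linarith), mul_assoc, ← Complex.exp_add]
    congr 2
    push_cast
    ring
  have i1 : Integrable (fun x : ℝ => h x * ex γ (v - x)) := by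
    refine Integrable.mono' hI.norm ?_ (Eventually.of_forall fun x => ?_)
    · exact (hh.meas.mul ((ex_meas γ).comp (measurable_const.sub measurable_id))).aestronglyMeasurable
    · rw [norm_mul]
      have := ex_norm_le γ (v - x)
      nlinarith [norm_nonneg (h x)]
  have i2 : Integrable (fun x : ℝ => h x * Complex.exp (γ * (v - x : ℝ) * Complex.I)) := by
    refine Integrable.mono' hI.norm ?_ (Eventually.of_forall fun x => ?_)
    · refine (hh.meas.mul ?_).aestronglyMeasurable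
      fun_prop
    · rw [norm_mul, exp_norm', mul_one]
  rw [h2, h4, ← integral_sub i1 i2]
  congr 1
  ext x
  ring

end KERP

open KERP

theorem intg : S_INTG := fun _ _ _ hh hF v => intg' hh hF v

theorem cad : S_CAD := fun _ _ _ hh hF => ⟨cv_meas hh hF, cv_bd hh hF⟩

theorem expo : S_EXP := fun _ hh γ => expo' hh γ

theorem yng : S_YNG := by
  intro h hh
  have hH0 := Hn_nonneg h
  refine ⟨(Hn h + 1) * Hn h, by positivity, fun F A hF τ hτ δ hδ => ?_⟩
  have hA := A_nonneg hF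
  -- choice of `W`
  obtain ⟨W, hW0, hW⟩ : ∃ W : ℝ, 0 ≤ W ∧ (Hn h + 1) * (A * Tl h W) < δ := by
    have h1 : Tendsto (fun W => (Hn h + 1) * (A * Tl h W)) atTop (𝓝 ((Hn h + 1) * (A * 0))) :=
      ((Tl_tendsto hh).const_mul A).const_mul _
    rw [mul_zero, mul_zero] at h1
    obtain ⟨W, hW⟩ := ((h1.eventually (gt_mem_nhds hδ)).and (eventually_ge_atTop 0)).exists
    exact ⟨W, hW.2, hW.1⟩
  -- the limit of the right side
  have h2 : Tendsto (fun V : ℝ => (Hn h + 1) * (Hn h * ((∫ v in (0:ℝ)..(V + W), ‖F v‖ ^ 2) / (V + W) * (1 + W / V)) +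
      A * Tl h W * (1 + 1 / V))) atTop (𝓝 ((Hn h + 1) * (Hn h * (τ * (1 + 0)) + A * Tl h W * (1 + 0)))) := by
    have h3 : Tendsto (fun V : ℝ => (∫ v in (0:ℝ)..(V + W), ‖F v‖ ^ 2) / (V + W)) atTop (𝓝 τ) :=
      hτ.comp (tendsto_atTop_add_const_right _ W tendsto_id)
    have h4 : Tendsto (fun V : ℝ => W / V) atTop (𝓝 0) := tendsto_const_nhds.div_atTop tendsto_id
    have h5 : Tendsto (fun V : ℝ => (1:ℝ) / V) atTop (𝓝 0) := tendsto_const_nhds.div_atTop tendsto_id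
    exact (((h3.mul (tendsto_const_nhds.add h4)).const_mul _).add
      ((tendsto_const_nhds (x := A * Tl h W)).mul (tendsto_const_nhds.add h5))).const_mul _
  have h6 : (Hn h + 1) * (Hn h * (τ * (1 + 0)) + A * Tl h W * (1 + 0)) < (Hn h + 1) * Hn h * τ + δ := by
    rw [add_zero, mul_one, mul_one]
    nlinarith
  filter_upwards [h2.eventually (gt_mem_nhds h6), eventually_gt_atTop (0:ℝ)] with V hV hV0
  refine le_trans ?_ hV.le
  have h7 := young_main hh hF V W hV0.le hW0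
  rw [div_le_iff₀ hV0]
  refine h7.trans (le_of_eq ?_)
  have h8 : V + W ≠ 0 := by positivity
  field_simp

end Pool.Agent.P8H42.EP
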