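import Pool.Agent.P8H42.EP.Lim
import Pool.Agent.P8H42.EP.Ker

set_option autoImplicit false

/-! # Project EP: the approximation lemma -/

namespace Pool.Agent.P8H42.EP

open MeasureTheory Filter Topology Set
open Pool.Agent.H295R2 (ww ee)
open Pool.Agent.W120.WM (ZC NT)
open Pool.Agent.TH223.AP (dist_lim' SS)
open Pool.Agent.R305.FM (Ad fC fC_ad mn_trig Ad.sub Ad.int_sq)
open Pool.Agent.R613.WM (IQ IQ_nonneg IQ_add IQ_smul TP TP_ad TP_eq SM E E_ad Ad.smul Ad.add Ad.zero Z0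
  Z0.of_tendsto IQ_TP IQ_mono)

lemma Gr.ad {F : ℝ → ℂ} {A : ℝ} (h : Gr F A) : Ad F := ⟨h.meas, h.neg, h.bdd⟩

lemma gr_of_ad {F : ℝ → ℂ} (h : Ad F) {A : ℝ} (hA : ∀ V : ℝ, 0 ≤ V → IQ F V ≤ A * (V + 1)) : Gr F A :=
  ⟨h.meas, h.neg, h.bdd, hA⟩

lemma gr_of_lim {F : ℝ → ℂ} (h : Ad F) {τ : ℝ} (hl : Tendsto (fun V : ℝ => IQ F V / V) atTop (𝓝 τ)) :
    ∃ A : ℝ, Gr F A := by
  obtain ⟨V0, hV0⟩ := eventually_atTop.1 (hl.eventually (gt_mem_nhds (lt_add_one τ)))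
  obtain ⟨W, hW⟩ : ∃ W : ℝ, W = max V0 1 := ⟨_, rfl⟩
  have hW1 : 1 ≤ W := by rw [hW]; exact le_max_right _ _
  have hWV : V0 ≤ W := by rw [hW]; exact le_max_left _ _
  have h0 := IQ_nonneg F (zero_le_one.trans hW1)
  refine ⟨|τ + 1| + IQ F W, gr_of_ad h fun V hV => ?_⟩
  rcases le_or_gt W V with h1 | h1
  · have h2 := (hV0 V (hWV.trans h1)).le
    rw [div_le_iff₀ (by linarith)] at h2
    have h3 : (τ + 1) * V ≤ |τ + 1| * (V + 1) :=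
      (mul_le_mul_of_nonneg_right (le_abs_self _) hV).trans
        (mul_le_mul_of_nonneg_left (by linarith) (abs_nonneg _))
    have h4 : 0 ≤ IQ F W * (V + 1) := by positivity
    linarith [add_mul |τ + 1| (IQ F W) (V + 1)]
  · have h2 := IQ_mono h h1.le
    have h3 : IQ F W ≤ IQ F W * (V + 1) := le_mul_of_one_le_right h0 (by linarith)
    have h4 : 0 ≤ |τ + 1| * (V + 1) := by positivity
    linarith [add_mul |τ + 1| (IQ F W) (V + 1)]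

lemma Gr.add' {F G : ℝ → ℂ} {A B : ℝ} (hF : Gr F A) (hG : Gr G B) :
    Gr (fun v => F v + G v) (2 * A + 2 * B) := by
  refine gr_of_ad (Ad.add hF.ad hG.ad) fun V hV => (IQ_add hF.ad hG.ad hV).trans ?_
  have h1 := hF.grow V hV
  have h2 := hG.grow V hV
  unfold IQ
  linarith [add_mul (2 * A) (2 * B) (V + 1)]

lemma Gr.smul' {F : ℝ → ℂ} {A : ℝ} (hF : Gr F A) (c : ℂ) : Gr (fun v => c * F v) (‖c‖ ^ 2 * A) := by
  refine gr_of_ad (Ad.smul hF.ad c) fun V hV => ?_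
  rw [IQ_smul, mul_assoc]
  exact mul_le_mul_of_nonneg_left (hF.grow V hV) (by positivity)

lemma cv_add {h F G : ℝ → ℂ} {A B : ℝ} (hh : Kr h) (hF : Gr F A) (hG : Gr G B) (v : ℝ) :
    cv h (fun w => F w + G w) v = cv h F v + cv h G v := by
  unfold cv
  split_ifs with h0
  · rw [add_zero]
  · rw [← integral_add (intg h F A hh hF v) (intg h G B hh hG v)]
    congr 1
    funext w
    ring

lemma cv_smul (h F : ℝ → ℂ) (c : ℂ) (v : ℝ) : cv h (fun w => c * F w) v = c * cv h F v := by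
  unfold cv
  split_ifs with h0
  · rw [mul_zero]
  · rw [← integral_const_mul]
    congr 1
    funext w
    ring

lemma cv_zero (h : ℝ → ℂ) (v : ℝ) : cv h (fun _ => 0) v = 0 := by
  unfold cv
  simp

lemma cv_ad {h F : ℝ → ℂ} {A : ℝ} (hh : Kr h) (hF : Gr F A) : Ad (cv h F) := by
  obtain ⟨h1, h2⟩ := cad h F A hh hF
  refine ⟨h1, fun v hv => ?_, h2⟩
  unfold cv
  rw [if_pos hv]

lemma E_ex {ρ : ℂ} (h : ρ.re = 1 / 2) : E ρ = ex ρ.im := by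
  funext v
  unfold E ex ee
  split_ifs
  · rfl
  · have : (ρ - 1 / 2) * (v : ℂ) = (ρ.im : ℂ) * v * Complex.I := by
      have : ρ - 1 / 2 = (ρ.im : ℂ) * Complex.I := by
        apply Complex.ext
        · simp [h]
        · simp
      rw [this]
      ring
    rw [this]

lemma TP_lim (b : ℂ → ℂ) {Z : Finset ℂ} (hre : ∀ ρ ∈ Z, ρ.re = 1 / 2) :
    Tendsto (fun V : ℝ => IQ (TP b Z) V / V) atTop (𝓝 (∑ ρ ∈ Z, ‖b ρ‖ ^ 2)) := by
  refine (mn_trig Z hre b).congr' ?_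
  filter_upwards [eventually_ge_atTop (0:ℝ)] with V hV
  rw [IQ_TP b Z hV]

lemma TP_gr (b : ℂ → ℂ) {Z : Finset ℂ} (hre : ∀ ρ ∈ Z, ρ.re = 1 / 2) : ∃ A : ℝ, Gr (TP b Z) A :=
  gr_of_lim (TP_ad b hre) (TP_lim b hre)

lemma E_gr {ρ : ℂ} (h : ρ.re = 1 / 2) : ∃ A : ℝ, Gr (E ρ) A := by
  obtain ⟨A, hA⟩ := TP_gr (fun _ => 1) (Z := {ρ}) (by simpa using h)
  have : TP (fun _ => 1) {ρ} = E ρ := by
    funext v
    unfold TP
    simp
  rw [this] at hA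
  exact ⟨A, hA⟩

/-- the kernel operator on trigonometric polynomials -/
lemma cv_TP {h : ℝ → ℂ} (hh : Kr h) (b : ℂ → ℂ) {Z : Finset ℂ} (hre : ∀ ρ ∈ Z, ρ.re = 1 / 2) :
    Tendsto (fun v => cv h (TP b Z) v - TP (fun ρ => b ρ * ft h ρ.im) Z v) atTop (𝓝 0) := by
  classical
  induction Z using Finset.induction_on with
  | empty =>
    have e0 : TP b ∅ = fun _ => 0 := by funext v; simp [TP]
    have : (fun v => cv h (TP b ∅) v - TP (fun ρ => b ρ * ft h ρ.im) ∅ v) = fun _ => 0 := by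
      funext v
      rw [e0, cv_zero]
      simp [TP]
    rw [this]
    exact tendsto_const_nhds
  | insert a s ha ih =>
    have hs : ∀ ρ ∈ s, ρ.re = 1 / 2 := fun ρ hρ => hre ρ (Finset.mem_insert_of_mem hρ)
    have ha' : a.re = 1 / 2 := hre a (Finset.mem_insert_self _ _)
    obtain ⟨A1, hE⟩ := E_gr ha'
    obtain ⟨A2, hT⟩ := TP_gr b hs
    have e0 : TP b (insert a s) = fun v => b a * E a v + TP b s v := by
      funext v
      unfold TP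
      rw [Finset.sum_insert ha]
    have e1 : (fun v => cv h (TP b (insert a s)) v - TP (fun ρ => b ρ * ft h ρ.im) (insert a s) v) =
        fun v => b a * (cv h (ex a.im) v - ft h a.im * ex a.im v) +
          (cv h (TP b s) v - TP (fun ρ => b ρ * ft h ρ.im) s v) := by
      funext v
      rw [e0, cv_add hh (hE.smul' (b a)) hT v, cv_smul, ← E_ex ha']
      unfold TP
      rw [Finset.sum_insert ha]
      ring
    rw [e1]
    have h1 := (expo h hh a.im).const_mul (b a)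
    rw [mul_zero] at h1
    simpa using h1.add (ih hs)

lemma ft_bd {h : ℝ → ℂ} (γ : ℝ) : ‖ft h γ‖ ≤ ∫ x, ‖h x‖ := by
  unfold ft
  refine (norm_integral_le_integral_norm _).trans (le_of_eq ?_)
  congr 1
  funext x
  rw [norm_mul, Complex.norm_exp]
  simp

lemma dist_IQ (hZ : ZC) (Z : Finset ℂ) (h : ∀ ρ ∈ Z, ρ ∈ NT) :
    Tendsto (fun V : ℝ => IQ (fun v => fC v - TP ww Z v) V / V) atTop
      (𝓝 (SS - ∑ ρ ∈ Z, 1 / ‖ρ * deriv riemannZeta ρ‖ ^ 2)) := by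
  refine (dist_lim' hZ Z h).congr' ?_
  filter_upwards [eventually_ge_atTop (0:ℝ)] with V hV
  unfold Pool.Agent.TH223.AP.mn IQ
  congr 1
  apply intervalIntegral.integral_congr
  intro v hv
  rw [uIcc_of_le hV] at hv
  simp only
  rw [TP_eq ww Z hv.1]
  rfl

/-- the multiplier -/
noncomputable def ms (s ρ : ℂ) : ℂ := ρ / (ρ - s)

/-- approximation of `G` by trigonometric polynomials whose coefficients are `ww ρ * ms s ρ` -/
def Dk (G : ℝ → ℂ) (s : ℂ) : Prop :=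
  (∃ B : ℝ, ∀ ρ : ℂ, ρ ∈ NT → ‖ms s ρ‖ ≤ B) ∧ ∃ K : ℝ, 0 ≤ K ∧ ∀ (Z : Finset ℂ), (∀ ρ ∈ Z, ρ ∈ NT) →
    ∀ δ : ℝ, 0 < δ → ∀ᶠ V : ℝ in atTop, IQ (fun v => G v - TP (fun ρ => ww ρ * ms s ρ) Z v) V / V ≤
      K * (SS - ∑ ρ ∈ Z, 1 / ‖ρ * deriv riemannZeta ρ‖ ^ 2) + δ

theorem Dk.lim (hZ : ZC) {s : ℂ} {G : ℝ → ℂ} (hG : Ad G) (h : Dk G s) :
    Tendsto (fun V : ℝ => IQ G V / V) atTop (𝓝 (SM (ms s))) := by
  obtain ⟨⟨B, hB⟩, K, hK0, hK⟩ := h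
  exact lim_abs hZ hG hB hK0 hK

theorem dist_ker (hZ : ZC) {h : ℝ → ℂ} (hh : Kr h) {s : ℂ} {Z1 : Finset ℂ} (hZ1 : ∀ ρ ∈ Z1, ρ ∈ NT)
    (hZs : ∀ ρ ∈ Z1, ρ = s) (hns : ∀ ρ ∈ NT, ρ ∉ Z1 → ρ ≠ s)
    (hft : ∀ ρ ∈ NT, ρ ∉ Z1 → ft h ρ.im = 1 / (ρ - s)) {G : ℝ → ℂ} (hG : Ad G)
    (hlim : Tendsto (fun v => G v - ((fC v - TP ww Z1 v) + s * cv h (fun w => fC w - TP ww Z1 w) v))
      atTop (𝓝 0)) : Dk G s := by
  classical
  have hm1 : ∀ ρ ∈ NT, ρ ∉ Z1 → ms s ρ = 1 + s * ft h ρ.im := by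
    intro ρ hρ hρ1
    have h1 := sub_ne_zero.2 (hns ρ hρ hρ1)
    rw [hft ρ hρ hρ1]
    unfold ms
    field_simp
    ring
  have hm0 : ∀ ρ ∈ Z1, ms s ρ = 0 := by
    intro ρ hρ
    unfold ms
    rw [hZs ρ hρ, sub_self, div_zero]
  obtain ⟨K, hK0, hK⟩ := yng h hh
  have hK4 : 0 ≤ 4 + 4 * ‖s‖ ^ 2 * K := by positivity
  refine ⟨⟨1 + ‖s‖ * ∫ x, ‖h x‖, ?_⟩, 4 + 4 * ‖s‖ ^ 2 * K, hK4, ?_⟩
  · intro ρ hρ
    have hI : 0 ≤ ∫ x, ‖h x‖ := integral_nonneg fun x => norm_nonneg _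
    by_cases h1 : ρ ∈ Z1
    · rw [hm0 ρ h1, norm_zero]
      positivity
    · rw [hm1 ρ hρ h1]
      refine (norm_add_le _ _).trans ?_
      rw [norm_one, norm_mul]
      have := ft_bd (h := h) ρ.im
      gcongr
  · intro Z hZN δ hδ
    obtain ⟨Z', hZ'⟩ : ∃ Z' : Finset ℂ, Z' = Z ∪ Z1 := ⟨_, rfl⟩
    have hN' : ∀ ρ ∈ Z', ρ ∈ NT := by
      intro ρ hρ
      rw [hZ', Finset.mem_union] at hρ
      exact hρ.elim (hZN ρ) (hZ1 ρ)
    have hre : ∀ ρ ∈ Z', ρ.re = 1 / 2 := fun ρ hρ => (hZ.1 ρ (hN' ρ hρ)).1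
    have hreD : ∀ ρ ∈ Z' \ Z1, ρ.re = 1 / 2 := fun ρ hρ => hre ρ (Finset.mem_sdiff.1 hρ).1
    have hre1 : ∀ ρ ∈ Z1, ρ.re = 1 / 2 := fun ρ hρ => (hZ.1 ρ (hZ1 ρ hρ)).1
    have hreZ : ∀ ρ ∈ Z, ρ.re = 1 / 2 := fun ρ hρ => (hZ.1 ρ (hZN ρ hρ)).1
    have hsub : Z1 ⊆ Z' := by rw [hZ']; exact Finset.subset_union_right
    have hsubZ : Z ⊆ Z' := by rw [hZ']; exact Finset.subset_union_left
    have hRad : Ad (fun v => fC v - TP ww Z' v) := fC_ad.sub (TP_ad ww hre)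
    have hRl := dist_IQ hZ Z' hN'
    obtain ⟨AR, hR⟩ := gr_of_lim hRad hRl
    obtain ⟨AT, hT⟩ := TP_gr ww hreD
    have e1 : (fun w => fC w - TP ww Z1 w) = fun w => (fC w - TP ww Z' w) + TP ww (Z' \ Z1) w := by
      funext w
      have : TP ww (Z' \ Z1) w + TP ww Z1 w = TP ww Z' w := by
        unfold TP
        exact Finset.sum_sdiff hsub
      linear_combination -this
    have e2 : TP (fun ρ => ww ρ * ms s ρ) Z = fun v => TP ww (Z' \ Z1) v +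
        s * TP (fun ρ => ww ρ * ft h ρ.im) (Z' \ Z1) v := by
      funext v
      have f1 : TP (fun ρ => ww ρ * ms s ρ) Z v = ∑ ρ ∈ Z \ Z1, ww ρ * ms s ρ * E ρ v := by
        unfold TP
        symm
        apply Finset.sum_subset Finset.sdiff_subset
        intro ρ hρ hρ'
        have : ρ ∈ Z1 := by
          by_contra h0
          exact hρ' (Finset.mem_sdiff.2 ⟨hρ, h0⟩)
        rw [hm0 ρ this, mul_zero, zero_mul]
      have f2 : Z' \ Z1 = Z \ Z1 := by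
        rw [hZ', Finset.union_sdiff_right]
      rw [f1, f2]
      unfold TP
      rw [Finset.mul_sum, ← Finset.sum_add_distrib]
      refine Finset.sum_congr rfl fun ρ hρ => ?_
      obtain ⟨g1, g2⟩ := Finset.mem_sdiff.1 hρ
      rw [hm1 ρ (hZN ρ g1) g2]
      ring
    -- the error
    obtain ⟨W, hW⟩ : ∃ W : ℝ → ℂ, W = fun v => (fC v - TP ww Z' v) + s * cv h (fun w => fC w - TP ww Z' w) v :=
      ⟨_, rfl⟩
    have hWad : Ad W := by rw [hW]; exact Ad.add hRad (Ad.smul (cv_ad hh hR) s)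
    obtain ⟨D, hD⟩ : ∃ D : ℝ → ℂ, D = fun v => (G v - TP (fun ρ => ww ρ * ms s ρ) Z v) - W v := ⟨_, rfl⟩
    have hDad : Ad D := by rw [hD]; exact (hG.sub (TP_ad _ hreZ)).sub hWad
    have hD0 : Tendsto D atTop (𝓝 0) := by
      have h1 := (cv_TP hh ww hreD).const_mul s
      rw [mul_zero] at h1
      have h2 := hlim.add h1
      rw [add_zero] at h2
      refine h2.congr fun v => ?_
      have g1 := congrFun e1 v
      rw [hD, hW, e2, e1]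
      rw [cv_add hh hR hT v]
      linear_combination -g1
    have hDz := Z0.of_tendsto hDad hD0
    unfold Z0 at hDz
    have hδ8 : 0 < δ / (8 * (‖s‖ ^ 2 + 1)) := by positivity
    have ev1 := hK _ AR hR _ hRl (δ / (8 * (‖s‖ ^ 2 + 1))) hδ8
    obtain ⟨τ, hτ⟩ : ∃ τ : ℝ, τ = SS - ∑ ρ ∈ Z', 1 / ‖ρ * deriv riemannZeta ρ‖ ^ 2 := ⟨_, rfl⟩
    obtain ⟨τ', hτ'⟩ : ∃ τ' : ℝ, τ' = SS - ∑ ρ ∈ Z, 1 / ‖ρ * deriv riemannZeta ρ‖ ^ 2 := ⟨_, rfl⟩
    have hττ : τ ≤ τ' := by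
      have : ∑ ρ ∈ Z, 1 / ‖ρ * deriv riemannZeta ρ‖ ^ 2 ≤ ∑ ρ ∈ Z', 1 / ‖ρ * deriv riemannZeta ρ‖ ^ 2 :=
        Finset.sum_le_sum_of_subset_of_nonneg hsubZ fun _ _ _ => by positivity
      rw [hτ, hτ']
      linarith
    rw [← hτ] at ev1 hRl
    rw [← hτ']
    have ev2 := hRl.eventually (gt_mem_nhds (lt_add_of_pos_right τ (by positivity : 0 < δ / 16)))
    have ev3 := hDz.eventually (gt_mem_nhds (by positivity : 0 < δ / 8))
    filter_upwards [ev1, ev2, ev3, eventually_gt_atTop (0:ℝ)] with V h1 h2 h3 hV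
    have e3 : (fun v => G v - TP (fun ρ => ww ρ * ms s ρ) Z v) = fun v => W v + D v := by
      funext v
      rw [hD]
      ring
    rw [e3]
    have i1 := IQ_add hWad hDad hV.le
    have i2 : IQ W V ≤ 2 * IQ (fun v => fC v - TP ww Z' v) V + 2 * (‖s‖ ^ 2 *
        IQ (cv h (fun w => fC w - TP ww Z' w)) V) := by
      rw [hW, ← IQ_smul]
      exact IQ_add hRad (Ad.smul (cv_ad hh hR) s) hV.le
    have i3 : IQ (fun v => fC v - TP ww Z' v) V ≤ (τ + δ / 16) * V := by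
      rw [← div_le_iff₀ hV]
      exact h2.le
    have i4 : IQ (cv h (fun w => fC w - TP ww Z' w)) V ≤ (K * τ + δ / (8 * (‖s‖ ^ 2 + 1))) * V := by
      rw [← div_le_iff₀ hV]
      exact h1
    have i5 : IQ D V ≤ δ / 8 * V := by
      rw [← div_le_iff₀ hV]
      exact h3.le
    rw [div_le_iff₀ hV]
    have i6 : ‖s‖ ^ 2 * (K * τ + δ / (8 * (‖s‖ ^ 2 + 1))) ≤ ‖s‖ ^ 2 * K * τ' + δ / 8 := by
      have j1 : ‖s‖ ^ 2 * (δ / (8 * (‖s‖ ^ 2 + 1))) ≤ δ / 8 := by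
        rw [mul_div, div_le_div_iff₀ (by positivity) (by norm_num)]
        nlinarith [sq_nonneg ‖s‖]
      have j2 : ‖s‖ ^ 2 * K * τ ≤ ‖s‖ ^ 2 * K * τ' := by gcongr
      linarith
    have i7 : ‖s‖ ^ 2 * IQ (cv h (fun w => fC w - TP ww Z' w)) V ≤ (‖s‖ ^ 2 * K * τ' + δ / 8) * V := by
      calc ‖s‖ ^ 2 * IQ (cv h (fun w => fC w - TP ww Z' w)) V ≤
          ‖s‖ ^ 2 * ((K * τ + δ / (8 * (‖s‖ ^ 2 + 1))) * V) := by gcongr
        _ = ‖s‖ ^ 2 * (K * τ + δ / (8 * (‖s‖ ^ 2 + 1))) * V := by ring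
        _ ≤ _ := by gcongr
    have i8 : (τ + δ / 16) * V ≤ (τ' + δ / 16) * V := by gcongr
    have i9 : ((4 + 4 * ‖s‖ ^ 2 * K) * τ' + δ) * V = 4 * ((τ' + δ / 16) * V) +
        4 * ((‖s‖ ^ 2 * K * τ' + δ / 8) * V) + 2 * (δ / 8 * V) := by ring
    rw [i9]
    linarith

end Pool.Agent.P8H42.EP
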