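import Pool.Agent.P8H42.EP.Apx
import Pool.Agent.P8H24.EP.Idn
import Pool.Agent.P8H24.EP.Lap

set_option autoImplicit false

/-! # Project EP: the remainder, and the points off the critical line -/

namespace Pool.Agent.P8H42.EP

open MeasureTheory Filter Topology Set
open Pool.Agent.H295R2 (ww ee)
open Pool.Agent.W120.WM (ZC NT)
open Pool.Agent.TH223.AP (dist_lim' SS)
open Pool.Agent.R305.FM (Ad fC fC_ad mn_trig Ad.sub Ad.int_sq)
open Pool.Agent.R613.WM (IQ IQ_nonneg IQ_add IQ_smul TP TP_ad TP_eq SM E E_ad Ad.smul Ad.add Ad.zero Z0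
  Z0.of_tendsto IQ_TP IQ_mono)
open Pool.Agent.P8H24.EP (id1 id2 lap)

lemma ff_fC : ff = fC := rfl

/-- the main term -/
noncomputable def Cs (s : ℂ) (u : ℝ) : ℂ :=
  if s.re < 1 / 2 then 0
  else if s = 1 then 0
  else if riemannZeta s ≠ 0 then 1 / riemannZeta s
  else Real.log u / deriv riemannZeta s - iteratedDeriv 2 riemannZeta s / (2 * deriv riemannZeta s ^ 2)

/-- the remainder, on the logarithmic scale -/
noncomputable def Gs (s : ℂ) (v : ℝ) : ℂ :=
  if v < 0 then 0 else Complex.exp ((s - 1 / 2) * v) * (As s (Real.exp v) - Cs s (Real.exp v))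

lemma Gs_nonneg (s : ℂ) {v : ℝ} (hv : 0 ≤ v) :
    Gs s v = Complex.exp ((s - 1 / 2) * v) * (As s (Real.exp v) - Cs s (Real.exp v)) := by
  unfold Gs
  rw [if_neg (not_lt.2 hv)]

lemma Cs_form (s : ℂ) : ∃ c0 c1 : ℂ, ∀ v : ℝ, Cs s (Real.exp v) = c0 + c1 * v := by
  unfold Cs
  simp only [Real.log_exp]
  split_ifs with h1 h2 h3
  · exact ⟨0, 0, fun v => by ring⟩
  · exact ⟨0, 0, fun v => by ring⟩
  · exact ⟨1 / riemannZeta s, 0, fun v => by ring⟩
  · exact ⟨-(iteratedDeriv 2 riemannZeta s / (2 * deriv riemannZeta s ^ 2)), 1 / deriv riemannZeta s,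
      fun v => by ring⟩

lemma As_meas (s : ℂ) : Measurable fun v : ℝ => As s (Real.exp v) := by
  have e : (fun v : ℝ => As s (Real.exp v)) = (fun n : ℕ => ∑ k ∈ Finset.Icc 1 n,
      ((ArithmeticFunction.moebius k : ℤ) : ℂ) * (k : ℂ) ^ (-s)) ∘ fun v : ℝ => ⌊Real.exp v⌋₊ := rfl
  rw [e]
  exact (measurable_of_countable _).comp (Nat.measurable_floor.comp Real.measurable_exp)

lemma Gs_ad (s : ℂ) : Ad (Gs s) := by
  obtain ⟨c0, c1, hc⟩ := Cs_form s
  refine ⟨?_, fun v hv => by unfold Gs; rw [if_pos hv], fun V => ?_⟩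
  · unfold Gs
    refine Measurable.ite measurableSet_Iio measurable_const ?_
    simp only [hc]
    exact (Continuous.measurable (by fun_prop)).mul
      ((As_meas s).sub (Continuous.measurable (by fun_prop)))
  · refine ⟨Real.exp (|s.re - 1 / 2| * |V|) * ((∑ n ∈ Finset.Icc 1 ⌊Real.exp V⌋₊,
      ‖((ArithmeticFunction.moebius n : ℤ) : ℂ) * (n : ℂ) ^ (-s)‖) + (‖c0‖ + ‖c1‖ * |V|)), by positivity,
      fun v hv => ?_⟩
    rcases lt_or_ge v 0 with h0 | h0
    · unfold Gs
      rw [if_pos h0, norm_zero]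
      positivity
    · rw [Gs_nonneg s h0, norm_mul]
      have hvV : |v| ≤ |V| := by
        rw [abs_of_nonneg h0, abs_of_nonneg (h0.trans hv)]
        exact hv
      refine mul_le_mul ?_ ?_ (norm_nonneg _) (Real.exp_pos _).le
      · rw [Complex.norm_exp]
        apply Real.exp_le_exp.2
        have e1 : ((s - 1 / 2) * (v : ℂ)).re = (s.re - 1 / 2) * v := by
          simp
        rw [e1]
        refine (le_abs_self _).trans ?_
        rw [abs_mul]
        exact mul_le_mul_of_nonneg_left hvV (abs_nonneg _)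
      · refine (norm_sub_le _ _).trans (add_le_add ?_ ?_)
        · unfold As
          refine (norm_sum_le _ _).trans ?_
          refine Finset.sum_le_sum_of_subset_of_nonneg ?_ fun _ _ _ => norm_nonneg _
          exact Finset.Icc_subset_Icc_right (Nat.floor_le_floor (Real.exp_le_exp.2 hv))
        · rw [hc]
          refine (norm_add_le _ _).trans ?_
          rw [norm_mul, Complex.norm_real, Real.norm_eq_abs]
          have := mul_le_mul_of_nonneg_left hvV (norm_nonneg c1)
          linarith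

lemma exp_bd4 {a : ℝ} (ha : 0 < a) {y : ℝ} (hy : 0 ≤ y) :
    Real.exp (-(a * y)) ≤ (24 * Real.exp a / a ^ 4) / (1 + y) ^ 4 := by
  have h1 := Real.pow_div_factorial_le_exp _ (mul_nonneg ha.le (by linarith : 0 ≤ 1 + y)) 4
  have h2 : ((Nat.factorial 4 : ℕ) : ℝ) = 24 := by norm_num [Nat.factorial]
  rw [h2, div_le_iff₀ (by norm_num)] at h1
  have h3 : Real.exp (a * (1 + y)) = Real.exp a * Real.exp (a * y) := by
    rw [← Real.exp_add]
    congr 1
    ring
  rw [h3] at h1
  rw [div_div, le_div_iff₀ (by positivity), Real.exp_neg]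
  have h4 := Real.exp_pos (a * y)
  rw [inv_mul_le_iff₀ h4]
  rw [mul_pow] at h1
  linarith

/-- the kernel for `Re z < 0` -/
noncomputable def hm (z : ℂ) (x : ℝ) : ℂ := if x < 0 then 0 else Complex.exp (z * x)

/-- the kernel for `Re z > 0` -/
noncomputable def hp (z : ℂ) (x : ℝ) : ℂ := if x < 0 then -Complex.exp (z * x) else 0

lemma hm_kr {z : ℂ} (hz : z.re < 0) : Kr (hm z) := by
  refine ⟨?_, 24 * Real.exp (-z.re) / (-z.re) ^ 4, fun x => ?_⟩
  · unfold hm
    exact Measurable.ite measurableSet_Iio measurable_const (Continuous.measurable (by fun_prop))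
  · unfold hm
    split_ifs with h
    · rw [norm_zero]
      have : 0 < -z.re := by linarith
      positivity
    · rw [not_lt] at h
      rw [abs_of_nonneg h, Complex.norm_exp]
      have e : (z * (x : ℂ)).re = -(-z.re * x) := by simp
      rw [e]
      exact exp_bd4 (by linarith) h

lemma hp_kr {z : ℂ} (hz : 0 < z.re) : Kr (hp z) := by
  refine ⟨?_, 24 * Real.exp z.re / z.re ^ 4, fun x => ?_⟩
  · unfold hp
    exact Measurable.ite measurableSet_Iio (Continuous.measurable (by fun_prop)) measurable_const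
  · unfold hp
    split_ifs with h
    · rw [abs_of_neg h, norm_neg, Complex.norm_exp]
      have e : (z * (x : ℂ)).re = -(z.re * -x) := by simp
      rw [e]
      exact exp_bd4 hz (by linarith)
    · rw [norm_zero]
      positivity

lemma ft_hm {z : ℂ} (hz : z.re < 0) (γ : ℝ) : ft (hm z) γ = 1 / (γ * Complex.I - z) := by
  unfold ft hm
  have h1 : (∫ x : ℝ, (if x < 0 then 0 else Complex.exp (z * x)) * Complex.exp (-(γ * x * Complex.I))) =
      ∫ x in Ici (0:ℝ), Complex.exp ((z - γ * Complex.I) * x) := by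
    rw [← integral_indicator measurableSet_Ici]
    congr 1
    funext x
    by_cases hx : x < 0
    · rw [if_pos hx, zero_mul, indicator_of_notMem (by simpa using hx)]
    · rw [if_neg hx, indicator_of_mem (by simpa using hx), ← Complex.exp_add]
      congr 1
      ring
  rw [h1, integral_Ici_eq_integral_Ioi, integral_exp_mul_complex_Ioi (by simpa using hz)]
  simp only [Complex.ofReal_zero, mul_zero, Complex.exp_zero]
  rw [← neg_sub, neg_div_neg_eq]

lemma ft_hp {z : ℂ} (hz : 0 < z.re) (γ : ℝ) : ft (hp z) γ = 1 / (γ * Complex.I - z) := by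
  unfold ft hp
  have h1 : (∫ x : ℝ, (if x < 0 then -Complex.exp (z * x) else 0) * Complex.exp (-(γ * x * Complex.I))) =
      ∫ x in Iio (0:ℝ), -Complex.exp ((z - γ * Complex.I) * x) := by
    rw [← integral_indicator measurableSet_Iio]
    congr 1
    funext x
    by_cases hx : x < 0
    · rw [if_pos hx, indicator_of_mem (by simpa using hx), neg_mul, ← Complex.exp_add]
      congr 2
      ring
    · rw [if_neg hx, zero_mul, indicator_of_notMem (by simpa using hx)]
  rw [h1, ← integral_Iic_eq_integral_Iio, integral_neg, integral_exp_mul_complex_Iic (by simpa using hz)]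
  simp only [Complex.ofReal_zero, mul_zero, Complex.exp_zero]
  rw [← neg_sub z, div_neg]

lemma cv_hm (z : ℂ) (F : ℝ → ℂ) (hF : ∀ v : ℝ, v < 0 → F v = 0) {v : ℝ} (hv : 0 ≤ v) :
    cv (hm z) F v = ∫ w in (0:ℝ)..v, Complex.exp (z * (v - w)) * F w := by
  unfold cv
  rw [if_neg (not_lt.2 hv), intervalIntegral.integral_of_le hv, ← integral_Icc_eq_integral_Ioc,
    ← integral_indicator measurableSet_Icc]
  congr 1
  funext w
  unfold hm
  by_cases hw : w ∈ Icc 0 v
  · rw [indicator_of_mem hw, if_neg (by have := hw.2; linarith)]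
    push_cast
    rfl
  · rw [indicator_of_notMem hw]
    rw [mem_Icc, not_and_or, not_le, not_le] at hw
    rcases hw with h | h
    · rw [hF w h, mul_zero]
    · rw [if_pos (by linarith), zero_mul]

lemma ff_neg {v : ℝ} (hv : v < 0) : ff v = 0 := fC_ad.neg v hv

lemma NT_im {ρ s : ℂ} (h : ρ.re = 1 / 2) : (ρ.im : ℂ) * Complex.I - (s - 1 / 2) = ρ - s := by
  have : ρ = 1 / 2 + (ρ.im : ℂ) * Complex.I := by
    apply Complex.ext
    · simp [h]
    · simp
  linear_combination -this

lemma TP_empty (b : ℂ → ℂ) (v : ℝ) : TP b ∅ v = 0 := by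
  unfold TP
  simp

/-- the points to the left of the critical line -/
theorem dk_left (hZ : ZC) {s : ℂ} (hs : s.re < 1 / 2) :
    Dk (Gs s) s := by
  have hz : (s - 1 / 2).re < 0 := by
    have : (s - 1 / 2).re = s.re - 1 / 2 := by simp
    rw [this]
    linarith
  refine dist_ker hZ (hm_kr hz) (Z1 := ∅) (by simp) (by simp) ?_ ?_ (Gs_ad s) ?_
  · intro ρ hρ _ h
    have := (hZ.1 ρ hρ).1
    rw [h] at this
    linarith
  · intro ρ hρ _
    rw [ft_hm hz, NT_im (hZ.1 ρ hρ).1]
  · have : ∀ v : ℝ, 0 ≤ v → Gs s v - ((fC v - TP ww ∅ v) + s * cv (hm (s - 1 / 2))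
        (fun w => fC w - TP ww ∅ w) v) = 0 := by
      intro v hv
      have e1 : (fun w => fC w - TP ww ∅ w) = ff := by
        funext w
        rw [TP_empty, sub_zero, ff_fC]
      have e2 : Cs s (Real.exp v) = 0 := by
        unfold Cs
        rw [if_pos hs]
      rw [e1, TP_empty, sub_zero, Gs_nonneg s hv, e2, sub_zero, id1 s v hv,
        cv_hm _ _ (fun w hw => ff_neg hw) hv, ff_fC]
      ring
    refine tendsto_const_nhds.congr' ?_
    filter_upwards [eventually_ge_atTop (0:ℝ)] with v hv
    exact (this v hv).symm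

/-- the growth bound -/
lemma ff_gr (hZ : ZC) : ∃ A : ℝ, Gr ff A := by
  have h := dist_IQ hZ ∅ (by simp)
  have e : (fun v => fC v - TP ww ∅ v) = ff := by
    funext w
    rw [TP_empty, sub_zero, ff_fC]
  rw [e] at h
  exact gr_of_lim fC_ad h

/-- the points to the right of the critical line -/
theorem dk_right (hZ : ZC) {s : ℂ} (hs : 1 / 2 < s.re) :
    Dk (Gs s) s := by
  obtain ⟨A, hA⟩ := ff_gr hZ
  have hz : 0 < (s - 1 / 2).re := by
    have : (s - 1 / 2).re = s.re - 1 / 2 := by simp
    rw [this]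
    linarith
  obtain ⟨l1, l2, l3⟩ := lap A hA (s - 1 / 2) hz
  have e0 : s - 1 / 2 + 1 / 2 = s := by ring
  rw [e0] at l3
  have hs0 : s ≠ 0 := by
    rintro rfl
    simp at hs
    linarith
  obtain ⟨L, hL⟩ : ∃ L : ℂ, L = ∫ v in Ioi (0:ℝ), ff v * Complex.exp (-((s - 1 / 2) * v)) := ⟨_, rfl⟩
  rw [← hL] at l2 l3
  have hC : ∀ u : ℝ, Cs s u = s * L := by
    intro u
    unfold Cs
    rw [if_neg (by linarith)]
    by_cases h1 : s = 1
    · rw [if_pos h1, l2 (by rw [h1]; ring), mul_zero]
    · obtain ⟨h2, h3⟩ := l3 (fun h => h1 (by linear_combination h))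
      rw [if_neg h1, if_pos h2, h3]
      field_simp
  refine dist_ker hZ (hp_kr hz) (Z1 := ∅) (by simp) (by simp) ?_ ?_ (Gs_ad s) ?_
  · intro ρ hρ _ h
    have := (hZ.1 ρ hρ).1
    rw [h] at this
    linarith
  · intro ρ hρ _
    rw [ft_hp hz, NT_im (hZ.1 ρ hρ).1]
  · have : ∀ v : ℝ, 0 ≤ v → Gs s v - ((fC v - TP ww ∅ v) + s * cv (hp (s - 1 / 2))
        (fun w => fC w - TP ww ∅ w) v) = 0 := by
      intro v hv
      have e1 : (fun w => fC w - TP ww ∅ w) = ff := by
        funext w
        rw [TP_empty, sub_zero, ff_fC]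
      rw [e1, TP_empty, sub_zero, Gs_nonneg s hv, hC, mul_sub, id1 s v hv, ← ff_fC]
      -- the convolution
      have c1 : cv (hp (s - 1 / 2)) ff v = -∫ w in Ioi v, Complex.exp ((s - 1 / 2) * (v - w)) * ff w := by
        unfold cv
        rw [if_neg (not_lt.2 hv), ← integral_indicator measurableSet_Ioi, ← integral_neg]
        congr 1
        funext w
        unfold hp
        by_cases hw : w ∈ Ioi v
        · rw [indicator_of_mem hw, if_pos (by have : v < w := hw; linarith)]
          push_cast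
          ring
        · rw [indicator_of_notMem hw]
          have : w ≤ v := not_lt.1 hw
          rw [if_neg (by linarith), zero_mul, neg_zero]
      have c2 : Complex.exp ((s - 1 / 2) * v) * L =
          (∫ w in (0:ℝ)..v, Complex.exp ((s - 1 / 2) * (v - w)) * ff w) +
          ∫ w in Ioi v, Complex.exp ((s - 1 / 2) * (v - w)) * ff w := by
        have e2 : ∀ w : ℝ, Complex.exp ((s - 1 / 2) * (v - w)) * ff w =
            Complex.exp ((s - 1 / 2) * v) * (ff w * Complex.exp (-((s - 1 / 2) * w))) := by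
          intro w
          have : Complex.exp ((s - 1 / 2) * (v - w)) = Complex.exp ((s - 1 / 2) * v) *
              Complex.exp (-((s - 1 / 2) * w)) := by
            rw [← Complex.exp_add]
            congr 1
            ring
          rw [this]
          ring
        simp only [e2]
        rw [intervalIntegral.integral_const_mul, integral_const_mul, ← mul_add, hL,
          intervalIntegral.integral_of_le hv, ← setIntegral_union Ioc_disjoint_Ioi_same measurableSet_Ioi
            (l1.mono_set Ioc_subset_Ioi_self) (l1.mono_set (Ioi_subset_Ioi hv)), Ioc_union_Ioi_eq_Ioi hv]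
      rw [c1]
      linear_combination -s * c2
    refine tendsto_const_nhds.congr' ?_
    filter_upwards [eventually_ge_atTop (0:ℝ)] with v hv
    exact (this v hv).symm

end Pool.Agent.P8H42.EP
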