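import Pool.Agent.P8H42.EP.Stm

/-!
# Package CRIT of project EP: the band limited kernel and integration on a spectral gap (helper43)
-/

set_option autoImplicit false

namespace Pool.Agent.P8H42.EP

open MeasureTheory Filter Topology Set

noncomputable section

namespace CRITaux

/-- band limited functions -/
lemma band (Q : ℝ → ℂ) (h1 : HasCompactSupport Q) (h2 : ContDiff ℝ ((⊤ : ℕ∞) : WithTop ℕ∞) Q) :
    ∃ k : ℝ → ℂ, Continuous k ∧ Integrable k ∧ (∃ C : ℝ, 0 ≤ C ∧ ∀ x, ‖k x‖ ≤ C / (1 + |x|) ^ 6) ∧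
      (∀ x : ℝ, k x = ∫ t : ℝ, Q t * Complex.exp (2 * Real.pi * t * x * Complex.I)) ∧
      (∀ t : ℝ, ∫ x : ℝ, k x * Complex.exp (-(2 * Real.pi * t * x * Complex.I)) = Q t) := by
  set q : SchwartzMap ℝ ℂ := h1.toSchwartzMap h2 with hq
  have hqQ : (q : ℝ → ℂ) = Q := rfl
  set k : SchwartzMap ℝ ℂ := FourierTransformInv.fourierInv q with hk
  have hk1 : (k : ℝ → ℂ) = FourierTransformInv.fourierInv (q : ℝ → ℂ) := by
    rw [hk, SchwartzMap.fourierInv_coe]
  refine ⟨k, k.continuous, k.integrable, ?_, ?_, ?_⟩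
  · obtain ⟨C0, hC0, hC0'⟩ := k.decay 0 0
    obtain ⟨C6, hC6, hC6'⟩ := k.decay 6 0
    refine ⟨2 ^ 5 * (C0 + C6), by positivity, ?_⟩
    intro x
    rw [le_div_iff₀ (by positivity)]
    have a0 := hC0' x
    have a6 := hC6' x
    simp only [norm_iteratedFDeriv_zero, pow_zero, one_mul, Real.norm_eq_abs] at a0 a6
    have h3 : (1 + |x|) ^ 6 ≤ 2 ^ 5 * (1 ^ 6 + |x| ^ 6) := add_pow_le (by norm_num) (abs_nonneg x) 6
    calc ‖k x‖ * (1 + |x|) ^ 6 ≤ ‖k x‖ * (2 ^ 5 * (1 ^ 6 + |x| ^ 6)) := by gcongr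
      _ = 2 ^ 5 * (‖k x‖ + |x| ^ 6 * ‖k x‖) := by ring
      _ ≤ 2 ^ 5 * (C0 + C6) := by gcongr
  · intro x
    rw [hk1, Real.fourierInv_eq']
    apply integral_congr_ae
    filter_upwards with t
    rw [hqQ, smul_eq_mul, mul_comm]
    congr 2
    simp only [RCLike.inner_apply, conj_trivial]
    push_cast
    ring
  · intro t
    have h3 : (FourierTransform.fourier k : SchwartzMap ℝ ℂ) = q := by
      rw [hk, FourierTransform.fourier_fourierInv_eq]
    have h4 : FourierTransform.fourier (k : ℝ → ℂ) t = Q t := by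
      rw [← SchwartzMap.fourier_coe, h3]
      exact congrFun hqQ t
    rw [← h4, Real.fourier_eq']
    apply integral_congr_ae
    filter_upwards with x
    rw [smul_eq_mul, mul_comm]
    congr 2
    simp only [RCLike.inner_apply, conj_trivial]
    push_cast
    ring


/-! ### decay -/

lemma int_w2 : Integrable (fun y : ℝ => 1 / (1 + |y|) ^ 2) := by
  refine Integrable.mono' integrable_inv_one_add_sq ?_ ?_
  · exact (Continuous.div continuous_const (by fun_prop) (fun y => by positivity)).aestronglyMeasurable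
  · filter_upwards with y
    rw [Real.norm_of_nonneg (by positivity), ← one_div]
    apply one_div_le_one_div_of_le (by positivity)
    have : |y| ^ 2 = y ^ 2 := sq_abs y
    nlinarith [abs_nonneg y]

/-- `∫ (1+|y|)^(-2) dy` -/
def Jc : ℝ := ∫ y : ℝ, 1 / (1 + |y|) ^ 2

lemma Jc_nonneg : 0 ≤ Jc := integral_nonneg (fun y => by positivity)

lemma tail_bound (κ : ℝ → ℂ) (C : ℝ) (hC0 : 0 ≤ C) (hC : ∀ x, ‖κ x‖ ≤ C / (1 + |x|) ^ 6) (S : Set ℝ)
    (hS : MeasurableSet S) (x : ℝ) (hx : ∀ y ∈ S, |x| ≤ |y|) :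
    ‖∫ y in S, κ y‖ ≤ C * Jc / (1 + |x|) ^ 4 := by
  have h1 : ‖∫ y in S, κ y‖ ≤ ∫ y in S, C / (1 + |x|) ^ 4 * (1 / (1 + |y|) ^ 2) := by
    apply norm_integral_le_of_norm_le (int_w2.const_mul _).integrableOn
    filter_upwards [ae_restrict_mem hS] with y hy
    refine (hC y).trans ?_
    rw [div_mul_div_comm, mul_one]
    apply div_le_div_of_nonneg_left hC0 (by positivity)
    have : (1 + |x|) ^ 4 ≤ (1 + |y|) ^ 4 := by
      have := hx y hy
      gcongr
    calc (1 + |x|) ^ 4 * (1 + |y|) ^ 2 ≤ (1 + |y|) ^ 4 * (1 + |y|) ^ 2 := by gcongr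
      _ = (1 + |y|) ^ 6 := by ring
  refine h1.trans ?_
  rw [integral_const_mul]
  have h2 : ∫ y in S, 1 / (1 + |y|) ^ 2 ≤ Jc :=
    setIntegral_le_integral int_w2 (Eventually.of_forall (fun y => by positivity))
  calc C / (1 + |x|) ^ 4 * ∫ y in S, 1 / (1 + |y|) ^ 2 ≤ C / (1 + |x|) ^ 4 * Jc := by gcongr
    _ = _ := by ring

lemma inv_le4 (D : ℝ) (hD : 0 ≤ D) (x : ℝ) : D / (1 + |x|) ^ 4 ≤ D * (1 / (1 + |x|) ^ 2) := by
  rw [mul_one_div]
  apply div_le_div_of_nonneg_left hD (by positivity)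
  have : (1:ℝ) ≤ 1 + |x| := by linarith [abs_nonneg x]
  exact pow_le_pow_right₀ this (by norm_num)

lemma tends_bd (D : ℝ) : Tendsto (fun x : ℝ => D / (1 + |x|) ^ 4) atTop (𝓝 0) := by
  apply Tendsto.div_atTop tendsto_const_nhds
  apply Filter.Tendsto.comp (tendsto_pow_atTop (by norm_num))
  apply tendsto_atTop_add_const_left
  exact tendsto_abs_atTop_atTop

lemma tends_bd' (D : ℝ) : Tendsto (fun x : ℝ => D / (1 + |x|) ^ 4) atBot (𝓝 0) := by
  apply Tendsto.div_atTop tendsto_const_nhds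
  apply Filter.Tendsto.comp (tendsto_pow_atTop (by norm_num))
  apply tendsto_atTop_add_const_left
  exact tendsto_abs_atBot_atTop

/-- the primitive -/
def Kp (κ : ℝ → ℂ) (x : ℝ) : ℂ := ∫ y in Iic x, κ y

/-- the kernel, without the exponential -/
def gk (κ : ℝ → ℂ) (x : ℝ) : ℂ := if 0 ≤ x then 1 - Kp κ x else - Kp κ x

lemma Kp_deriv (κ : ℝ → ℂ) (hc : Continuous κ) (hi : Integrable κ) (x : ℝ) : HasDerivAt (Kp κ) (κ x) x := by
  have h1 : ∀ y, Kp κ y = (∫ z in (0:ℝ)..y, κ z) + Kp κ 0 := by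
    intro y
    unfold Kp
    rw [← intervalIntegral.integral_Iic_sub_Iic hi.integrableOn hi.integrableOn]
    ring
  have h2 : HasDerivAt (fun y => (∫ z in (0:ℝ)..y, κ z) + Kp κ 0) (κ x) x :=
    (intervalIntegral.integral_hasDerivAt_right (hc.intervalIntegrable _ _)
      hc.stronglyMeasurable.stronglyMeasurableAtFilter hc.continuousAt).add_const _
  exact h2.congr_of_eventuallyEq (Eventually.of_forall h1)

lemma Kp_cont (κ : ℝ → ℂ) (hc : Continuous κ) (hi : Integrable κ) : Continuous (Kp κ) :=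
  continuous_iff_continuousAt.2 (fun x => (Kp_deriv κ hc hi x).continuousAt)

lemma gk_meas (κ : ℝ → ℂ) (hc : Continuous κ) (hi : Integrable κ) : Measurable (gk κ) := by
  unfold gk
  have h := (Kp_cont κ hc hi).measurable
  exact Measurable.ite measurableSet_Ici (measurable_const.sub h) h.neg

lemma one_sub_Kp (κ : ℝ → ℂ) (hi : Integrable κ) (h1 : ∫ y, κ y = 1) (x : ℝ) :
    1 - Kp κ x = ∫ y in Ioi x, κ y := by
  rw [← h1, Kp, ← compl_Iic, ← integral_add_compl (measurableSet_Iic (a := x)) hi]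
  ring

lemma gk_bound (κ : ℝ → ℂ) (hi : Integrable κ) (h1 : ∫ y, κ y = 1) (C : ℝ) (hC0 : 0 ≤ C)
    (hC : ∀ x, ‖κ x‖ ≤ C / (1 + |x|) ^ 6) (x : ℝ) : ‖gk κ x‖ ≤ C * Jc / (1 + |x|) ^ 4 := by
  unfold gk
  split_ifs with h
  · rw [one_sub_Kp κ hi h1]
    apply tail_bound κ C hC0 hC _ measurableSet_Ioi
    intro y hy
    have : x < y := hy
    rw [abs_of_nonneg h, abs_of_nonneg (by linarith)]
    exact this.le
  · rw [norm_neg]
    apply tail_bound κ C hC0 hC _ measurableSet_Iic
    intro y hy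
    have : y ≤ x := hy
    rw [abs_of_nonpos (by linarith), abs_of_nonpos (by linarith)]
    linarith

lemma gk_int (κ : ℝ → ℂ) (hc : Continuous κ) (hi : Integrable κ) (h1 : ∫ y, κ y = 1) (C : ℝ) (hC0 : 0 ≤ C)
    (hC : ∀ x, ‖κ x‖ ≤ C / (1 + |x|) ^ 6) : Integrable (gk κ) := by
  refine Integrable.mono' (int_w2.const_mul (C * Jc)) (gk_meas κ hc hi).aestronglyMeasurable ?_
  filter_upwards with x
  exact (gk_bound κ hi h1 C hC0 hC x).trans (inv_le4 _ (mul_nonneg hC0 Jc_nonneg) x)

lemma ex_norm (a x : ℝ) : ‖Complex.exp (-(a * x * Complex.I))‖ = 1 := by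
  rw [show (-(a * x * Complex.I) : ℂ) = ((-(a * x) : ℝ) : ℂ) * Complex.I by push_cast; ring]
  exact Complex.norm_exp_ofReal_mul_I _

lemma ex_norm' (a x : ℝ) : ‖Complex.exp (a * x * Complex.I)‖ = 1 := by
  rw [show (a * x * Complex.I : ℂ) = ((a * x : ℝ) : ℂ) * Complex.I by push_cast; ring]
  exact Complex.norm_exp_ofReal_mul_I _

lemma ex_cont (a : ℝ) : Continuous (fun x : ℝ => Complex.exp (-(a * x * Complex.I))) := by fun_prop

lemma int_mul_ex (f : ℝ → ℂ) (hf : Integrable f) (a : ℝ) :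
    Integrable (fun x : ℝ => f x * Complex.exp (-(a * x * Complex.I))) := by
  refine hf.mono (hf.aestronglyMeasurable.mul (ex_cont a).aestronglyMeasurable) ?_
  filter_upwards with x
  rw [norm_mul, ex_norm, mul_one]

lemma ex_deriv (a x : ℝ) : HasDerivAt (fun x : ℝ => Complex.exp (-(a * x * Complex.I)))
    (-(a * Complex.I) * Complex.exp (-(a * x * Complex.I))) x := by
  have h1 : HasDerivAt (fun x : ℝ => (-(a * x * Complex.I) : ℂ)) (-(a * Complex.I)) x := by
    have h2 : HasDerivAt (fun x : ℝ => ((x : ℝ) : ℂ)) 1 x := Complex.ofRealCLM.hasDerivAt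
    have h3 : HasDerivAt (fun x : ℝ => (-(a * x * Complex.I) : ℂ)) (-(a * 1 * Complex.I)) x :=
      ((h2.const_mul (a : ℂ)).mul_const Complex.I).neg
    simpa using h3
  have h4 := h1.cexp
  convert h4 using 1
  ring

/-- the Fourier transform of the kernel -/
lemma gk_ft (κ : ℝ → ℂ) (hc : Continuous κ) (hi : Integrable κ) (h1 : ∫ y, κ y = 1) (C : ℝ) (hC0 : 0 ≤ C)
    (hC : ∀ x, ‖κ x‖ ≤ C / (1 + |x|) ^ 6) (η : ℝ) (hη : η ≠ 0)
    (hz : ∫ y : ℝ, κ y * Complex.exp (-(η * y * Complex.I)) = 0) :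
    ∫ x : ℝ, gk κ x * Complex.exp (-(η * x * Complex.I)) = 1 / (η * Complex.I) := by
  have hηc : (η : ℂ) ≠ 0 := by exact_mod_cast hη
  have hgi := int_mul_ex _ (gk_int κ hc hi h1 C hC0 hC) η
  have hκi := int_mul_ex _ hi η
  have hb : 0 ≤ C * Jc := mul_nonneg hC0 Jc_nonneg
  have hcoef : (-(η * Complex.I)) * (Complex.I / η) = 1 := by
    field_simp
    simp
  -- right half line
  have R : ∫ x in Ioi (0:ℝ), (gk κ x * Complex.exp (-(η * x * Complex.I)) -
      Complex.I / η * (κ x * Complex.exp (-(η * x * Complex.I)))) = 0 - (1 - Kp κ 0) * (Complex.I / η) := by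
    have hd : ∀ x ∈ Ioi (0:ℝ), HasDerivAt (fun x : ℝ => (1 - Kp κ x) * Complex.exp (-(η * x * Complex.I)) *
        (Complex.I / η)) (gk κ x * Complex.exp (-(η * x * Complex.I)) -
        Complex.I / η * (κ x * Complex.exp (-(η * x * Complex.I)))) x := by
      intro x hx
      have hx' : (0:ℝ) ≤ x := le_of_lt hx
      have h7 : HasDerivAt (fun x : ℝ => (1 - Kp κ x) * Complex.exp (-(η * x * Complex.I)) *
        (Complex.I / η)) _ x :=
        ((((Kp_deriv κ hc hi x).const_sub 1).mul (ex_deriv η x))).mul_const (Complex.I / η)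
      refine h7.congr_deriv ?_
      simp only [gk, hx', if_true]
      linear_combination ((1 - Kp κ x) * Complex.exp (-(η * x * Complex.I))) * hcoef
    have hcw : ContinuousWithinAt (fun x : ℝ => (1 - Kp κ x) * Complex.exp (-(η * x * Complex.I)) *
        (Complex.I / η)) (Ici 0) 0 := by
      apply Continuous.continuousWithinAt
      exact ((continuous_const.sub (Kp_cont κ hc hi)).mul (ex_cont η)).mul continuous_const
    have hlim : Tendsto (fun x : ℝ => (1 - Kp κ x) * Complex.exp (-(η * x * Complex.I)) *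
        (Complex.I / η)) atTop (𝓝 0) := by
      rw [tendsto_zero_iff_norm_tendsto_zero]
      have h5 : Tendsto (fun x : ℝ => C * Jc / (1 + |x|) ^ 4 * ‖Complex.I / (η : ℂ)‖) atTop (𝓝 0) := by
        have := (tends_bd (C * Jc)).mul_const ‖Complex.I / (η : ℂ)‖
        simpa using this
      refine squeeze_zero' (Eventually.of_forall (fun x => norm_nonneg _)) ?_ h5
      filter_upwards [eventually_ge_atTop (0:ℝ)] with x hx
      rw [norm_mul, norm_mul, ex_norm, mul_one]
      gcongr
      have := gk_bound κ hi h1 C hC0 hC x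
      simpa only [gk, hx, if_true] using this
    have := integral_Ioi_of_hasDerivAt_of_tendsto hcw hd
      ((hgi.sub (hκi.const_mul _)).integrableOn) hlim
    rw [this]
    simp
  have L : ∫ x in Iic (0:ℝ), ((-Kp κ x) * Complex.exp (-(η * x * Complex.I)) -
      Complex.I / η * (κ x * Complex.exp (-(η * x * Complex.I)))) = (-Kp κ 0) * (Complex.I / η) - 0 := by
    have hd : ∀ x ∈ Iio (0:ℝ), HasDerivAt (fun x : ℝ => (-Kp κ x) * Complex.exp (-(η * x * Complex.I)) *
        (Complex.I / η)) ((-Kp κ x) * Complex.exp (-(η * x * Complex.I)) -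
        Complex.I / η * (κ x * Complex.exp (-(η * x * Complex.I)))) x := by
      intro x hx
      have h7 : HasDerivAt (fun x : ℝ => (-Kp κ x) * Complex.exp (-(η * x * Complex.I)) *
        (Complex.I / η)) _ x :=
        ((((Kp_deriv κ hc hi x).neg).mul (ex_deriv η x))).mul_const (Complex.I / η)
      refine h7.congr_deriv ?_
      simp only [Pi.neg_apply]
      linear_combination ((-Kp κ x) * Complex.exp (-(η * x * Complex.I))) * hcoef
    have hcw : ContinuousWithinAt (fun x : ℝ => (-Kp κ x) * Complex.exp (-(η * x * Complex.I)) *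
        (Complex.I / η)) (Iic 0) 0 := by
      apply Continuous.continuousWithinAt
      exact (((Kp_cont κ hc hi).neg).mul (ex_cont η)).mul continuous_const
    have hlim : Tendsto (fun x : ℝ => (-Kp κ x) * Complex.exp (-(η * x * Complex.I)) *
        (Complex.I / η)) atBot (𝓝 0) := by
      rw [tendsto_zero_iff_norm_tendsto_zero]
      have h5 : Tendsto (fun x : ℝ => C * Jc / (1 + |x|) ^ 4 * ‖Complex.I / (η : ℂ)‖) atBot (𝓝 0) := by
        have := (tends_bd' (C * Jc)).mul_const ‖Complex.I / (η : ℂ)‖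
        simpa using this
      refine squeeze_zero' (Eventually.of_forall (fun x => norm_nonneg _)) ?_ h5
      filter_upwards [eventually_lt_atBot (0:ℝ)] with x hx
      rw [norm_mul, norm_mul, ex_norm, mul_one]
      gcongr
      have := gk_bound κ hi h1 C hC0 hC x
      simpa only [gk, not_le.2 hx, if_false] using this
    have hint : IntegrableOn (fun x : ℝ => (-Kp κ x) * Complex.exp (-(η * x * Complex.I)) -
        Complex.I / η * (κ x * Complex.exp (-(η * x * Complex.I)))) (Iic 0) := by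
      have h6 : IntegrableOn (fun x : ℝ => gk κ x * Complex.exp (-(η * x * Complex.I)) -
        Complex.I / η * (κ x * Complex.exp (-(η * x * Complex.I)))) (Iio 0) :=
        (hgi.sub (hκi.const_mul _)).integrableOn
      rw [integrableOn_Iic_iff_integrableOn_Iio]
      refine h6.congr_fun ?_ measurableSet_Iio
      intro x hx
      have hx' : ¬ (0:ℝ) ≤ x := not_le.2 hx
      simp only [gk, hx', if_false]
    have := integral_Iic_of_hasDerivAt_of_tendsto hcw hd hint hlim
    rw [this]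
    simp
  have L' : ∫ x in Iic (0:ℝ), (gk κ x * Complex.exp (-(η * x * Complex.I)) -
      Complex.I / η * (κ x * Complex.exp (-(η * x * Complex.I)))) = (-Kp κ 0) * (Complex.I / η) - 0 := by
    rw [← L, integral_Iic_eq_integral_Iio, integral_Iic_eq_integral_Iio]
    apply setIntegral_congr_fun measurableSet_Iio
    intro x hx
    have hx' : ¬ (0:ℝ) ≤ x := not_le.2 hx
    simp only [gk, hx', if_false]
  have T : ∫ x : ℝ, (gk κ x * Complex.exp (-(η * x * Complex.I)) -
      Complex.I / η * (κ x * Complex.exp (-(η * x * Complex.I)))) = - (Complex.I / η) := by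
    have hint : Integrable (fun x : ℝ => gk κ x * Complex.exp (-(η * x * Complex.I)) -
      Complex.I / η * (κ x * Complex.exp (-(η * x * Complex.I)))) := hgi.sub (hκi.const_mul _)
    rw [← integral_add_compl (measurableSet_Iic (a := (0:ℝ))) hint, compl_Iic, R, L']
    ring
  rw [integral_sub hgi (hκi.const_mul _), integral_const_mul, hz, mul_zero, sub_zero] at T
  rw [T]
  field_simp
  simp


/-! ### the function part -/

lemma gr_A_nonneg {F : ℝ → ℂ} {A : ℝ} (hF : Gr F A) : 0 ≤ A := by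
  have := hF.grow 0 le_rfl
  simpa using this

lemma gr_intOn {F : ℝ → ℂ} {A : ℝ} (hF : Gr F A) (a b : ℝ) : IntegrableOn F (Icc a b) := by
  obtain ⟨B, _, hB⟩ := hF.bdd b
  refine Measure.integrableOn_of_bounded (M := B) (by simp) hF.meas.aestronglyMeasurable ?_
  filter_upwards [ae_restrict_mem measurableSet_Icc] with x hx
  exact hB x hx.2

lemma gr_sqOn {F : ℝ → ℂ} {A : ℝ} (hF : Gr F A) (a b : ℝ) : IntegrableOn (fun w => ‖F w‖ ^ 2) (Icc a b) := by
  obtain ⟨B, hB0, hB⟩ := hF.bdd b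
  refine Measure.integrableOn_of_bounded (M := B ^ 2) (by simp) (hF.meas.norm.pow_const 2).aestronglyMeasurable ?_
  filter_upwards [ae_restrict_mem measurableSet_Icc] with x hx
  have := hB x hx.2
  rw [Real.norm_of_nonneg (by positivity)]
  gcongr

lemma gr_sqInt {F : ℝ → ℂ} {A : ℝ} (hF : Gr F A) (a b : ℝ) (hab : a ≤ b) :
    IntervalIntegrable (fun w => ‖F w‖ ^ 2) volume a b := by
  rw [intervalIntegrable_iff_integrableOn_Icc_of_le hab]
  exact (gr_sqOn hF) a b

/-- the weight -/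
def wt (F : ℝ → ℂ) (w : ℝ) : ℝ := ‖F w‖ / (1 + |w|) ^ 4

lemma wt_meas {F : ℝ → ℂ} (hF : Measurable F) : Measurable (wt F) := by
  unfold wt
  fun_prop

lemma wt_nonneg (F : ℝ → ℂ) (w : ℝ) : 0 ≤ wt F w := by
  unfold wt
  positivity

lemma wt_le (F : ℝ → ℂ) (w : ℝ) : wt F w ≤ ‖F w‖ := by
  unfold wt
  apply div_le_self (norm_nonneg _)
  apply one_le_pow₀
  linarith [abs_nonneg w]

lemma gr_wtInt {F : ℝ → ℂ} {A : ℝ} (hF : Gr F A) (a b : ℝ) (hab : a ≤ b) :
    IntervalIntegrable (wt F) volume a b := by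
  rw [intervalIntegrable_iff_integrableOn_Icc_of_le hab]
  refine Integrable.mono' ((gr_intOn hF) a b).norm (wt_meas hF.meas).aestronglyMeasurable ?_
  filter_upwards with x
  rw [Real.norm_of_nonneg (wt_nonneg F x)]
  exact wt_le F x

lemma gr_block {F : ℝ → ℂ} {A : ℝ} (hF : Gr F A) (j : ℕ) :
    ∫ w in (j:ℝ)..(j + 1 : ℕ), wt F w ≤ (1 + 2 * A) * (1 / ((j : ℝ) + 1) ^ 2) := by
  have hA := (gr_A_nonneg hF)
  have hj : (j:ℝ) ≤ ((j + 1 : ℕ) : ℝ) := by push_cast; linarith
  have h1 : ∫ w in (j:ℝ)..(j + 1 : ℕ), wt F w ≤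
      ∫ w in (j:ℝ)..(j + 1 : ℕ), (1 + ‖F w‖ ^ 2) * (1 / ((j : ℝ) + 1) ^ 4) := by
    apply intervalIntegral.integral_mono_on hj ((gr_wtInt hF) _ _ hj)
    · exact ((intervalIntegrable_const).add ((gr_sqInt hF) _ _ hj)).mul_const _
    · intro w hw
      unfold wt
      rw [mul_one_div]
      have hw0 : 0 ≤ w := le_trans (Nat.cast_nonneg j) hw.1
      apply div_le_div₀ (by positivity) (by nlinarith [sq_nonneg (‖F w‖ - 1), norm_nonneg (F w)]) (by positivity)
      rw [abs_of_nonneg hw0]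
      have h8 : (j:ℝ) + 1 ≤ 1 + w := by linarith [hw.1]
      exact pow_le_pow_left₀ (by positivity) h8 4
  refine h1.trans ?_
  rw [intervalIntegral.integral_mul_const, intervalIntegral.integral_add intervalIntegrable_const ((gr_sqInt hF) _ _ hj)]
  have h2 : ∫ w in (j:ℝ)..(j + 1 : ℕ), ‖F w‖ ^ 2 ≤ A * (((j + 1 : ℕ) : ℝ) + 1) := by
    refine le_trans ?_ (hF.grow ((j + 1 : ℕ) : ℝ) (by positivity))
    rw [← intervalIntegral.integral_add_adjacent_intervals ((gr_sqInt hF) 0 j (by positivity)) ((gr_sqInt hF) _ _ hj)]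
    have : 0 ≤ ∫ w in (0:ℝ)..j, ‖F w‖ ^ 2 :=
      intervalIntegral.integral_nonneg (by positivity) (fun w _ => by positivity)
    linarith
  have h3 : ∫ _ in (j:ℝ)..((j + 1 : ℕ) : ℝ), (1:ℝ) = 1 := by
    rw [intervalIntegral.integral_const]
    push_cast
    simp
  rw [h3]
  calc (1 + ∫ w in (j:ℝ)..(j + 1 : ℕ), ‖F w‖ ^ 2) * (1 / ((j : ℝ) + 1) ^ 4)
      ≤ (1 + A * (((j + 1 : ℕ) : ℝ) + 1)) * (1 / ((j : ℝ) + 1) ^ 4) := by gcongr
    _ ≤ ((1 + 2 * A) * ((j : ℝ) + 1) ^ 2) * (1 / ((j : ℝ) + 1) ^ 4) := by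
        gcongr
        push_cast
        have hj0 : (0:ℝ) ≤ j := Nat.cast_nonneg j
        nlinarith [mul_nonneg hA hj0, mul_nonneg hA (sq_nonneg (j:ℝ)), sq_nonneg (j:ℝ)]
    _ = (1 + 2 * A) * (1 / ((j : ℝ) + 1) ^ 2) := by
        field_simp

lemma gr_wtIntegrable {F : ℝ → ℂ} {A : ℝ} (hF : Gr F A) : Integrable (wt F) := by
  have hA := (gr_A_nonneg hF)
  have hs : Summable (fun j : ℕ => 1 / ((j : ℝ) + 1) ^ 2) := by
    have := (summable_nat_add_iff 1).2 (Real.summable_one_div_nat_pow.2 (by norm_num : 1 < 2))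
    simpa using this
  have h0 : ∀ n : ℕ, ∫ w in (0:ℝ)..n, wt F w ≤ (1 + 2 * A) * ∑ j ∈ Finset.range n, 1 / ((j : ℝ) + 1) ^ 2 := by
    intro n
    induction n with
    | zero => simp
    | succ n ih =>
      rw [← intervalIntegral.integral_add_adjacent_intervals ((gr_wtInt hF) 0 n (by positivity))
        ((gr_wtInt hF) n (n + 1 : ℕ) (by push_cast; linarith)), Finset.sum_range_succ, mul_add]
      exact add_le_add ih ((gr_block hF) n)
  have h1 : IntegrableOn (wt F) (Ioi 0) := by
    refine integrableOn_Ioi_of_intervalIntegral_norm_bounded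
      ((1 + 2 * A) * ∑' j : ℕ, 1 / ((j : ℝ) + 1) ^ 2) 0 (b := fun n : ℕ => (n:ℝ)) (l := atTop) ?_
      tendsto_natCast_atTop_atTop ?_
    · intro n
      have := (gr_wtInt hF) 0 n (by positivity)
      rwa [intervalIntegrable_iff_integrableOn_Ioc_of_le (by positivity)] at this
    · filter_upwards with n
      have e : ∫ w in (0:ℝ)..n, ‖wt F w‖ = ∫ w in (0:ℝ)..n, wt F w := by
        apply intervalIntegral.integral_congr
        intro w _
        exact Real.norm_of_nonneg (wt_nonneg F w)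
      rw [e]
      refine (h0 n).trans ?_
      gcongr
      exact hs.sum_le_tsum _ (fun j _ => by positivity)
  have h2 : IntegrableOn (wt F) (Iic 0) := by
    rw [integrableOn_Iic_iff_integrableOn_Iio]
    refine integrableOn_zero.congr_fun ?_ measurableSet_Iio
    intro w hw
    simp [wt, hF.neg w hw]
  have := h2.union h1
  rwa [Iic_union_Ioi, integrableOn_univ] at this

lemma one_add_abs (v w : ℝ) : 1 + |w| ≤ (1 + |v|) * (1 + |v - w|) := by
  have h1 : |w| ≤ |v| + |v - w| := by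
    have := abs_sub_abs_le_abs_sub w v
    rw [abs_sub_comm] at this
    linarith
  nlinarith [abs_nonneg v, abs_nonneg (v - w), mul_nonneg (abs_nonneg v) (abs_nonneg (v - w))]

/-- integrability of the convolution integrand -/
lemma intg (h F : ℝ → ℂ) (A : ℝ) (hm : Measurable h) (C : ℝ) (hC0 : 0 ≤ C)
    (hC : ∀ x, ‖h x‖ ≤ C / (1 + |x|) ^ 4) (hF : Gr F A) (v : ℝ) :
    Integrable (fun w : ℝ => h (v - w) * F w) := by
  refine Integrable.mono' ((gr_wtIntegrable hF).const_mul (C * (1 + |v|) ^ 4)) ?_ ?_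
  · exact ((hm.comp (measurable_const.sub measurable_id)).mul hF.meas).aestronglyMeasurable
  · filter_upwards with w
    rw [norm_mul]
    unfold wt
    have h1 := hC (v - w)
    have h2 := one_add_abs v w
    have h3 : (1 + |w|) ^ 4 ≤ (1 + |v|) ^ 4 * (1 + |v - w|) ^ 4 := by
      rw [← mul_pow]
      gcongr
    calc ‖h (v - w)‖ * ‖F w‖ ≤ C / (1 + |v - w|) ^ 4 * ‖F w‖ := by gcongr
      _ ≤ C * (1 + |v|) ^ 4 * (‖F w‖ / (1 + |w|) ^ 4) := by
        rw [div_mul_eq_mul_div, ← mul_div_assoc, div_le_div_iff₀ (by positivity) (by positivity)]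
        calc C * ‖F w‖ * (1 + |w|) ^ 4 ≤ C * ‖F w‖ * ((1 + |v|) ^ 4 * (1 + |v - w|) ^ 4) := by gcongr
          _ = C * (1 + |v|) ^ 4 * ‖F w‖ * (1 + |v - w|) ^ 4 := by ring

lemma bd64 (k : ℝ → ℂ) (C : ℝ) (hC0 : 0 ≤ C) (hC : ∀ x, ‖k x‖ ≤ C / (1 + |x|) ^ 6) (x : ℝ) :
    ‖k x‖ ≤ C / (1 + |x|) ^ 4 := by
  refine (hC x).trans ?_
  apply div_le_div_of_nonneg_left hC0 (by positivity)
  have : (1:ℝ) ≤ 1 + |x| := by linarith [abs_nonneg x]
  exact pow_le_pow_right₀ this (by norm_num)

lemma exp_wt (ε : ℝ) (hε : 0 < ε) (hε1 : ε < 1) (w : ℝ) (hw : 0 ≤ w) :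
    Real.exp (-(ε * w)) ≤ (4 / ε) ^ 4 / (1 + |w|) ^ 4 := by
  rw [abs_of_nonneg hw, le_div_iff₀ (by positivity)]
  have h1 : ε / 4 * (1 + w) ≤ Real.exp (ε * w / 4) := by
    have := Real.add_one_le_exp (ε * w / 4)
    nlinarith
  have h2 : (ε / 4 * (1 + w)) ^ 4 ≤ Real.exp (ε * w) := by
    calc (ε / 4 * (1 + w)) ^ 4 ≤ (Real.exp (ε * w / 4)) ^ 4 := by gcongr
      _ = Real.exp (ε * w) := by
        rw [← Real.exp_nat_mul]
        congr 1
        push_cast
        ring
  have h3 : (1 + w) ^ 4 ≤ (4 / ε) ^ 4 * Real.exp (ε * w) := by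
    calc (1 + w) ^ 4 = (4 / ε) ^ 4 * (ε / 4 * (1 + w)) ^ 4 := by
          rw [← mul_pow]
          congr 1
          field_simp
      _ ≤ _ := by gcongr
  calc Real.exp (-(ε * w)) * (1 + w) ^ 4 ≤ Real.exp (-(ε * w)) * ((4 / ε) ^ 4 * Real.exp (ε * w)) := by gcongr
    _ = (4 / ε) ^ 4 * (Real.exp (-(ε * w)) * Real.exp (ε * w)) := by ring
    _ = (4 / ε) ^ 4 := by
      rw [← Real.exp_add]
      simp

/-- the damped function -/
def dmp (F : ℝ → ℂ) (ε w : ℝ) : ℂ := F w * ((Real.exp (-(ε * w)) : ℝ) : ℂ)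

lemma dmp_int {F : ℝ → ℂ} {A : ℝ} (hF : Gr F A) (ε : ℝ) (hε : 0 < ε) (hε1 : ε < 1) : Integrable (dmp F ε) := by
  refine Integrable.mono' ((gr_wtIntegrable hF).const_mul ((4 / ε) ^ 4)) ?_ ?_
  · unfold dmp
    apply Measurable.aestronglyMeasurable
    apply hF.meas.mul
    fun_prop
  · filter_upwards with w
    by_cases hw : w < 0
    · simp [dmp, wt, hF.neg w hw]
    · unfold dmp wt
      rw [norm_mul, Complex.norm_real, Real.norm_of_nonneg (Real.exp_pos _).le]
      calc ‖F w‖ * Real.exp (-(ε * w)) ≤ ‖F w‖ * ((4 / ε) ^ 4 / (1 + |w|) ^ 4) := by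
            gcongr
            exact exp_wt ε hε hε1 w (not_lt.1 hw)
        _ = _ := by ring

/-- the Laplace transform as an integral over the line -/
lemma lap_eq {F : ℝ → ℂ} {A : ℝ} (hF : Gr F A) (ε ξ : ℝ) :
    ∫ v in Ioi (0:ℝ), F v * Complex.exp (-((ε + ξ * Complex.I) * v)) =
      ∫ v : ℝ, dmp F ε v * Complex.exp (-(ξ * v * Complex.I)) := by
  have h1 : ∀ v : ℝ, F v * Complex.exp (-((ε + ξ * Complex.I) * v)) =
      dmp F ε v * Complex.exp (-(ξ * v * Complex.I)) := by
    intro v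
    unfold dmp
    rw [mul_assoc]
    congr 1
    rw [Complex.ofReal_exp, ← Complex.exp_add]
    congr 1
    push_cast
    ring
  simp only [h1]
  rw [← integral_Ici_eq_integral_Ioi]
  apply setIntegral_eq_integral_of_forall_compl_eq_zero
  intro v hv
  have : v < 0 := not_le.1 hv
  simp [dmp, hF.neg v this]


lemma bump (τ δ : ℝ) (hδ : 0 < δ) : ∃ B : ℝ → ℂ, HasCompactSupport B ∧
    ContDiff ℝ ((⊤ : ℕ∞) : WithTop ℕ∞) B ∧ B (τ / (2 * Real.pi)) = 1 ∧
    ∀ t, δ / 2 ≤ |2 * Real.pi * t - τ| → B t = 0 := by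
  have hpi := Real.pi_pos
  let b : ContDiffBump (τ / (2 * Real.pi)) :=
    { rIn := δ / (8 * Real.pi), rOut := δ / (4 * Real.pi), rIn_pos := by positivity,
      rIn_lt_rOut := by
        apply div_lt_div_of_pos_left hδ (by positivity)
        linarith }
  refine ⟨fun t => ((b t : ℝ) : ℂ), ?_, ?_, ?_, ?_⟩
  · exact b.hasCompactSupport.comp_left (g := fun x : ℝ => (x : ℂ)) Complex.ofReal_zero
  · exact Complex.ofRealCLM.contDiff.comp b.contDiff
  · have : b (τ / (2 * Real.pi)) = 1 := b.one_of_mem_closedBall (Metric.mem_closedBall_self b.rIn_pos.le)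
    simp [this]
  · intro t ht
    have h1 : b.rOut ≤ dist t (τ / (2 * Real.pi)) := by
      rw [Real.dist_eq]
      have h2 : |2 * Real.pi * t - τ| = 2 * Real.pi * |t - τ / (2 * Real.pi)| := by
        rw [← abs_of_pos (by positivity : 0 < 2 * Real.pi), ← abs_mul, abs_of_pos (by positivity : 0 < 2 * Real.pi)]
        congr 1
        field_simp
      rw [h2] at ht
      change δ / (4 * Real.pi) ≤ _
      rw [div_le_iff₀ (by positivity)]
      nlinarith
    have := b.zero_of_le_dist h1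
    simp [this]

lemma Q_smooth (τ δ : ℝ) (hδ : 0 < δ) (B : ℝ → ℂ) (hB2 : ContDiff ℝ ((⊤ : ℕ∞) : WithTop ℕ∞) B)
    (hB : ∀ t, δ / 2 ≤ |2 * Real.pi * t - τ| → B t = 0) (Φ : ℝ → ℂ)
    (hΦ : ContDiffOn ℝ ((⊤ : ℕ∞) : WithTop ℕ∞) Φ (Ioo (τ - δ) (τ + δ))) :
    ContDiff ℝ ((⊤ : ℕ∞) : WithTop ℕ∞) (fun t => B t * Φ (2 * Real.pi * t)) := by
  rw [contDiff_iff_contDiffAt]
  intro t
  by_cases ht : |2 * Real.pi * t - τ| < δ
  · have h1 : 2 * Real.pi * t ∈ Ioo (τ - δ) (τ + δ) := by
      rw [abs_lt] at ht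
      constructor <;> linarith [ht.1, ht.2]
    have h2 : ContDiffAt ℝ ((⊤ : ℕ∞) : WithTop ℕ∞) Φ (2 * Real.pi * t) :=
      hΦ.contDiffAt (Ioo_mem_nhds h1.1 h1.2)
    have h3 : ContDiffAt ℝ ((⊤ : ℕ∞) : WithTop ℕ∞) (fun t : ℝ => 2 * Real.pi * t) t := by fun_prop
    exact hB2.contDiffAt.mul (ContDiffAt.comp t h2 h3)
  · have h4 : ∀ᶠ s in 𝓝 t, δ / 2 < |2 * Real.pi * s - τ| := by
      have hc : ContinuousAt (fun s : ℝ => |2 * Real.pi * s - τ|) t := by fun_prop
      exact hc.eventually (lt_mem_nhds (by linarith [not_lt.1 ht]))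
    have h5 : (fun t => B t * Φ (2 * Real.pi * t)) =ᶠ[𝓝 t] fun _ => 0 := by
      filter_upwards [h4] with s hs
      rw [hB s hs.le, zero_mul]
    exact contDiffAt_const.congr_of_eventuallyEq h5

/-- the convolution with the band limited function, damped -/
lemma damped (B : ℝ → ℂ) (hB1 : HasCompactSupport B) (hBc : Continuous B) (k : ℝ → ℂ)
    (hk : ∀ x : ℝ, k x = ∫ t : ℝ, B t * Complex.exp (2 * Real.pi * t * x * Complex.I))
    (F : ℝ → ℂ) (A : ℝ) (hF : Gr F A) (ε : ℝ) (hε : 0 < ε) (hε1 : ε < 1) (x : ℝ) :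
    ∫ w : ℝ, k (x - w) * dmp F ε w = ∫ t : ℝ, B t * Complex.exp (2 * Real.pi * t * x * Complex.I) *
      ∫ v in Ioi (0:ℝ), F v * Complex.exp (-((ε + (2 * Real.pi * t : ℝ) * Complex.I) * v)) := by
  have hBi : Integrable B := hBc.integrable_of_hasCompactSupport hB1
  have hdm : Measurable (dmp F ε) := by
    unfold dmp
    apply hF.meas.mul
    fun_prop
  have e1 : ∀ w : ℝ, k (x - w) * dmp F ε w =
      ∫ t : ℝ, B t * Complex.exp (2 * Real.pi * t * x * Complex.I) *
        (dmp F ε w * Complex.exp (-((2 * Real.pi * t : ℝ) * w * Complex.I))) := by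
    intro w
    rw [hk, ← integral_mul_const]
    apply integral_congr_ae
    filter_upwards with t
    have : Complex.exp (2 * Real.pi * t * ((x - w : ℝ) : ℂ) * Complex.I) =
        Complex.exp (2 * Real.pi * t * x * Complex.I) *
          Complex.exp (-((2 * Real.pi * t : ℝ) * w * Complex.I)) := by
      rw [← Complex.exp_add]
      congr 1
      push_cast
      ring
    rw [this]
    ring
  simp only [e1]
  rw [integral_integral_swap]
  · apply integral_congr_ae
    filter_upwards with t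
    rw [integral_const_mul, lap_eq hF]
  · refine Integrable.mono' ((dmp_int hF ε hε hε1).norm.mul_prod hBi.norm) ?_ ?_
    · apply Measurable.aestronglyMeasurable
      apply Measurable.mul
      · apply Measurable.mul
        · exact hBc.measurable.comp measurable_snd
        · apply Continuous.measurable
          fun_prop
      · apply Measurable.mul
        · exact hdm.comp measurable_fst
        · apply Continuous.measurable
          fun_prop
    · filter_upwards with z
      simp only [Function.uncurry]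
      rw [norm_mul, norm_mul, norm_mul, ex_norm, mul_one]
      have : ‖Complex.exp (2 * Real.pi * z.2 * x * Complex.I)‖ = 1 := by
        have := ex_norm' (2 * Real.pi * z.2) x
        push_cast at this
        exact this
      rw [this, mul_one, mul_comm]

lemma p_eq (τ δ : ℝ) (hδ : 0 < δ) (B : ℝ → ℂ) (hB1 : HasCompactSupport B) (hBc : Continuous B)
    (hB : ∀ t, δ / 2 ≤ |2 * Real.pi * t - τ| → B t = 0) (k : ℝ → ℂ) (hkc : Continuous k)
    (C : ℝ) (hC0 : 0 ≤ C) (hC : ∀ x, ‖k x‖ ≤ C / (1 + |x|) ^ 6)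
    (hk : ∀ x : ℝ, k x = ∫ t : ℝ, B t * Complex.exp (2 * Real.pi * t * x * Complex.I))
    (F : ℝ → ℂ) (A : ℝ) (hF : Gr F A) (Φ : ℝ → ℂ)
    (h1 : ∀ ξ ∈ Ioo (τ - δ) (τ + δ), Tendsto (fun ε : ℝ =>
      ∫ v in Ioi (0:ℝ), F v * Complex.exp (-((ε + ξ * Complex.I) * v))) (𝓝[>] 0) (𝓝 (Φ ξ)))
    (Bd : ℝ) (h2 : ∀ ε : ℝ, 0 < ε → ε < 1 → ∀ ξ ∈ Ioo (τ - δ) (τ + δ),
      ‖∫ v in Ioi (0:ℝ), F v * Complex.exp (-((ε + ξ * Complex.I) * v))‖ ≤ Bd) (x : ℝ) :
    ∫ w : ℝ, k (x - w) * F w =
      ∫ t : ℝ, (B t * Φ (2 * Real.pi * t)) * Complex.exp (2 * Real.pi * t * x * Complex.I) := by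
  have hev : ∀ᶠ ε : ℝ in 𝓝[>] (0:ℝ), ε ∈ Ioo (0:ℝ) 1 := Ioo_mem_nhdsGT (by norm_num)
  have hint := intg k F A hkc.measurable C hC0 (bd64 k C hC0 hC) hF x
  have hBi : Integrable B := hBc.integrable_of_hasCompactSupport hB1
  have T1 : Tendsto (fun ε : ℝ => ∫ w : ℝ, k (x - w) * dmp F ε w) (𝓝[>] 0) (𝓝 (∫ w : ℝ, k (x - w) * F w)) := by
    refine tendsto_integral_filter_of_dominated_convergence (fun w => ‖k (x - w) * F w‖) ?_ ?_ hint.norm ?_
    · filter_upwards with ε
      apply Measurable.aestronglyMeasurable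
      apply (hkc.measurable.comp (measurable_const.sub measurable_id)).mul
      unfold dmp
      apply hF.meas.mul
      fun_prop
    · filter_upwards [hev] with ε hε
      filter_upwards with w
      by_cases hw : w < 0
      · simp [dmp, hF.neg w hw]
      · unfold dmp
        rw [norm_mul, norm_mul, norm_mul, Complex.norm_real, Real.norm_of_nonneg (Real.exp_pos _).le]
        have h3 : Real.exp (-(ε * w)) ≤ 1 := by
          rw [Real.exp_le_one_iff]
          have := mul_nonneg hε.1.le (not_lt.1 hw)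
          linarith
        calc ‖k (x - w)‖ * (‖F w‖ * Real.exp (-(ε * w))) ≤ ‖k (x - w)‖ * (‖F w‖ * 1) := by gcongr
          _ = _ := by ring
    · filter_upwards with w
      unfold dmp
      have h3 : Tendsto (fun ε : ℝ => k (x - w) * (F w * ((Real.exp (-(ε * w)) : ℝ) : ℂ))) (𝓝 0)
          (𝓝 (k (x - w) * (F w * ((Real.exp (-(0 * w)) : ℝ) : ℂ)))) := by
        apply Continuous.tendsto
        fun_prop
      have h4 : k (x - w) * (F w * ((Real.exp (-(0 * w)) : ℝ) : ℂ)) = k (x - w) * F w := by simp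
      rw [h4] at h3
      exact h3.mono_left nhdsWithin_le_nhds
  have T2 : Tendsto (fun ε : ℝ => ∫ t : ℝ, B t * Complex.exp (2 * Real.pi * t * x * Complex.I) *
      ∫ v in Ioi (0:ℝ), F v * Complex.exp (-((ε + (2 * Real.pi * t : ℝ) * Complex.I) * v))) (𝓝[>] 0)
      (𝓝 (∫ t : ℝ, (B t * Φ (2 * Real.pi * t)) * Complex.exp (2 * Real.pi * t * x * Complex.I))) := by
    refine tendsto_integral_filter_of_dominated_convergence (fun t => ‖B t‖ * Bd) ?_ ?_ (hBi.norm.mul_const Bd) ?_
    · filter_upwards [hev] with ε hε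
      have e2 : (fun t : ℝ => B t * Complex.exp (2 * Real.pi * t * x * Complex.I) *
          ∫ v in Ioi (0:ℝ), F v * Complex.exp (-((ε + (2 * Real.pi * t : ℝ) * Complex.I) * v))) =
          fun t : ℝ => B t * Complex.exp (2 * Real.pi * t * x * Complex.I) *
            ∫ v : ℝ, dmp F ε v * Complex.exp (-((2 * Real.pi * t : ℝ) * v * Complex.I)) := by
        funext t
        rw [lap_eq hF]
      rw [e2]
      apply AEStronglyMeasurable.mul
      · apply Continuous.aestronglyMeasurable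
        fun_prop
      · have hdm : Measurable (dmp F ε) := by
          unfold dmp
          apply hF.meas.mul
          fun_prop
        have h5 : Measurable (Function.uncurry (fun t v : ℝ =>
            dmp F ε v * Complex.exp (-((2 * Real.pi * t : ℝ) * v * Complex.I)))) := by
          apply Measurable.mul
          · exact hdm.comp measurable_snd
          · apply Continuous.measurable
            fun_prop
        exact (h5.stronglyMeasurable.integral_prod_right).aestronglyMeasurable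
    · filter_upwards [hev] with ε hε
      filter_upwards with t
      by_cases ht : δ / 2 ≤ |2 * Real.pi * t - τ|
      · rw [hB t ht]
        simp
      · have h6 : 2 * Real.pi * t ∈ Ioo (τ - δ) (τ + δ) := by
          have := abs_lt.1 (not_le.1 ht)
          constructor <;> linarith [this.1, this.2]
        have h7 : ‖Complex.exp (2 * Real.pi * t * x * Complex.I)‖ = 1 := by
          have := ex_norm' (2 * Real.pi * t) x
          push_cast at this
          exact this
        rw [norm_mul, norm_mul, h7, mul_one]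
        gcongr
        exact h2 ε hε.1 hε.2 _ h6
    · filter_upwards with t
      by_cases ht : δ / 2 ≤ |2 * Real.pi * t - τ|
      · rw [hB t ht]
        simp
      · have h6 : 2 * Real.pi * t ∈ Ioo (τ - δ) (τ + δ) := by
          have := abs_lt.1 (not_le.1 ht)
          constructor <;> linarith [this.1, this.2]
        have h8 := (h1 _ h6).const_mul (B t * Complex.exp (2 * Real.pi * t * x * Complex.I))
        convert h8 using 2
        ring
  refine tendsto_nhds_unique T1 (T2.congr' ?_)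
  filter_upwards [hev] with ε hε
  exact (damped B hB1 hBc k hk F A hF ε hε.1 hε.2 x).symm

lemma far (v x w : ℝ) (hv : 0 ≤ v) (hx : x ≤ v) (hw : 0 ≤ w) :
    (1 + |v - x|) ^ 2 * (1 + |w|) ^ 4 ≤ (1 + v) ^ 6 * (1 + |x - w|) ^ 6 := by
  rw [abs_of_nonneg (by linarith : 0 ≤ v - x), abs_of_nonneg hw]
  have h1 : 1 + (v - x) + w ≤ (1 + v) * (1 + |x - w|) := by
    have h2 : w - x ≤ |x - w| := by rw [abs_sub_comm]; exact le_abs_self _
    nlinarith [abs_nonneg (x - w), mul_nonneg hv (abs_nonneg (x - w))]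
  have h3 : (1 + (v - x)) ^ 2 * (1 + w) ^ 4 ≤ (1 + (v - x) + w) ^ 6 := by
    calc (1 + (v - x)) ^ 2 * (1 + w) ^ 4 ≤ (1 + (v - x) + w) ^ 2 * (1 + (v - x) + w) ^ 4 :=
          mul_le_mul (pow_le_pow_left₀ (by linarith) (by linarith) 2)
            (pow_le_pow_left₀ (by linarith) (by linarith) 4) (by positivity) (by positivity)
      _ = _ := by ring
  refine h3.trans ?_
  rw [← mul_pow]
  have : 0 ≤ 1 + (v - x) + w := by linarith
  gcongr

lemma J_eq (τ : ℝ) (k : ℝ → ℂ) (hkc : Continuous k) (C : ℝ) (hC0 : 0 ≤ C)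
    (hC : ∀ x, ‖k x‖ ≤ C / (1 + |x|) ^ 6) (F : ℝ → ℂ) (A : ℝ) (hF : Gr F A) (v : ℝ) (hv : 0 ≤ v) :
    ∫ w : ℝ, Complex.exp (-(τ * w * Complex.I)) *
      Kp (fun y => k y * Complex.exp (-(τ * y * Complex.I))) (v - w) * F w =
    ∫ x in Iic v, (∫ w : ℝ, k (x - w) * F w) * Complex.exp (-(τ * x * Complex.I)) := by
  set f : ℝ → ℝ → ℂ := fun w x =>
    (Iic v).indicator (fun x => Complex.exp (-(τ * x * Complex.I)) * (k (x - w) * F w)) x with hf
  have e1 : ∀ w : ℝ, Complex.exp (-(τ * w * Complex.I)) *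
      Kp (fun y => k y * Complex.exp (-(τ * y * Complex.I))) (v - w) * F w = ∫ x : ℝ, f w x := by
    intro w
    have e2 : Kp (fun y => k y * Complex.exp (-(τ * y * Complex.I))) (v - w) =
        ∫ x : ℝ, (Iic v).indicator (fun x => k (x - w) * Complex.exp (-(τ * (x - w : ℝ) * Complex.I))) x := by
      unfold Kp
      rw [← integral_indicator measurableSet_Iic, ← integral_sub_right_eq_self _ w]
      apply integral_congr_ae
      filter_upwards with x
      by_cases hx : x ≤ v
      · rw [indicator_of_mem (by simpa using hx), indicator_of_mem (by simpa using hx)]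
      · rw [indicator_of_notMem (by simpa using hx), indicator_of_notMem (by simpa using hx)]
    rw [e2, ← integral_const_mul, ← integral_mul_const]
    apply integral_congr_ae
    filter_upwards with x
    simp only [hf]
    by_cases hx : x ≤ v
    · rw [indicator_of_mem (by simpa using hx), indicator_of_mem (by simpa using hx)]
      have : Complex.exp (-(τ * x * Complex.I)) =
          Complex.exp (-(τ * w * Complex.I)) * Complex.exp (-(τ * (x - w : ℝ) * Complex.I)) := by
        rw [← Complex.exp_add]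
        congr 1
        push_cast
        ring
      rw [this]
      ring
    · rw [indicator_of_notMem (by simpa using hx), indicator_of_notMem (by simpa using hx)]
      simp
  simp only [e1]
  rw [integral_integral_swap]
  · rw [← integral_indicator measurableSet_Iic]
    apply integral_congr_ae
    filter_upwards with x
    simp only [hf]
    by_cases hx : x ≤ v
    · simp only [indicator_of_mem (show x ∈ Iic v from hx)]
      rw [integral_const_mul, mul_comm]
    · simp only [indicator_of_notMem (show x ∉ Iic v from hx)]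
      simp
  · have hg : Integrable (fun x : ℝ => 1 / (1 + |v - x|) ^ 2) := by
      have := int_w2.comp_sub_left v
      exact this
    refine Integrable.mono' (((gr_wtIntegrable hF).mul_prod hg).const_mul (C * (1 + v) ^ 6)) ?_ ?_
    · apply Measurable.aestronglyMeasurable
      have h5 : Function.uncurry f = fun z : ℝ × ℝ => (Prod.snd ⁻¹' (Iic v)).indicator
          (fun z : ℝ × ℝ => Complex.exp (-(τ * z.2 * Complex.I)) * (k (z.2 - z.1) * F z.1)) z := by
        funext z
        simp only [Function.uncurry, hf]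
        rfl
      rw [h5]
      apply Measurable.indicator _ (measurable_snd measurableSet_Iic)
      apply Measurable.mul
      · apply Continuous.measurable
        fun_prop
      · exact (hkc.measurable.comp (measurable_snd.sub measurable_fst)).mul (hF.meas.comp measurable_fst)
    · filter_upwards with z
      obtain ⟨w, x⟩ := z
      simp only [Function.uncurry, hf]
      by_cases hx : x ≤ v
      · rw [indicator_of_mem (by simpa using hx)]
        by_cases hw : w < 0
        · simp [wt, hF.neg w hw]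
        · rw [norm_mul, ex_norm, one_mul, norm_mul]
          unfold wt
          have h6 := far v x w hv hx (not_lt.1 hw)
          calc ‖k (x - w)‖ * ‖F w‖ ≤ C / (1 + |x - w|) ^ 6 * ‖F w‖ := by
                gcongr
                exact hC _
            _ ≤ C * (1 + v) ^ 6 * (‖F w‖ / (1 + |w|) ^ 4 * (1 / (1 + |v - x|) ^ 2)) := by
                rw [div_mul_div_comm, mul_one, div_mul_eq_mul_div, ← mul_div_assoc,
                  div_le_div_iff₀ (by positivity) (by positivity)]
                calc C * ‖F w‖ * ((1 + |w|) ^ 4 * (1 + |v - x|) ^ 2)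
                    = C * ‖F w‖ * ((1 + |v - x|) ^ 2 * (1 + |w|) ^ 4) := by ring
                  _ ≤ C * ‖F w‖ * ((1 + v) ^ 6 * (1 + |x - w|) ^ 6) := by gcongr
                  _ = _ := by ring
      · rw [indicator_of_notMem (by simpa using hx), norm_zero]
        have := wt_nonneg F w
        positivity


/-- the limit of `J` -/
lemma J_lim (τ δ : ℝ) (hδ : 0 < δ) (B : ℝ → ℂ) (hB1 : HasCompactSupport B)
    (hB2 : ContDiff ℝ ((⊤ : ℕ∞) : WithTop ℕ∞) B) (hB3 : B (τ / (2 * Real.pi)) = 1)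
    (hB : ∀ t, δ / 2 ≤ |2 * Real.pi * t - τ| → B t = 0) (k : ℝ → ℂ) (hkc : Continuous k)
    (C : ℝ) (hC0 : 0 ≤ C) (hC : ∀ x, ‖k x‖ ≤ C / (1 + |x|) ^ 6)
    (hk : ∀ x : ℝ, k x = ∫ t : ℝ, B t * Complex.exp (2 * Real.pi * t * x * Complex.I))
    (F : ℝ → ℂ) (A : ℝ) (hF : Gr F A) (Φ : ℝ → ℂ)
    (hΦ : ContDiffOn ℝ ((⊤ : ℕ∞) : WithTop ℕ∞) Φ (Ioo (τ - δ) (τ + δ)))
    (h1 : ∀ ξ ∈ Ioo (τ - δ) (τ + δ), Tendsto (fun ε : ℝ =>
      ∫ v in Ioi (0:ℝ), F v * Complex.exp (-((ε + ξ * Complex.I) * v))) (𝓝[>] 0) (𝓝 (Φ ξ)))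
    (Bd : ℝ) (h2 : ∀ ε : ℝ, 0 < ε → ε < 1 → ∀ ξ ∈ Ioo (τ - δ) (τ + δ),
      ‖∫ v in Ioi (0:ℝ), F v * Complex.exp (-((ε + ξ * Complex.I) * v))‖ ≤ Bd) :
    Tendsto (fun v : ℝ => ∫ w : ℝ, Complex.exp (-(τ * w * Complex.I)) *
      Kp (fun y => k y * Complex.exp (-(τ * y * Complex.I))) (v - w) * F w) atTop (𝓝 (Φ τ)) := by
  have hpi := Real.pi_pos
  have hQs := Q_smooth τ δ hδ B hB2 hB Φ hΦ
  have hQc : HasCompactSupport (fun t => B t * Φ (2 * Real.pi * t)) := hB1.mul_right
  obtain ⟨p, hpc, hpi', _, hp1, hp2⟩ := band _ hQc hQs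
  have hpe : ∀ x : ℝ, ∫ w : ℝ, k (x - w) * F w = p x := by
    intro x
    rw [hp1, p_eq τ δ hδ B hB1 hB2.continuous hB k hkc C hC0 hC hk F A hF Φ h1 Bd h2 x]
  have hcast : ∀ x : ℝ, Complex.exp (-(2 * Real.pi * ((τ / (2 * Real.pi) : ℝ) : ℂ) * x * Complex.I)) =
      Complex.exp (-(τ * x * Complex.I)) := by
    intro x
    congr 3
    push_cast
    have : (Real.pi : ℂ) ≠ 0 := by exact_mod_cast hpi.ne'
    field_simp
  have e3 : ∫ x : ℝ, p x * Complex.exp (-(τ * x * Complex.I)) = Φ τ := by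
    have h3 := hp2 (τ / (2 * Real.pi))
    simp only [hcast] at h3
    rw [h3, hB3, one_mul]
    congr 1
    field_simp
  have hi := int_mul_ex p hpi' τ
  have h4 : Tendsto (fun v : ℝ => ∫ x in Iic v, p x * Complex.exp (-(τ * x * Complex.I))) atTop (𝓝 (Φ τ)) := by
    rw [← e3]
    exact (aecover_Iic tendsto_id).integral_tendsto_of_countably_generated hi
  refine h4.congr' ?_
  filter_upwards [eventually_ge_atTop (0:ℝ)] with v hv
  rw [J_eq τ k hkc C hC0 hC F A hF v hv]
  simp only [hpe]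

/-- the cut off part -/
lemma cut_int {F : ℝ → ℂ} {A : ℝ} (hF : Gr F A) (τ v : ℝ) :
    Integrable ((Iic v).indicator (fun w : ℝ => Complex.exp (τ * (v - w : ℝ) * Complex.I) * F w)) := by
  rw [integrable_indicator_iff measurableSet_Iic]
  have h1 : IntegrableOn F (Iic v) := by
    have h2 : IntegrableOn F (Iio 0) := by
      refine integrableOn_zero.congr_fun ?_ measurableSet_Iio
      intro w hw
      exact (hF.neg w hw).symm
    refine (h2.union (gr_intOn hF 0 v)).mono_set ?_
    intro w hw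
    by_cases h : w < 0
    · exact Or.inl h
    · exact Or.inr ⟨not_lt.1 h, hw⟩
  refine Integrable.mono h1 ?_ ?_
  · apply Measurable.aestronglyMeasurable
    apply Measurable.mul _ hF.meas
    apply Continuous.measurable
    fun_prop
  · filter_upwards with w
    rw [norm_mul, ex_norm', one_mul]

lemma cut_eq {F : ℝ → ℂ} {A : ℝ} (hF : Gr F A) (τ v : ℝ) (hv : 0 ≤ v) :
    ∫ w : ℝ, (Iic v).indicator (fun w : ℝ => Complex.exp (τ * (v - w : ℝ) * Complex.I) * F w) w =
      Complex.exp (τ * v * Complex.I) * ∫ w in (0:ℝ)..v, Complex.exp (-(τ * w * Complex.I)) * F w := by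
  have hi := cut_int hF τ v
  rw [integrable_indicator_iff measurableSet_Iic] at hi
  rw [integral_indicator measurableSet_Iic, ← Iic_union_Ioc_eq_Iic hv,
    setIntegral_union (Iic_disjoint_Ioc le_rfl) measurableSet_Ioc
      (hi.mono_set (Iic_subset_Iic.2 hv)) (hi.mono_set Ioc_subset_Iic_self)]
  have h1 : ∫ w in Iic (0:ℝ), Complex.exp (τ * (v - w : ℝ) * Complex.I) * F w = 0 := by
    rw [integral_Iic_eq_integral_Iio]
    rw [setIntegral_congr_fun (g := fun _ => (0:ℂ)) measurableSet_Iio]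
    · simp
    · intro w hw
      simp only [hF.neg w hw, mul_zero]
  rw [h1, zero_add, intervalIntegral.integral_of_le hv, ← integral_const_mul]
  apply setIntegral_congr_fun measurableSet_Ioc
  intro w _
  have : Complex.exp (τ * (v - w : ℝ) * Complex.I) =
      Complex.exp (τ * v * Complex.I) * Complex.exp (-(τ * w * Complex.I)) := by
    rw [← Complex.exp_add]
    congr 1
    push_cast
    ring
  simp only [this]
  ring

end CRITaux

open CRITaux

/-- package CRIT -/
theorem crit : S_CRIT := by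
  intro τ δ hδ
  have hpi := Real.pi_pos
  obtain ⟨B, hB1, hB2, hB3, hB⟩ := bump τ δ hδ
  obtain ⟨k, hkc, hki, ⟨C, hC0, hC⟩, hk1, hk2⟩ := band B hB1 hB2
  set κ : ℝ → ℂ := fun y => k y * Complex.exp (-(τ * y * Complex.I)) with hκ
  have hκc : Continuous κ := hkc.mul (ex_cont τ)
  have hκi : Integrable κ := int_mul_ex k hki τ
  have hκC : ∀ x, ‖κ x‖ ≤ C / (1 + |x|) ^ 6 := by
    intro x
    simp only [hκ, norm_mul, ex_norm, mul_one]
    exact hC x
  have hcast : ∀ γ x : ℝ, Complex.exp (-(2 * Real.pi * ((γ / (2 * Real.pi) : ℝ) : ℂ) * x * Complex.I)) =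
      Complex.exp (-(γ * x * Complex.I)) := by
    intro γ x
    congr 3
    push_cast
    have : (Real.pi : ℂ) ≠ 0 := by exact_mod_cast hpi.ne'
    field_simp
  have hft : ∀ γ : ℝ, ∫ x : ℝ, k x * Complex.exp (-(γ * x * Complex.I)) = B (γ / (2 * Real.pi)) := by
    intro γ
    rw [← hk2 (γ / (2 * Real.pi))]
    simp only [hcast]
  have hone : ∫ y, κ y = 1 := by
    rw [← hB3, ← hft τ]
  have hmul : ∀ a b x : ℝ, Complex.exp (a * x * Complex.I) * Complex.exp (-(b * x * Complex.I)) =
      Complex.exp (-((b - a : ℝ) * x * Complex.I)) := by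
    intro a b x
    rw [← Complex.exp_add]
    congr 1
    push_cast
    ring
  have hgm := gk_meas κ hκc hκi
  have hgb := gk_bound κ hκi hone C hC0 hκC
  have hD0 : 0 ≤ C * Jc := mul_nonneg hC0 Jc_nonneg
  have hhm : Measurable (fun x : ℝ => Complex.exp (τ * x * Complex.I) * gk κ x) := by
    apply Measurable.mul _ hgm
    apply Continuous.measurable
    fun_prop
  have hhb : ∀ x : ℝ, ‖Complex.exp (τ * x * Complex.I) * gk κ x‖ ≤ C * Jc / (1 + |x|) ^ 4 := by
    intro x
    rw [norm_mul, ex_norm', one_mul]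
    exact hgb x
  refine ⟨fun x => Complex.exp (τ * x * Complex.I) * gk κ x, ⟨hhm, C * Jc, hhb⟩, ?_, ?_⟩
  · intro γ hγ
    have hne : γ - τ ≠ 0 := by
      intro h
      rw [h, abs_zero] at hγ
      linarith
    unfold ft
    have e1 : ∀ x : ℝ, Complex.exp (τ * x * Complex.I) * gk κ x * Complex.exp (-(γ * x * Complex.I)) =
        gk κ x * Complex.exp (-((γ - τ : ℝ) * x * Complex.I)) := by
      intro x
      rw [← hmul τ γ x]
      ring
    simp only [e1]
    rw [gk_ft κ hκc hκi hone C hC0 hκC (γ - τ) hne]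
    · push_cast
      rfl
    · have e2 : ∀ y : ℝ, κ y * Complex.exp (-((γ - τ : ℝ) * y * Complex.I)) =
          k y * Complex.exp (-(γ * y * Complex.I)) := by
        intro y
        simp only [hκ]
        rw [mul_assoc, ← Complex.exp_add]
        congr 2
        push_cast
        ring
      simp only [e2]
      rw [hft]
      apply hB
      have : 2 * Real.pi * (γ / (2 * Real.pi)) = γ := by field_simp
      rw [this]
      linarith
  · intro F A hF Φ hΦ h1 ⟨Bd, h2⟩
    have hJ := J_lim τ δ hδ B hB1 hB2 hB3 hB k hkc C hC0 hC hk1 F A hF Φ hΦ h1 Bd h2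
    have key : ∀ v : ℝ, 0 ≤ v → Complex.exp (τ * v * Complex.I) *
        ((∫ w in (0:ℝ)..v, Complex.exp (-(τ * w * Complex.I)) * F w) - Φ τ) -
        cv (fun x => Complex.exp (τ * x * Complex.I) * gk κ x) F v =
        Complex.exp (τ * v * Complex.I) * ((∫ w : ℝ, Complex.exp (-(τ * w * Complex.I)) *
          Kp κ (v - w) * F w) - Φ τ) := by
      intro v hv
      have ha := intg (fun x => Complex.exp (τ * x * Complex.I) * gk κ x) F A hhm (C * Jc) hD0 hhb hF v
      have hb := cut_int hF τ v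
      have hc : ∫ w : ℝ, ((Iic v).indicator (fun w : ℝ => Complex.exp (τ * (v - w : ℝ) * Complex.I) * F w) w -
          Complex.exp (τ * (v - w : ℝ) * Complex.I) * gk κ (v - w) * F w) =
          Complex.exp (τ * v * Complex.I) * ∫ w : ℝ, Complex.exp (-(τ * w * Complex.I)) *
          Kp κ (v - w) * F w := by
        rw [← integral_const_mul]
        apply integral_congr_ae
        filter_upwards with w
        have e3 : Complex.exp (τ * (v - w : ℝ) * Complex.I) =
            Complex.exp (τ * v * Complex.I) * Complex.exp (-(τ * w * Complex.I)) := by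
          rw [← Complex.exp_add]
          congr 1
          push_cast
          ring
        by_cases hw : w ≤ v
        · rw [indicator_of_mem (show w ∈ Iic v from hw)]
          have : (0:ℝ) ≤ v - w := by linarith
          simp only [gk, this, if_true]
          rw [e3]
          ring
        · rw [indicator_of_notMem (show w ∉ Iic v from hw)]
          have : ¬ (0:ℝ) ≤ v - w := by
            intro h
            exact hw (by linarith)
          simp only [gk, this, if_false]
          rw [e3]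
          ring
      have hcv : cv (fun x => Complex.exp (τ * x * Complex.I) * gk κ x) F v =
          ∫ w : ℝ, Complex.exp (τ * (v - w : ℝ) * Complex.I) * gk κ (v - w) * F w := by
        unfold cv
        rw [if_neg (not_lt.2 hv)]
      rw [hcv, mul_sub, ← cut_eq hF τ v hv, mul_sub, ← hc]
      have hsub := integral_sub hb ha

      rw [hsub]
      ring
    have h5 : Tendsto (fun v : ℝ => Complex.exp (τ * v * Complex.I) * ((∫ w : ℝ,
        Complex.exp (-(τ * w * Complex.I)) * Kp κ (v - w) * F w) - Φ τ)) atTop (𝓝 0) := by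
      rw [tendsto_zero_iff_norm_tendsto_zero]
      have h6 := (hJ.sub_const (Φ τ)).norm
      rw [sub_self, norm_zero] at h6
      refine h6.congr ?_
      intro v
      rw [norm_mul, ex_norm', one_mul]
    refine h5.congr' ?_
    filter_upwards [eventually_ge_atTop (0:ℝ)] with v hv
    exact (key v hv).symm

end

end Pool.Agent.P8H42.EP
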