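import Pool.Agent.P8H42.EP.Cas
import Pool.Agent.P8H42.EP.Crit

set_option autoImplicit false

/-! # Project EP: the points of the critical line -/

namespace Pool.Agent.P8H42.EP

open MeasureTheory Filter Topology Set
open Pool.Agent.H295R2 (ww ee)
open Pool.Agent.W120.WM (ZC NT)
open Pool.Agent.TH223.AP (dist_lim' SS)
open Pool.Agent.R305.FM (Ad fC fC_ad mn_trig Ad.sub Ad.int_sq)
open Pool.Agent.R613.WM (IQ IQ_nonneg IQ_add IQ_smul TP TP_ad TP_eq SM E E_ad Ad.smul Ad.add Ad.zero Z0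
  Z0.of_tendsto IQ_TP IQ_mono)
open Pool.Agent.P8H24.EP (id1 id2 lap)
open Pool.Agent.P8H24.EP.Lap (Zs Zs_one Zs_ne Zs_diff)

/-- the Laplace transform in terms of `(w - 1) ζ(w)` -/
lemma lap' {A : ℝ} (hA : Gr ff A) {w : ℂ} (hw : 1 / 2 < w.re) :
    IntegrableOn (fun v : ℝ => ff v * Complex.exp (-((w - 1 / 2) * v))) (Ioi 0) ∧ Zs w ≠ 0 ∧
    ∫ v in Ioi (0:ℝ), ff v * Complex.exp (-((w - 1 / 2) * v)) = (w - 1) / (w * Zs w) := by
  have hz : 0 < (w - 1 / 2).re := by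
    have : (w - 1 / 2).re = w.re - 1 / 2 := by simp
    rw [this]
    linarith
  obtain ⟨l1, l2, l3⟩ := lap A hA (w - 1 / 2) hz
  have e0 : w - 1 / 2 + 1 / 2 = w := by ring
  rw [e0] at l3
  refine ⟨l1, ?_⟩
  by_cases h1 : w = 1
  · rw [l2 (by rw [h1]; ring), h1, Zs_one]
    exact ⟨one_ne_zero, by simp⟩
  · obtain ⟨h2, h3⟩ := l3 (fun h => h1 (by linear_combination h))
    have h4 := sub_ne_zero.2 h1
    rw [h3, Zs_ne h1]
    refine ⟨mul_ne_zero h4 h2, ?_⟩
    have hw0 : w ≠ 0 := by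
      rintro rfl
      simp at hw
      linarith
    field_simp

theorem crit_app {F : ℝ → ℂ} {A : ℝ} (hF : Gr F A) {τ δ : ℝ} {h : ℝ → ℂ}
    (hh : ∀ (F : ℝ → ℂ) (A : ℝ), Gr F A → ∀ Φ : ℝ → ℂ,
    ContDiffOn ℝ ((⊤ : ℕ∞) : WithTop ℕ∞) Φ (Ioo (τ - δ) (τ + δ)) →
    (∀ ξ ∈ Ioo (τ - δ) (τ + δ), Tendsto (fun ε : ℝ =>
      ∫ v in Ioi (0:ℝ), F v * Complex.exp (-((ε + ξ * Complex.I) * v))) (𝓝[>] 0) (𝓝 (Φ ξ))) →
    (∃ B : ℝ, ∀ ε : ℝ, 0 < ε → ε < 1 → ∀ ξ ∈ Ioo (τ - δ) (τ + δ),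
      ‖∫ v in Ioi (0:ℝ), F v * Complex.exp (-((ε + ξ * Complex.I) * v))‖ ≤ B) →
    Tendsto (fun v : ℝ => Complex.exp (τ * v * Complex.I) *
      ((∫ w in (0:ℝ)..v, Complex.exp (-(τ * w * Complex.I)) * F w) - Φ τ) - cv h F v) atTop (𝓝 0))
    {U : Set ℂ} (hU : IsOpen U) {H : ℂ → ℂ} (hH : DifferentiableOn ℂ H U)
    (hK : ∀ w : ℂ, 1 / 2 ≤ w.re → w.re ≤ 3 / 2 → |w.im - τ| ≤ δ → w ∈ U)
    (hL : ∀ w : ℂ, 1 / 2 < w.re → w.re < 3 / 2 → |w.im - τ| < δ →
      ∫ v in Ioi (0:ℝ), F v * Complex.exp (-((w - 1 / 2) * v)) = H w) :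
    Tendsto (fun v : ℝ => Complex.exp (τ * v * Complex.I) *
      ((∫ w in (0:ℝ)..v, Complex.exp (-(τ * w * Complex.I)) * F w) - H (1 / 2 + τ * Complex.I)) -
        cv h F v) atTop (𝓝 0) := by
  have hmem : ∀ ξ ∈ Ioo (τ - δ) (τ + δ), |ξ - τ| < δ := by
    intro ξ hξ
    rw [abs_lt]
    constructor <;> linarith [hξ.1, hξ.2]
  have hre : ∀ ε ξ : ℝ, (1 / 2 + ((ε : ℂ) + ξ * Complex.I)).re = 1 / 2 + ε := by
    intro ε ξ
    simp
  have him : ∀ ε ξ : ℝ, (1 / 2 + ((ε : ℂ) + ξ * Complex.I)).im = ξ := by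
    intro ε ξ
    simp
  have hval : ∀ ε : ℝ, 0 < ε → ε < 1 → ∀ ξ ∈ Ioo (τ - δ) (τ + δ),
      ∫ v in Ioi (0:ℝ), F v * Complex.exp (-((ε + ξ * Complex.I) * v)) =
        H (1 / 2 + ((ε : ℂ) + ξ * Complex.I)) := by
    intro ε h0 h1 ξ hξ
    rw [← hL (1 / 2 + ((ε : ℂ) + ξ * Complex.I)) (by rw [hre]; linarith) (by rw [hre]; linarith)
      (by rw [him]; exact hmem ξ hξ)]
    have : (1 / 2 + ((ε : ℂ) + ξ * Complex.I)) - 1 / 2 = ε + ξ * Complex.I := by ring
    rw [this]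
  refine hh F A hF (fun ξ => H (1 / 2 + ξ * Complex.I)) ?_ ?_ ?_
  · have h1 : ContDiffOn ℂ ((⊤ : ℕ∞) : WithTop ℕ∞) H U := hH.contDiffOn hU
    have h2 : ContDiffOn ℝ ((⊤ : ℕ∞) : WithTop ℕ∞) H U := h1.restrict_scalars ℝ
    have h3 : ContDiff ℝ ((⊤ : ℕ∞) : WithTop ℕ∞) (fun ξ : ℝ => (1 / 2 : ℂ) + (ξ : ℂ) * Complex.I) := by
      refine contDiff_const.add (ContDiff.mul ?_ contDiff_const)
      exact Complex.ofRealCLM.contDiff
    refine h2.comp h3.contDiffOn ?_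
    intro ξ hξ
    refine hK _ ?_ ?_ ?_
    · simp
    · simp
      norm_num
    · simpa using (hmem ξ hξ).le
  · intro ξ hξ
    have hU' : (1 / 2 + (ξ : ℂ) * Complex.I) ∈ U := by
      refine hK _ ?_ ?_ ?_
      · simp
      · simp
        norm_num
      · simpa using (hmem ξ hξ).le
    have hc : ContinuousAt H (1 / 2 + (ξ : ℂ) * Complex.I) := (hH.differentiableAt (hU.mem_nhds hU')).continuousAt
    have h1 : Tendsto (fun ε : ℝ => (1 / 2 : ℂ) + ((ε : ℂ) + ξ * Complex.I)) (𝓝[>] 0)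
        (𝓝 (1 / 2 + (ξ : ℂ) * Complex.I)) := by
      have : Continuous fun ε : ℝ => (1 / 2 : ℂ) + ((ε : ℂ) + ξ * Complex.I) := by fun_prop
      have h2 := this.tendsto 0
      simp only [Complex.ofReal_zero, zero_add] at h2
      exact h2.mono_left nhdsWithin_le_nhds
    refine (hc.tendsto.comp h1).congr' ?_
    have h2 : Ioo (0:ℝ) 1 ∈ 𝓝[>] (0:ℝ) := Ioo_mem_nhdsGT one_pos
    filter_upwards [h2] with ε hε
    exact (hval ε hε.1 hε.2 ξ hξ).symm
  · have hcomp : IsCompact (Icc (1 / 2 : ℝ) (3 / 2) ×ℂ Icc (τ - δ) (τ + δ)) :=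
      isCompact_Icc.reProdIm isCompact_Icc
    have hsub : (Icc (1 / 2 : ℝ) (3 / 2) ×ℂ Icc (τ - δ) (τ + δ)) ⊆ U := by
      intro w hw
      rw [Complex.mem_reProdIm] at hw
      refine hK w hw.1.1 hw.1.2 ?_
      rw [abs_le]
      constructor <;> linarith [hw.2.1, hw.2.2]
    obtain ⟨B, hB⟩ := hcomp.exists_bound_of_continuousOn (hH.continuousOn.mono hsub)
    refine ⟨B, fun ε h0 h1 ξ hξ => ?_⟩
    rw [hval ε h0 h1 ξ hξ]
    apply hB
    rw [Complex.mem_reProdIm, hre, him]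
    exact ⟨⟨by linarith, by linarith⟩, Ioo_subset_Icc_self hξ⟩

/-- the distance between zeros -/
lemma sep {W : ℂ → ℂ} (hW : Continuous W) {s : ℂ} (hs : s.re = 1 / 2) (hWs : W s ≠ 0)
    (hWr : ∀ w : ℂ, 1 / 2 < w.re → W w ≠ 0) : ∃ δ : ℝ, 0 < δ ∧
    ∀ w : ℂ, 1 / 2 ≤ w.re → |w.im - s.im| ≤ δ → W w ≠ 0 := by
  have ho : IsOpen {w : ℂ | W w ≠ 0} := isOpen_ne_fun hW continuous_const
  obtain ⟨r, hr, hb⟩ := Metric.isOpen_iff.1 ho s hWs
  refine ⟨r / 2, by linarith, fun w h1 h2 => ?_⟩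
  rcases h1.lt_or_eq with h | h
  · exact hWr w h
  · apply hb
    rw [Metric.mem_ball, Complex.dist_eq]
    have e1 : w - s = ((w.im - s.im : ℝ) : ℂ) * Complex.I := by
      apply Complex.ext
      · simp [← h, hs]
      · simp
    rw [e1, norm_mul, Complex.norm_I, mul_one, Complex.norm_real, Real.norm_eq_abs]
    linarith

lemma s_eq {s : ℂ} (hs : s.re = 1 / 2) : 1 / 2 + (s.im : ℂ) * Complex.I = s := by
  apply Complex.ext
  · simp [hs]
  · simp

lemma Ad.ii {F : ℝ → ℂ} (hF : Ad F) (g : ℝ → ℂ) (hg : Continuous g) (a b : ℝ) :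
    IntervalIntegrable (fun w => g w * F w) volume a b := by
  obtain ⟨B, hB0, hB⟩ := hF.bdd (max a b)
  have h1 : IntervalIntegrable F volume a b := by
    rw [intervalIntegrable_iff]
    refine Integrable.mono' (g := fun _ => B) (integrableOn_const (by simp [Set.uIoc]))
      hF.meas.aestronglyMeasurable ?_
    refine (ae_restrict_mem measurableSet_uIoc).mono fun v hv => ?_
    exact hB v hv.2
  exact h1.continuousOn_mul hg.continuousOn

lemma exp_split (τ v w : ℝ) {s : ℂ} (hs : s.re = 1 / 2) (hτ : τ = s.im) :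
    Complex.exp ((s - 1 / 2) * (v - w)) =
      Complex.exp (τ * v * Complex.I) * Complex.exp (-(τ * w * Complex.I)) := by
  rw [← Complex.exp_add]
  congr 1
  have : s - 1 / 2 = τ * Complex.I := by
    rw [hτ]
    linear_combination -(s_eq hs)
  rw [this]
  ring

/-- the points of the critical line that are not zeros -/
theorem dk_line (hZ : ZC) {s : ℂ} (hs : s.re = 1 / 2) (hs0 : riemannZeta s ≠ 0) :
    Dk (Gs s) s := by
  obtain ⟨A, hA⟩ := ff_gr hZ
  have hs1 : s ≠ 1 := by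
    rintro rfl
    norm_num at hs
  have hsn : s ≠ 0 := by
    rintro rfl
    norm_num at hs
  obtain ⟨τ, hτ⟩ : ∃ τ : ℝ, τ = s.im := ⟨_, rfl⟩
  have hZs : Zs s ≠ 0 := by
    rw [Zs_ne hs1]
    exact mul_ne_zero (sub_ne_zero.2 hs1) hs0
  obtain ⟨δ, hδ, hsep⟩ := sep Zs_diff.continuous hs hZs (fun w hw => (lap' hA hw).2.1)
  obtain ⟨h, hk, hft, hcr⟩ := crit τ δ hδ
  obtain ⟨U, hU⟩ : ∃ U : Set ℂ, U = {w : ℂ | w ≠ 0 ∧ Zs w ≠ 0} := ⟨_, rfl⟩
  have hUo : IsOpen U := by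
    rw [hU]
    exact (isOpen_ne).inter (isOpen_ne_fun Zs_diff.continuous continuous_const)
  have hH : DifferentiableOn ℂ (fun w : ℂ => (w - 1) / (w * Zs w)) U := by
    intro w hw
    rw [hU] at hw
    refine DifferentiableAt.differentiableWithinAt ?_
    exact (differentiableAt_id.sub_const 1).div (differentiableAt_id.mul (Zs_diff w)) (mul_ne_zero hw.1 hw.2)
  have key := crit_app hA hcr hUo hH (fun w h1 h2 h3 => by
    rw [hU]
    refine ⟨?_, hsep w h1 (by rw [← hτ]; exact h3)⟩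
    rintro rfl
    norm_num at h1) (fun w h1 h2 h3 => (lap' hA h1).2.2)
  rw [hτ, s_eq hs, ← hτ] at key
  refine dist_ker hZ hk (Z1 := ∅) (by simp) (by simp) ?_ ?_ (Gs_ad s) ?_
  · intro ρ hρ _ h
    rw [h] at hρ
    exact hs0 hρ.1
  · intro ρ hρ _
    have hre := (hZ.1 ρ hρ).1
    rw [hft ρ.im]
    · congr 1
      have h1 := NT_im (s := s) hre
      have h2 := s_eq hs
      rw [← hτ] at h2
      linear_combination h1 - h2
    · by_contra hc
      rw [not_le] at hc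
      refine hsep ρ hre.ge (by rw [← hτ]; exact hc.le) ?_
      have hρ1 : ρ ≠ 1 := by
        rintro rfl
        norm_num at hre
      rw [Zs_ne hρ1, hρ.1, mul_zero]
  · have key2 := key.const_mul s
    rw [mul_zero] at key2
    refine key2.congr' ?_
    filter_upwards [eventually_ge_atTop (0:ℝ)] with v hv
    have e1 : (fun w => fC w - TP ww ∅ w) = ff := by
      funext w
      rw [TP_empty, sub_zero, ff_fC]
    have e2 : Cs s (Real.exp v) = s * ((s - 1) / (s * Zs s)) := by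
      unfold Cs
      rw [if_neg (by linarith), if_neg hs1, if_pos hs0, Zs_ne hs1]
      have := sub_ne_zero.2 hs1
      field_simp
    have e3 : ∫ w in (0:ℝ)..v, Complex.exp ((s - 1 / 2) * (v - w)) * ff w =
        Complex.exp (τ * v * Complex.I) * ∫ w in (0:ℝ)..v, Complex.exp (-(τ * w * Complex.I)) * ff w := by
      rw [← intervalIntegral.integral_const_mul]
      congr 1
      funext w
      rw [exp_split τ v w hs hτ]
      ring
    have e4 : Complex.exp ((s - 1 / 2) * v) = Complex.exp (τ * v * Complex.I) := by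
      have := exp_split τ v 0 hs hτ
      simpa using this
    have e5 : Gs s v = ff v + s * (Complex.exp (τ * v * Complex.I) *
        ∫ w in (0:ℝ)..v, Complex.exp (-(τ * w * Complex.I)) * ff w) -
        Complex.exp (τ * v * Complex.I) * (s * ((s - 1) / (s * Zs s))) := by
      rw [Gs_nonneg s hv, mul_sub, id1 s v hv, e2, e3, e4]
    rw [e1, TP_empty, sub_zero, e5, ← ff_fC]
    ring

/-- the second derivative of `(w - 1) ζ(w)` at a zero of `ζ` -/
lemma Zs_der {s : ℂ} (hs1 : s ≠ 1) (hs0 : riemannZeta s = 0) :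
    deriv Zs s = (s - 1) * deriv riemannZeta s ∧
    deriv (deriv Zs) s = 2 * deriv riemannZeta s + (s - 1) * iteratedDeriv 2 riemannZeta s := by
  have ho : IsOpen {w : ℂ | w ≠ 1} := isOpen_ne
  have hz : ∀ w : ℂ, w ≠ 1 → DifferentiableAt ℂ riemannZeta w := fun w hw => differentiableAt_riemannZeta hw
  have h1 : ∀ w : ℂ, w ≠ 1 → deriv Zs w = riemannZeta w + (w - 1) * deriv riemannZeta w := by
    intro w hw
    have e : Zs =ᶠ[𝓝 w] fun w => (w - 1) * riemannZeta w := by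
      filter_upwards [ho.mem_nhds hw] with x hx
      exact Zs_ne hx
    rw [e.deriv_eq]
    have h2 : HasDerivAt (fun w : ℂ => w - 1) 1 w := (hasDerivAt_id w).sub_const 1
    have h3 := h2.mul (hz w hw).hasDerivAt
    rw [show (fun w : ℂ => (w - 1) * riemannZeta w) = (fun w : ℂ => w - 1) * riemannZeta from rfl, h3.deriv]
    ring
  refine ⟨by rw [h1 s hs1, hs0, zero_add], ?_⟩
  have e : deriv Zs =ᶠ[𝓝 s] fun w => riemannZeta w + (w - 1) * deriv riemannZeta w := by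
    filter_upwards [ho.mem_nhds hs1] with x hx
    exact h1 x hx
  rw [e.deriv_eq]
  have hzo : DifferentiableOn ℂ riemannZeta {w : ℂ | w ≠ 1} := fun w hw => (hz w hw).differentiableWithinAt
  have han : AnalyticAt ℂ riemannZeta s := hzo.analyticAt (ho.mem_nhds hs1)
  have hdz : HasDerivAt (deriv riemannZeta) (deriv (deriv riemannZeta) s) s :=
    han.deriv.differentiableAt.hasDerivAt
  have h2 : HasDerivAt (fun w : ℂ => w - 1) 1 s := (hasDerivAt_id s).sub_const 1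
  have h3 := (hz s hs1).hasDerivAt.add (h2.mul hdz)
  have e2 : (fun w : ℂ => riemannZeta w + (w - 1) * deriv riemannZeta w) =
      riemannZeta + (fun w : ℂ => w - 1) * deriv riemannZeta := rfl
  rw [e2, h3.deriv, iteratedDeriv_succ, iteratedDeriv_one]
  ring

/-- dividing out a zero -/
lemma ds_der {s : ℂ} (hs1 : s ≠ 1) (hs0 : riemannZeta s = 0) :
    Differentiable ℂ (dslope Zs s) ∧ dslope Zs s s = (s - 1) * deriv riemannZeta s ∧
    2 * deriv (dslope Zs s) s = 2 * deriv riemannZeta s + (s - 1) * iteratedDeriv 2 riemannZeta s ∧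
    ∀ w : ℂ, Zs w = (w - s) * dslope Zs s w := by
  have hd : Differentiable ℂ (dslope Zs s) := by
    have := (Complex.differentiableOn_dslope (f := Zs) (s := univ) (c := s) univ_mem).2
      Zs_diff.differentiableOn
    rwa [differentiableOn_univ] at this
  have hZs : Zs s = 0 := by rw [Zs_ne hs1, hs0, mul_zero]
  obtain ⟨d1, d2⟩ := Zs_der hs1 hs0
  have hfac : ∀ w : ℂ, Zs w = (w - s) * dslope Zs s w := by
    intro w
    have := sub_smul_dslope Zs s w
    rw [hZs, sub_zero, smul_eq_mul] at this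
    exact this.symm
  refine ⟨hd, by rw [dslope_same, d1], ?_, hfac⟩
  rw [← d2]
  have h1 : deriv Zs = fun w => dslope Zs s w + (w - s) * deriv (dslope Zs s) w := by
    funext w
    have e : Zs = (fun w : ℂ => w - s) * dslope Zs s := by
      funext w
      exact hfac w
    have h2 : HasDerivAt (fun w : ℂ => w - s) 1 w := (hasDerivAt_id w).sub_const s
    have h3 := h2.mul (hd w).hasDerivAt
    rw [← e] at h3
    rw [h3.deriv]
    ring
  rw [h1]
  have han : AnalyticAt ℂ (dslope Zs s) s := hd.analyticAt s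
  have hdz : HasDerivAt (deriv (dslope Zs s)) (deriv (deriv (dslope Zs s)) s) s :=
    han.deriv.differentiableAt.hasDerivAt
  have h2 : HasDerivAt (fun w : ℂ => w - s) 1 s := (hasDerivAt_id s).sub_const s
  have h3 := (hd s).hasDerivAt.add (h2.mul hdz)
  have e2 : (fun w : ℂ => dslope Zs s w + (w - s) * deriv (dslope Zs s) w) =
      dslope Zs s + (fun w : ℂ => w - s) * deriv (dslope Zs s) := rfl
  rw [e2, h3.deriv]
  ring

end Pool.Agent.P8H42.EP
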