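import Pool.Agent.P8H42.EP.Crt

set_option autoImplicit false

/-! # Project EP: the simple zeros -/

namespace Pool.Agent.P8H42.EP

open MeasureTheory Filter Topology Set
open Pool.Agent.H295R2 (ww ee)
open Pool.Agent.W120.WM (ZC NT)
open Pool.Agent.TH223.AP (dist_lim' SS)
open Pool.Agent.R305.FM (Ad fC fC_ad mn_trig Ad.sub Ad.int_sq)
open Pool.Agent.R613.WM (IQ IQ_nonneg IQ_add IQ_smul TP TP_ad TP_eq SM E E_ad Ad.smul Ad.add Ad.zero Z0
  Z0.of_tendsto IQ_TP IQ_mono)
open Pool.Agent.P8H24.EP (id1 id2 lap)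
open Pool.Agent.P8H24.EP.Lap (Zs Zs_one Zs_ne Zs_diff)

/-- the value of the regularised Laplace transform at the zero -/
lemma reg_val {s : ℂ} (hs1 : s ≠ 1) (hsn : s ≠ 0) (hs0 : riemannZeta s = 0) (hd : deriv riemannZeta s ≠ 0) :
    (s - 1) / (s * dslope Zs s s) = ww s ∧
    ww s + s * deriv (fun w : ℂ => (w - 1) / (w * dslope Zs s w)) s =
      -(iteratedDeriv 2 riemannZeta s / (2 * deriv riemannZeta s ^ 2)) := by
  obtain ⟨d1, d2, d3, d4⟩ := ds_der hs1 hs0
  have hs1' := sub_ne_zero.2 hs1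
  have hg : dslope Zs s s ≠ 0 := by
    rw [d2]
    exact mul_ne_zero hs1' hd
  constructor
  · rw [d2]
    unfold ww
    field_simp
  · have h1 : HasDerivAt (fun w : ℂ => w - 1) 1 s := (hasDerivAt_id s).sub_const 1
    have h2 := (hasDerivAt_id s).mul (d1 s).hasDerivAt
    have h3 := h1.div h2 (mul_ne_zero hsn hg)
    have e : (fun w : ℂ => (w - 1) / (w * dslope Zs s w)) = (fun w : ℂ => w - 1) / (id * dslope Zs s) := rfl
    rw [e, h3.deriv]
    simp only [Pi.mul_apply, id]
    have e3 : deriv (dslope Zs s) s = deriv riemannZeta s + (s - 1) * iteratedDeriv 2 riemannZeta s / 2 := by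
      linear_combination d3 / 2
    rw [e3, d2]
    unfold ww
    field_simp
    ring

lemma E_eq {s : ℂ} {v : ℝ} (hv : 0 ≤ v) : E s v = Complex.exp ((s - 1 / 2) * v) := by
  unfold E
  rw [if_neg (not_lt.2 hv)]
  rfl

/-- the simple zeros -/
theorem dk_zero (hZ : ZC) {s : ℂ} (hs : s.re = 1 / 2) (hs0 : riemannZeta s = 0)
    (hd : deriv riemannZeta s ≠ 0) :
    Dk (Gs s) s := by
  obtain ⟨A, hA⟩ := ff_gr hZ
  have hs1 : s ≠ 1 := by
    rintro rfl
    norm_num at hs
  have hsn : s ≠ 0 := by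
    rintro rfl
    norm_num at hs
  have hsN : s ∈ NT := ⟨hs0, by rw [hs]; norm_num, by rw [hs]; norm_num⟩
  obtain ⟨τ, hτ⟩ : ∃ τ : ℝ, τ = s.im := ⟨_, rfl⟩
  obtain ⟨gd, gs, _, gf⟩ := ds_der hs1 hs0
  obtain ⟨r1, r2⟩ := reg_val hs1 hsn hs0 hd
  obtain ⟨g, hg⟩ : ∃ g : ℂ → ℂ, g = dslope Zs s := ⟨_, rfl⟩
  rw [← hg] at gd gs gf r1 r2
  obtain ⟨P, hP⟩ : ∃ P : ℂ → ℂ, P = fun w => (w - 1) / (w * g w) := ⟨_, rfl⟩
  have hPs : P s = ww s := by rw [hP]; exact r1
  rw [← hP] at r2
  have hgs : g s ≠ 0 := by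
    rw [gs]
    exact mul_ne_zero (sub_ne_zero.2 hs1) hd
  obtain ⟨δ, hδ, hsep⟩ := sep gd.continuous hs hgs (fun w hw h0 => by
    have h1 := (lap' hA hw).2.1
    rw [gf, h0, mul_zero] at h1
    exact h1 rfl)
  obtain ⟨h, hk, hft, hcr⟩ := crit τ δ hδ
  obtain ⟨U, hU⟩ : ∃ U : Set ℂ, U = {w : ℂ | w ≠ 0 ∧ g w ≠ 0} := ⟨_, rfl⟩
  have hUo : IsOpen U := by
    rw [hU]
    exact (isOpen_ne).inter (isOpen_ne_fun gd.continuous continuous_const)
  have hsU : s ∈ U := by
    rw [hU]
    exact ⟨hsn, hgs⟩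
  have hPd : DifferentiableOn ℂ P U := by
    intro w hw
    rw [hU] at hw
    refine DifferentiableAt.differentiableWithinAt ?_
    rw [hP]
    exact (differentiableAt_id.sub_const 1).div (differentiableAt_id.mul (gd w)) (mul_ne_zero hw.1 hw.2)
  have hH : DifferentiableOn ℂ (dslope P s) U :=
    (Complex.differentiableOn_dslope (hUo.mem_nhds hsU)).2 hPd
  -- the function with the exponential removed
  obtain ⟨F1, hF1⟩ : ∃ F1 : ℝ → ℂ, F1 = fun w => fC w - TP ww {s} w := ⟨_, rfl⟩
  have hre1 : ∀ ρ ∈ ({s} : Finset ℂ), ρ.re = 1 / 2 := by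
    intro ρ hρ
    rw [Finset.mem_singleton] at hρ
    rw [hρ, hs]
  have hFad : Ad F1 := by rw [hF1]; exact fC_ad.sub (TP_ad ww hre1)
  obtain ⟨A1, hA1⟩ : ∃ A1 : ℝ, Gr F1 A1 := by
    have := dist_IQ hZ {s} (by intro ρ hρ; rw [Finset.mem_singleton] at hρ; rw [hρ]; exact hsN)
    rw [← hF1] at this
    exact gr_of_lim hFad this
  have hFv : ∀ v : ℝ, 0 ≤ v → ff v = F1 v + ww s * Complex.exp ((s - 1 / 2) * v) := by
    intro v hv
    rw [hF1]
    simp only [TP, Finset.sum_singleton]
    rw [E_eq hv, ff_fC]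
    ring
  have hlapF : ∀ w : ℂ, 1 / 2 < w.re → ∫ v in Ioi (0:ℝ), F1 v * Complex.exp (-((w - 1 / 2) * v)) =
      dslope P s w := by
    intro w hw
    obtain ⟨l1, l2, l3⟩ := lap' hA hw
    have hws : w ≠ s := by
      rintro rfl
      linarith
    have hsw : (s - w).re < 0 := by
      rw [Complex.sub_re, hs]
      linarith
    have i1 : IntegrableOn (fun v : ℝ => Complex.exp ((s - w) * v)) (Ioi 0) :=
      integrableOn_exp_mul_complex_Ioi hsw 0
    have e1 : ∫ v in Ioi (0:ℝ), F1 v * Complex.exp (-((w - 1 / 2) * v)) =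
        ∫ v in Ioi (0:ℝ), (ff v * Complex.exp (-((w - 1 / 2) * v)) - ww s * Complex.exp ((s - w) * v)) := by
      refine setIntegral_congr_fun measurableSet_Ioi fun v hv => ?_
      have hv0 : (0:ℝ) < v := hv
      have : Complex.exp ((s - w) * v) = Complex.exp ((s - 1 / 2) * v) * Complex.exp (-((w - 1 / 2) * v)) := by
        rw [← Complex.exp_add]
        congr 1
        ring
      rw [hFv v hv0.le, this]
      ring
    rw [e1, integral_sub l1 (i1.const_mul _), l3, integral_const_mul, integral_exp_mul_complex_Ioi hsw,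
      dslope_of_ne P hws, slope_def_field, hPs]
    have hwn : w ≠ 0 := by
      rintro rfl
      simp at hw
      linarith
    have hws' := sub_ne_zero.2 hws
    have hws2 : s - w ≠ 0 := sub_ne_zero.2 (Ne.symm hws)
    have hgw : g w ≠ 0 := by
      intro h0
      rw [gf, h0, mul_zero] at l2
      exact l2 rfl
    rw [hP, gf w]
    simp only [Complex.ofReal_zero, mul_zero, Complex.exp_zero]
    rw [← neg_sub w s, neg_div_neg_eq]
    field_simp
  have key := crit_app hA1 hcr hUo hH (fun w h1 h2 h3 => by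
    rw [hU]
    refine ⟨?_, hsep w h1 (by rw [← hτ]; exact h3)⟩
    rintro rfl
    norm_num at h1) (fun w h1 h2 h3 => hlapF w h1)
  rw [hτ, s_eq hs, ← hτ, dslope_same] at key
  refine dist_ker hZ hk (Z1 := {s}) (by intro ρ hρ; rw [Finset.mem_singleton] at hρ; rw [hρ]; exact hsN)
    (by intro ρ hρ; rwa [Finset.mem_singleton] at hρ) ?_ ?_ (Gs_ad s) ?_
  · intro ρ _ h
    rwa [Finset.mem_singleton] at h
  · intro ρ hρ hρs
    rw [Finset.mem_singleton] at hρs
    have hre := (hZ.1 ρ hρ).1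
    rw [hft ρ.im]
    · congr 1
      have h1 := NT_im (s := s) hre
      have h2 := s_eq hs
      rw [← hτ] at h2
      linear_combination h1 - h2
    · by_contra hc
      rw [not_le] at hc
      have h1 := hsep ρ hre.ge (by rw [← hτ]; exact hc.le)
      have hρ1 : ρ ≠ 1 := by
        rintro rfl
        norm_num at hre
      have h2 := gf ρ
      rw [Zs_ne hρ1, hρ.1, mul_zero] at h2
      exact (mul_ne_zero (sub_ne_zero.2 hρs) h1) h2.symm
  · have key2 := key.const_mul s
    rw [mul_zero] at key2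
    refine key2.congr' ?_
    filter_upwards [eventually_ge_atTop (0:ℝ)] with v hv
    have e2 : Cs s (Real.exp v) = v / deriv riemannZeta s -
        iteratedDeriv 2 riemannZeta s / (2 * deriv riemannZeta s ^ 2) := by
      unfold Cs
      rw [if_neg (by linarith), if_neg hs1, if_neg (by simpa using hs0), Real.log_exp]
    have e4 : ∀ x : ℝ, Complex.exp ((s - 1 / 2) * x) = Complex.exp (τ * x * Complex.I) := by
      intro x
      have := exp_split τ x 0 hs hτ
      simpa using this
    have e3 : ∫ w in (0:ℝ)..v, Complex.exp ((s - 1 / 2) * (v - w)) * ff w =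
        Complex.exp (τ * v * Complex.I) * ((∫ w in (0:ℝ)..v, Complex.exp (-(τ * w * Complex.I)) * F1 w) +
          ww s * v) := by
      have f1 : ∫ w in (0:ℝ)..v, Complex.exp ((s - 1 / 2) * (v - w)) * ff w =
          ∫ w in (0:ℝ)..v, Complex.exp (τ * v * Complex.I) *
            (Complex.exp (-(τ * w * Complex.I)) * F1 w + ww s) := by
        apply intervalIntegral.integral_congr
        intro w hw
        rw [uIcc_of_le hv] at hw
        simp only
        rw [exp_split τ v w hs hτ, hFv w hw.1, e4 w]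
        have : Complex.exp (-(τ * w * Complex.I)) * Complex.exp (τ * w * Complex.I) = 1 := by
          rw [← Complex.exp_add]
          simp
        linear_combination (Complex.exp (τ * v * Complex.I) * ww s) * this
      rw [f1, intervalIntegral.integral_const_mul, intervalIntegral.integral_add
        (Ad.ii hFad _ (by fun_prop) 0 v) intervalIntegrable_const, intervalIntegral.integral_const]
      simp only [sub_zero, Complex.real_smul]
      ring
    have e5 : Gs s v = ff v + s * (Complex.exp (τ * v * Complex.I) * ((∫ w in (0:ℝ)..v,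
        Complex.exp (-(τ * w * Complex.I)) * F1 w) + ww s * v)) - Complex.exp (τ * v * Complex.I) *
        (v / deriv riemannZeta s - iteratedDeriv 2 riemannZeta s / (2 * deriv riemannZeta s ^ 2)) := by
      rw [Gs_nonneg s hv, mul_sub, id1 s v hv, e2, e3, e4]
    have e6 : s * ww s * v = v / deriv riemannZeta s := by
      unfold ww
      field_simp
    rw [← hF1]
    have e7 : fC v - TP ww {s} v = F1 v := by rw [hF1]
    rw [e7, e5, hFv v hv, e4]
    linear_combination (-Complex.exp (τ * v * Complex.I)) * e6 - Complex.exp (τ * v * Complex.I) * r2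

end Pool.Agent.P8H42.EP
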