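import Pool.Agent.P8H42.EP.Neg

set_option autoImplicit false

/-! # Project EP: the mean value, the sum over the zeros, and the laws -/

namespace Pool.Agent.P8H42.EP

open MeasureTheory Filter Topology Set
open Pool.Agent.H295R2 (ww ee GR)
open Pool.Agent.W120.WM (ZC NT)
open Pool.Agent.TH223.AP (dist_lim' SS GR_lim)
open Pool.Agent.R305.FM (Ad fC fC_ad mn_trig Ad.sub Ad.int_sq norm_ee)
open Pool.Agent.R613.WM (IQ IQ_nonneg IQ_add IQ_sub IQ_smul TP TP_ad TP_eq SM E E_ad Ad.smul Ad.add Ad.zero Z0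
  Z0.of_tendsto IQ_TP IQ_mono fC_top ek ek_ad ek_bd LawI law_gen int_IQ)

/-- the approximation property at every point covered -/
theorem dk_all (hZ : ZC) {s : ℂ} (hs : Pt s) : Dk (Gs s) s := by
  rcases lt_trichotomy s.re (1 / 2) with h | h | h
  · exact dk_left hZ h
  · by_cases h0 : riemannZeta s = 0
    · refine dk_zero hZ h h0 ?_
      rcases hs with h1 | h1 | h1 | h1
      · linarith
      · rw [h1] at h
        norm_num at h
      · exact absurd h0 h1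
      · exact h1.2
    · exact dk_line hZ h h0
  · exact dk_right hZ h

/-- the mean value -/
theorem Dk.mean (hZ : ZC) {s : ℂ} (hs : s.re = 1 / 2) (hs0 : riemannZeta s ≠ 0) {G : ℝ → ℂ} (hG : Ad G)
    (h : Dk G s) : Tendsto (fun V : ℝ => (∫ v in (0:ℝ)..V, Complex.exp (-((s - 1 / 2) * v)) * G v) / (V : ℂ))
      atTop (𝓝 0) := by
  classical
  obtain ⟨-, K, hK0, hK⟩ := h
  have hne : ∀ v : ℝ, ‖Complex.exp (-((s - 1 / 2) * v))‖ = 1 := by
    intro v
    rw [Complex.norm_exp]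
    simp [hs]
  rw [Metric.tendsto_nhds]
  intro ε hε
  obtain ⟨η, hη⟩ : ∃ η : ℝ, η = ε ^ 2 / 8 := ⟨_, rfl⟩
  have hη0 : 0 < η := by rw [hη]; positivity
  obtain ⟨u, hu⟩ : ∃ u : Finset NT, SS - ∑ ρ ∈ u, 1 / ‖(ρ : ℂ) * deriv riemannZeta ρ‖ ^ 2 < η / (K + 1) := by
    have a1 := Metric.tendsto_nhds.1 hZ.2.hasSum (η / (K + 1)) (by positivity)
    obtain ⟨u, h1⟩ := a1.exists
    refine ⟨u, ?_⟩
    rw [Real.dist_eq] at h1
    have := (abs_lt.1 h1).1
    unfold Pool.Agent.TH223.AP.SS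
    linarith
  set Z : Finset ℂ := u.map (Function.Embedding.subtype _) with hZdef
  have hZm : ∀ ρ ∈ Z, ρ ∈ NT := by
    intro ρ hρ
    rw [hZdef, Finset.mem_map] at hρ
    obtain ⟨ρ', -, rfl⟩ := hρ
    exact ρ'.2
  have hre : ∀ ρ ∈ Z, ρ.re = 1 / 2 := fun ρ hρ => (hZ.1 ρ (hZm ρ hρ)).1
  have hs1 : ∑ ρ ∈ Z, 1 / ‖ρ * deriv riemannZeta ρ‖ ^ 2 =
      ∑ ρ ∈ u, 1 / ‖(ρ : ℂ) * deriv riemannZeta ρ‖ ^ 2 := by
    rw [hZdef, Finset.sum_map]
    rfl
  have ev1 := hK Z hZm η hη0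
  rw [hs1] at ev1
  obtain ⟨b, hb⟩ : ∃ b : ℂ → ℂ, b = fun ρ => ww ρ * ms s ρ := ⟨_, rfl⟩
  rw [← hb] at ev1
  have hTad := TP_ad b hre
  -- the mean value of the trigonometric polynomial
  have hT : Tendsto (fun V : ℝ => (∫ v in (0:ℝ)..V, Complex.exp (-((s - 1 / 2) * v)) * TP b Z v) / (V : ℂ))
      atTop (𝓝 0) := by
    have h1 : Tendsto (fun V : ℝ => ∑ ρ ∈ Z, b ρ * (GR (ρ - s) V / V)) atTop (𝓝 (∑ ρ ∈ Z, b ρ * 0)) := by
      refine tendsto_finsetSum _ fun ρ hρ => ?_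
      have h2 : (ρ - s).re = 0 := by rw [Complex.sub_re, hre ρ hρ, hs, sub_self]
      have h3 := GR_lim h2
      rw [if_neg] at h3
      · exact h3.const_mul _
      · intro h4
        rw [sub_eq_zero] at h4
        have := (hZm ρ hρ).1
        rw [h4] at this
        exact hs0 this
    simp only [mul_zero, Finset.sum_const_zero] at h1
    refine h1.congr' ?_
    filter_upwards [eventually_gt_atTop (0:ℝ)] with V hV
    have e1 : ∫ v in (0:ℝ)..V, Complex.exp (-((s - 1 / 2) * v)) * TP b Z v =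
        ∫ v in (0:ℝ)..V, ∑ ρ ∈ Z, b ρ * Complex.exp ((ρ - s) * v) := by
      apply intervalIntegral.integral_congr
      intro v hv
      rw [uIcc_of_le hV.le] at hv
      simp only
      rw [TP_eq b Z hv.1, Finset.mul_sum]
      refine Finset.sum_congr rfl fun ρ _ => ?_
      have : Complex.exp (-((s - 1 / 2) * v)) * ee ρ v = Complex.exp ((ρ - s) * v) := by
        unfold ee
        rw [← Complex.exp_add]
        congr 1
        ring
      rw [← this]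
      ring
    rw [e1, intervalIntegral.integral_finsetSum (fun ρ _ => Continuous.intervalIntegrable (by fun_prop) _ _),
      Finset.sum_div]
    refine Finset.sum_congr rfl fun ρ _ => ?_
    rw [intervalIntegral.integral_const_mul]
    unfold Pool.Agent.H295R2.GR
    rw [intervalIntegral.integral_of_le hV.le]
    ring
  have ev2 := Metric.tendsto_nhds.1 hT (ε / 4) (by linarith)
  filter_upwards [ev1, ev2, eventually_gt_atTop (0:ℝ)] with V h1 h2 hV
  rw [dist_zero_right] at h2 ⊢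
  have hDad : Ad (fun v => G v - TP b Z v) := hG.sub hTad
  have e1 : (∫ v in (0:ℝ)..V, Complex.exp (-((s - 1 / 2) * v)) * G v) =
      (∫ v in (0:ℝ)..V, Complex.exp (-((s - 1 / 2) * v)) * (G v - TP b Z v)) +
      ∫ v in (0:ℝ)..V, Complex.exp (-((s - 1 / 2) * v)) * TP b Z v := by
    rw [← intervalIntegral.integral_add (Ad.ii hDad _ (by fun_prop) 0 V) (Ad.ii hTad _ (by fun_prop) 0 V)]
    congr 1
    funext v
    ring
  have h3 : ‖∫ v in (0:ℝ)..V, Complex.exp (-((s - 1 / 2) * v)) * (G v - TP b Z v)‖ ≤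
      ∫ v in (0:ℝ)..V, (ε / 4 + ‖G v - TP b Z v‖ ^ 2 / ε) := by
    refine intervalIntegral.norm_integral_le_of_norm_le hV.le ?_
      (intervalIntegrable_const.add ((hDad.int_sq 0 V).div_const ε))
    refine Eventually.of_forall fun v _ => ?_
    rw [norm_mul, hne, one_mul]
    have : 0 ≤ (‖G v - TP b Z v‖ - ε / 2) ^ 2 / ε := by positivity
    have h4 : (‖G v - TP b Z v‖ - ε / 2) ^ 2 / ε = ‖G v - TP b Z v‖ ^ 2 / ε - ‖G v - TP b Z v‖ + ε / 4 := by
      field_simp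
      ring
    rw [h4] at this
    linarith
  rw [intervalIntegral.integral_add intervalIntegrable_const ((hDad.int_sq 0 V).div_const ε),
    intervalIntegral.integral_const, intervalIntegral.integral_div, sub_zero, smul_eq_mul] at h3
  have h5 : K * (SS - ∑ ρ ∈ u, 1 / ‖(ρ : ℂ) * deriv riemannZeta ρ‖ ^ 2) ≤ η := by
    calc K * (SS - ∑ ρ ∈ u, 1 / ‖(ρ : ℂ) * deriv riemannZeta ρ‖ ^ 2) ≤ K * (η / (K + 1)) := by gcongr
      _ ≤ η := by
        rw [mul_div, div_le_iff₀ (by positivity)]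
        nlinarith
  have h6 : IQ (fun v => G v - TP b Z v) V ≤ (η + η) * V := by
    rw [← div_le_iff₀ hV]
    linarith
  have h7 : ‖∫ v in (0:ℝ)..V, Complex.exp (-((s - 1 / 2) * v)) * (G v - TP b Z v)‖ ≤ ε / 2 * V := by
    refine h3.trans ?_
    have h8 : (∫ v in (0:ℝ)..V, ‖G v - TP b Z v‖ ^ 2) / ε ≤ ε / 4 * V := by
      rw [div_le_iff₀ hε]
      refine h6.trans (le_of_eq ?_)
      rw [hη]
      ring
    linarith
  rw [e1, add_div]
  refine (norm_add_le _ _).trans_lt ?_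
  have h9 : ‖(∫ v in (0:ℝ)..V, Complex.exp (-((s - 1 / 2) * v)) * (G v - TP b Z v)) / (V : ℂ)‖ ≤ ε / 2 := by
    rw [norm_div, Complex.norm_real, Real.norm_eq_abs, abs_of_pos hV, div_le_iff₀ hV]
    exact h7
  linarith

/-- the sum over the zeros -/
noncomputable def Sg (s : ℂ) : ℝ := ∑' ρ : NT, 1 / ‖((ρ : ℂ) - s) * deriv riemannZeta ρ‖ ^ 2

lemma NT_ne {ρ : ℂ} (h : ρ ∈ NT) : ρ ≠ 0 := by
  rintro rfl
  have := h.2.1
  simp at this

lemma term_eq (s : ℂ) (ρ : NT) : ‖ms s ρ‖ ^ 2 / ‖(ρ : ℂ) * deriv riemannZeta ρ‖ ^ 2 =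
    1 / ‖((ρ : ℂ) - s) * deriv riemannZeta ρ‖ ^ 2 := by
  have h0 : 0 < ‖(ρ : ℂ)‖ := norm_pos_iff.2 (NT_ne ρ.2)
  unfold ms
  rw [norm_div, norm_mul, norm_mul]
  by_cases h1 : ‖(ρ : ℂ) - s‖ = 0
  · rw [h1]
    simp
  · by_cases h2 : ‖deriv riemannZeta ρ‖ = 0
    · rw [h2]
      simp
    · field_simp

lemma SM_eq (s : ℂ) : SM (ms s) = Sg s := by
  unfold Pool.Agent.R613.WM.SM Sg
  exact tsum_congr fun ρ => term_eq s ρ

lemma Dk.summable (hZ : ZC) {s : ℂ} {G : ℝ → ℂ} (h : Dk G s) :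
    Summable fun ρ : NT => 1 / ‖((ρ : ℂ) - s) * deriv riemannZeta ρ‖ ^ 2 := by
  obtain ⟨⟨B, hB⟩, -⟩ := h
  exact (SM_sum hZ hB).congr fun ρ => term_eq s ρ

lemma NT_symm {ρ : ℂ} (h : ρ ∈ NT) : 1 - ρ ∈ NT := by
  obtain ⟨h0, h1, h2⟩ := h
  refine ⟨?_, by simp; linarith, by simp; linarith⟩
  have hn : ∀ n : ℕ, ρ ≠ -n := by
    intro n h3
    rw [h3] at h1
    simp at h1
    have : (0:ℝ) ≤ n := Nat.cast_nonneg n
    linarith
  have h3 : ρ ≠ 1 := by
    rintro rfl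
    simp at h2
  rw [riemannZeta_one_sub hn h3, h0, mul_zero]

lemma exists_other (hZ : ZC) (s : ℂ) : ∃ ρ : NT, (ρ : ℂ) ≠ s := by
  obtain ⟨ρ, hρ⟩ := Pool.Agent.TH223.AP.exists_zero
  by_cases h : ρ = s
  · refine ⟨⟨1 - ρ, NT_symm hρ⟩, ?_⟩
    intro h1
    simp only at h1
    have h2 : ρ = 1 / 2 := by
      rw [← h] at h1
      linear_combination (-1 / 2 : ℂ) * h1
    rw [h2] at hρ
    exact Pool.Agent.TH223.AP.zeta_half_ne hρ.1
  · exact ⟨⟨ρ, hρ⟩, h⟩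

lemma Sg_pos (hZ : ZC) {s : ℂ} {G : ℝ → ℂ} (h : Dk G s) : 0 < Sg s := by
  obtain ⟨ρ, hρ⟩ := exists_other hZ s
  have h1 := (hZ.1 ρ ρ.2).2
  have h2 : 0 < ‖((ρ : ℂ) - s) * deriv riemannZeta ρ‖ := norm_pos_iff.2 (mul_ne_zero (sub_ne_zero.2 hρ) h1)
  exact (h.summable hZ).tsum_pos (fun _ => by positivity) ρ (by positivity)

/-- the law of the remainder -/
theorem law_E {s : ℂ} (hs : Pt s) {I : ℝ → ℝ} (hI : ∀ x : ℝ, 1 ≤ x → I x = IQ (Gs s) (Real.log x)) :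
    LawI I (Sg s) ∧ (ZC → (Summable fun ρ : NT => 1 / ‖((ρ : ℂ) - s) * deriv riemannZeta ρ‖ ^ 2) ∧ 0 < Sg s) := by
  refine ⟨law_gen (Gs_ad s) hI (fun hZ => ?_) (fun hZ => top_neg hZ hs), fun hZ => ⟨(dk_all hZ hs).summable hZ,
    Sg_pos hZ (dk_all hZ hs)⟩⟩
  rw [← SM_eq]
  exact (dk_all hZ hs).lim hZ (Gs_ad s)

/-- `u^{s-1/2} ∑_{n ≤ u} μ(n) n^{-s}` on the logarithmic scale, for `Re s = 1/2`, `ζ(s) ≠ 0` -/
noncomputable def Ga (s : ℂ) (v : ℝ) : ℂ := Gs s v + 1 / riemannZeta s * E s v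

lemma Ga_ad {s : ℂ} (hs : s.re = 1 / 2) : Ad (Ga s) := Ad.add (Gs_ad s) (Ad.smul (E_ad hs) _)

lemma Ga_eq {s : ℂ} (hs : s.re = 1 / 2) (hs0 : riemannZeta s ≠ 0) {v : ℝ} (hv : 0 ≤ v) :
    Ga s v = Complex.exp ((s - 1 / 2) * v) * As s (Real.exp v) := by
  have hs1 : s ≠ 1 := by
    rintro rfl
    norm_num at hs
  unfold Ga
  rw [Gs_nonneg s hv, E_eq hv]
  unfold Cs
  rw [if_neg (by linarith), if_neg hs1, if_pos hs0]
  ring

/-- the law of the sums themselves on the critical line -/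
theorem law_A {s : ℂ} (hs : s.re = 1 / 2) (hs0 : riemannZeta s ≠ 0) {I : ℝ → ℝ}
    (hI : ∀ x : ℝ, 1 ≤ x → I x = IQ (Ga s) (Real.log x)) : LawI I (1 / ‖riemannZeta s‖ ^ 2 + Sg s) := by
  have hp : Pt s := Or.inr (Or.inr (Or.inl hs0))
  obtain ⟨c, hc⟩ : ∃ c : ℂ, c = 1 / riemannZeta s := ⟨_, rfl⟩
  have hcn : ‖c‖ ^ 2 = 1 / ‖riemannZeta s‖ ^ 2 := by
    rw [hc, norm_div, norm_one, div_pow, one_pow]
  have hE1 : ∀ v : ℝ, 0 ≤ v → ‖E s v‖ = 1 := by
    intro v hv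
    unfold E
    rw [if_neg (not_lt.2 hv), norm_ee hs]
  have hIQE : ∀ V : ℝ, 0 ≤ V → IQ (E s) V = V := by
    intro V hV
    unfold IQ
    have : ∫ v in (0:ℝ)..V, ‖E s v‖ ^ 2 = ∫ _ in (0:ℝ)..V, (1:ℝ) := by
      apply intervalIntegral.integral_congr
      intro v hv
      rw [uIcc_of_le hV] at hv
      simp only
      rw [hE1 v hv.1, one_pow]
    rw [this]
    simp
  have hG := Gs_ad s
  have hEad := E_ad hs
  refine law_gen (Ga_ad hs) hI (fun hZ => ?_) (fun hZ => ?_)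
  · have h1 := (dk_all hZ hp).lim hZ hG
    rw [SM_eq] at h1
    have h2 := (dk_all hZ hp).mean hZ hs hs0 hG
    have h3 : Tendsto (fun V : ℝ => 2 * ((starRingEnd ℂ) c *
        ((∫ v in (0:ℝ)..V, Complex.exp (-((s - 1 / 2) * v)) * Gs s v) / (V : ℂ))).re) atTop (𝓝 0) := by
      have h4 := (h2.const_mul ((starRingEnd ℂ) c))
      rw [mul_zero] at h4
      have h5 := (Complex.continuous_re.tendsto 0).comp h4
      have h6 := h5.const_mul 2
      simpa using h6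
    have h7 := ((h1.add_const (‖c‖ ^ 2)).add h3)
    rw [add_zero, hcn, add_comm (Sg s)] at h7
    refine h7.congr' ?_
    filter_upwards [eventually_gt_atTop (0:ℝ)] with V hV
    have e1 : IQ (Ga s) V = IQ (Gs s) V + (‖c‖ ^ 2 * V + 2 * ((starRingEnd ℂ) c *
        ∫ v in (0:ℝ)..V, Complex.exp (-((s - 1 / 2) * v)) * Gs s v).re) := by
      have i1 := hG.int_sq 0 V
      have i2 : IntervalIntegrable (fun v => Complex.exp (-((s - 1 / 2) * v)) * Gs s v) volume 0 V :=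
        Ad.ii hG _ (by fun_prop) 0 V
      have i3 : IntervalIntegrable (fun v => ((starRingEnd ℂ) c *
          (Complex.exp (-((s - 1 / 2) * v)) * Gs s v)).re) volume 0 V := by
        have := i2.const_mul ((starRingEnd ℂ) c)
        rw [intervalIntegrable_iff] at this ⊢
        exact this.re
      have e2 : ((starRingEnd ℂ) c * ∫ v in (0:ℝ)..V, Complex.exp (-((s - 1 / 2) * v)) * Gs s v).re =
          ∫ v in (0:ℝ)..V, ((starRingEnd ℂ) c * (Complex.exp (-((s - 1 / 2) * v)) * Gs s v)).re := by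
        rw [← intervalIntegral.integral_const_mul]
        have := i2.const_mul ((starRingEnd ℂ) c)
        rw [intervalIntegral.integral_of_le hV.le, intervalIntegral.integral_of_le hV.le]
        rw [intervalIntegrable_iff_integrableOn_Ioc_of_le hV.le] at this
        exact (integral_re this).symm
      rw [e2, ← intervalIntegral.integral_const_mul]
      have e3 : ‖c‖ ^ 2 * V = ∫ _ in (0:ℝ)..V, ‖c‖ ^ 2 := by
        rw [intervalIntegral.integral_const, sub_zero, smul_eq_mul, mul_comm]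
      rw [e3]
      unfold IQ
      rw [← intervalIntegral.integral_add intervalIntegrable_const (i3.const_mul 2),
        ← intervalIntegral.integral_add i1 (intervalIntegrable_const.add (i3.const_mul 2))]
      apply intervalIntegral.integral_congr
      intro v hv
      rw [uIcc_of_le hV.le] at hv
      simp only
      have e4 : (starRingEnd ℂ) (E s v) = Complex.exp (-((s - 1 / 2) * v)) := by
        rw [E_eq hv.1, ← Complex.exp_conj]
        congr 1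
        apply Complex.ext
        · simp [hs]
        · simp [hs]
      have e5 : ‖Ga s v‖ ^ 2 = ‖Gs s v‖ ^ 2 + ‖c * E s v‖ ^ 2 +
          2 * (Gs s v * (starRingEnd ℂ) (c * E s v)).re := by
        unfold Ga
        rw [← hc, ← Complex.normSq_eq_norm_sq, ← Complex.normSq_eq_norm_sq, ← Complex.normSq_eq_norm_sq,
          Complex.normSq_add]
      have e6 : ‖c * E s v‖ ^ 2 = ‖c‖ ^ 2 := by
        rw [norm_mul, hE1 v hv.1, mul_one]
      rw [e5, e6, map_mul, e4]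
      have e7 : Gs s v * ((starRingEnd ℂ) c * Complex.exp (-((s - 1 / 2) * v))) =
          (starRingEnd ℂ) c * (Complex.exp (-((s - 1 / 2) * v)) * Gs s v) := by ring
      rw [e7]
      ring
    rw [e1]
    have e8 : ((starRingEnd ℂ) c * ((∫ v in (0:ℝ)..V, Complex.exp (-((s - 1 / 2) * v)) * Gs s v) / (V : ℂ))).re =
        ((starRingEnd ℂ) c * ∫ v in (0:ℝ)..V, Complex.exp (-((s - 1 / 2) * v)) * Gs s v).re / V := by
      rw [← mul_div_assoc, Complex.div_ofReal_re]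
    rw [e8, ← hcn]
    field_simp
    ring
  · have h1 := top_neg hZ hp
    have h2 := (tendsto_atTop_add_const_right atTop (-(2 * ‖c‖ ^ 2)) h1).atTop_div_const (zero_lt_two)
    refine tendsto_atTop_mono' atTop ?_ h2
    filter_upwards [eventually_gt_atTop (0:ℝ)] with V hV
    have e1 : Gs s = fun v => Ga s v - c * E s v := by
      funext v
      unfold Ga
      rw [hc]
      ring
    have h3 := IQ_sub (Ga_ad hs) (Ad.smul hEad c) hV.le
    rw [← e1, IQ_smul, hIQE V hV.le] at h3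
    have h4 : IQ (Gs s) V / V ≤ 2 * (IQ (Ga s) V / V) + 2 * ‖c‖ ^ 2 := by
      rw [div_le_iff₀ hV]
      have : (2 * (IQ (Ga s) V / V) + 2 * ‖c‖ ^ 2) * V = 2 * IQ (Ga s) V + 2 * (‖c‖ ^ 2 * V) := by
        field_simp
      rw [this]
      exact h3
    linarith

/-- a point that is not covered refutes the weak Mertens hypothesis -/
lemma not_pt {s : ℂ} (hs : ¬ Pt s) : ¬ ZC := by
  intro hZ
  unfold Pt at hs
  push Not at hs
  obtain ⟨h1, h2, h3, h4⟩ := hs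
  have h5 : s.re < 1 := by
    by_contra h
    exact riemannZeta_ne_zero_of_one_le_re (not_lt.1 h) h3
  obtain ⟨h6, h7⟩ := hZ.1 s ⟨h3, by linarith, h5⟩
  exact h7 (h4 h6)

/-- the explicit formula in mean square -/
theorem Dk.explicit (hZ : ZC) {s : ℂ} {G : ℝ → ℂ} (h : Dk G s) {ε : ℝ} (hε : 0 < ε) :
    ∃ Z : Finset ℂ, (∀ ρ ∈ Z, ρ ∈ NT) ∧ ∀ Z' : Finset ℂ, Z ⊆ Z' → (∀ ρ ∈ Z', ρ ∈ NT) →
      ∀ᶠ V : ℝ in atTop, IQ (fun v => G v - TP (fun ρ => ww ρ * ms s ρ) Z' v) V ≤ ε * V := by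
  classical
  obtain ⟨-, K, hK0, hK⟩ := h
  obtain ⟨u, hu⟩ : ∃ u : Finset NT,
      SS - ∑ ρ ∈ u, 1 / ‖(ρ : ℂ) * deriv riemannZeta ρ‖ ^ 2 < ε / 2 / (K + 1) := by
    have a1 := Metric.tendsto_nhds.1 hZ.2.hasSum (ε / 2 / (K + 1)) (by positivity)
    obtain ⟨u, h1⟩ := a1.exists
    refine ⟨u, ?_⟩
    rw [Real.dist_eq] at h1
    have := (abs_lt.1 h1).1
    unfold Pool.Agent.TH223.AP.SS
    linarith
  set Z : Finset ℂ := u.map (Function.Embedding.subtype _) with hZdef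
  have hs1 : ∑ ρ ∈ Z, 1 / ‖ρ * deriv riemannZeta ρ‖ ^ 2 =
      ∑ ρ ∈ u, 1 / ‖(ρ : ℂ) * deriv riemannZeta ρ‖ ^ 2 := by
    rw [hZdef, Finset.sum_map]
    rfl
  refine ⟨Z, ?_, fun Z' hZZ hN => ?_⟩
  · intro ρ hρ
    rw [hZdef, Finset.mem_map] at hρ
    obtain ⟨ρ', -, rfl⟩ := hρ
    exact ρ'.2
  · filter_upwards [hK Z' hN (ε / 2) (by linarith), eventually_gt_atTop (0:ℝ)] with V h1 hV
    rw [div_le_iff₀ hV] at h1
    refine h1.trans ?_
    have h2 : ∑ ρ ∈ Z, 1 / ‖ρ * deriv riemannZeta ρ‖ ^ 2 ≤ ∑ ρ ∈ Z', 1 / ‖ρ * deriv riemannZeta ρ‖ ^ 2 :=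
      Finset.sum_le_sum_of_subset_of_nonneg hZZ fun _ _ _ => by positivity
    rw [hs1] at h2
    have h3 : K * (SS - ∑ ρ ∈ Z', 1 / ‖ρ * deriv riemannZeta ρ‖ ^ 2) ≤ ε / 2 := by
      calc K * (SS - ∑ ρ ∈ Z', 1 / ‖ρ * deriv riemannZeta ρ‖ ^ 2) ≤ K * (ε / 2 / (K + 1)) := by
            gcongr
            linarith
        _ ≤ ε / 2 := by
          rw [mul_div, div_le_iff₀ (by positivity)]
          nlinarith
    have h4 : K * (SS - ∑ ρ ∈ Z', 1 / ‖ρ * deriv riemannZeta ρ‖ ^ 2) + ε / 2 ≤ ε := by linarith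
    gcongr

end Pool.Agent.P8H42.EP
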