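import Pool.Agent.R613.WM.W6
import Pool.Agent.P8H42.EP.Stm

set_option autoImplicit false

/-! # Project EP: the abstract limit theorem (after `Pool.Agent.R613.WM.W2`) -/

namespace Pool.Agent.P8H42.EP

open MeasureTheory Filter Topology Set
open Pool.Agent.H295R2 (ww ee GR)
open Pool.Agent.W120.WM (ZC NT)
open Pool.Agent.TH223.AP (GR_lim dist_lim' SS ww_sq mn)
open Pool.Agent.R305.FM (Ad fC fC_ad norm_ee ee_cont mn_trig cesaro Ad.sub Ad.int_sq)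
open Pool.Agent.R613.WM (IQ IQ_nonneg TP TP_ad IQ_TP SM E E_ad Ad.smul Ad.add Z0 TP_eq)

lemma SM_sum (hZ : ZC) {m : ℂ → ℂ} {B : ℝ} (hB : ∀ ρ : ℂ, ρ ∈ NT → ‖m ρ‖ ≤ B) :
    Summable fun ρ : NT => ‖m ρ‖ ^ 2 / ‖(ρ : ℂ) * deriv riemannZeta ρ‖ ^ 2 := by
  refine Summable.of_nonneg_of_le (fun ρ => by positivity) (fun ρ => ?_) (hZ.2.mul_left (B ^ 2))
  have := hB ρ ρ.2
  rw [mul_one_div]
  gcongr

/-- the limit of the mean square of a function approximated by trigonometric polynomials -/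
theorem lim_abs (hZ : ZC) {G : ℝ → ℂ} (hGad : Ad G) {m : ℂ → ℂ} {B : ℝ}
    (hB : ∀ ρ : ℂ, ρ ∈ NT → ‖m ρ‖ ≤ B) {K : ℝ} (hK0 : 0 ≤ K)
    (hKd : ∀ (Z : Finset ℂ), (∀ ρ ∈ Z, ρ ∈ NT) → ∀ δ : ℝ, 0 < δ → ∀ᶠ V : ℝ in atTop,
      IQ (fun v => G v - TP (fun ρ => ww ρ * m ρ) Z v) V / V ≤
        K * (SS - ∑ ρ ∈ Z, 1 / ‖ρ * deriv riemannZeta ρ‖ ^ 2) + δ) :
    Tendsto (fun V : ℝ => IQ G V / V) atTop (𝓝 (SM m)) := by
  classical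
  have hSM0 : 0 ≤ SM m := tsum_nonneg fun ρ => by positivity
  rw [Metric.tendsto_nhds]
  intro ε hε
  obtain ⟨η, hη⟩ : ∃ η : ℝ, η = ε / (8 * (SM m + 1)) := ⟨_, rfl⟩
  have hη0 : 0 < η := by rw [hη]; positivity
  have hη1 : η * (SM m + 1) = ε / 8 := by rw [hη]; field_simp
  obtain ⟨θ, hθ⟩ : ∃ θ : ℝ, θ = ε / (8 * ((1 + 1 / η) * K + 1)) := ⟨_, rfl⟩
  have hθ0 : 0 < θ := by rw [hθ]; positivity
  have hθ1 : ((1 + 1 / η) * K + 1) * θ = ε / 8 := by rw [hθ]; field_simp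
  obtain ⟨u, hu1, hu2⟩ : ∃ u : Finset NT,
      SS - ∑ ρ ∈ u, 1 / ‖(ρ : ℂ) * deriv riemannZeta ρ‖ ^ 2 < θ ∧
      |(∑ ρ ∈ u, ‖m ρ‖ ^ 2 / ‖(ρ : ℂ) * deriv riemannZeta ρ‖ ^ 2) - SM m| < ε / 8 := by
    have a1 := Metric.tendsto_nhds.1 hZ.2.hasSum θ hθ0
    have a2 := Metric.tendsto_nhds.1 (SM_sum hZ hB).hasSum (ε / 8) (by linarith)
    obtain ⟨u, h1, h2⟩ := (a1.and a2).exists
    refine ⟨u, ?_, ?_⟩
    · rw [Real.dist_eq] at h1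
      have := (abs_lt.1 h1).1
      unfold Pool.Agent.TH223.AP.SS
      linarith
    · rwa [Real.dist_eq] at h2
  set Z : Finset ℂ := u.map (Function.Embedding.subtype _) with hZdef
  have hZm : ∀ ρ ∈ Z, ρ ∈ NT := by
    intro ρ hρ
    rw [hZdef, Finset.mem_map] at hρ
    obtain ⟨ρ', -, rfl⟩ := hρ
    exact ρ'.2
  have hre : ∀ ρ ∈ Z, ρ.re = 1 / 2 := fun ρ hρ => (hZ.1 ρ (hZm ρ hρ)).1
  have hs1 : ∑ ρ ∈ Z, 1 / ‖ρ * deriv riemannZeta ρ‖ ^ 2 =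
      ∑ ρ ∈ u, 1 / ‖(ρ : ℂ) * deriv riemannZeta ρ‖ ^ 2 := by
    rw [hZdef, Finset.sum_map]
    rfl
  have hs2 : ∑ ρ ∈ Z, ‖ww ρ * m ρ‖ ^ 2 =
      ∑ ρ ∈ u, ‖m ρ‖ ^ 2 / ‖(ρ : ℂ) * deriv riemannZeta ρ‖ ^ 2 := by
    rw [hZdef, Finset.sum_map]
    refine Finset.sum_congr rfl fun ρ _ => ?_
    show ‖ww (ρ : ℂ) * m (ρ : ℂ)‖ ^ 2 = _
    rw [norm_mul, mul_pow, ww_sq]
    ring
  obtain ⟨δ, hδ⟩ : ∃ δ : ℝ, δ = min 1 (ε / (8 * (1 + 1 / η))) := ⟨_, rfl⟩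
  have hδ0 : 0 < δ := by rw [hδ]; exact lt_min one_pos (by positivity)
  have hδ2 : (1 + 1 / η) * δ ≤ ε / 8 := by
    have : δ ≤ ε / (8 * (1 + 1 / η)) := by rw [hδ]; exact min_le_right _ _
    calc (1 + 1 / η) * δ ≤ (1 + 1 / η) * (ε / (8 * (1 + 1 / η))) := by gcongr
      _ = ε / 8 := by field_simp
  have ev1 := hKd Z hZm δ hδ0
  rw [hs1] at ev1
  have hmt := mn_trig Z hre (fun ρ => ww ρ * m ρ)
  rw [hs2] at hmt
  obtain ⟨β, hβ⟩ : ∃ β : ℝ, β = ∑ ρ ∈ u, ‖m ρ‖ ^ 2 / ‖(ρ : ℂ) * deriv riemannZeta ρ‖ ^ 2 := ⟨_, rfl⟩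
  rw [← hβ] at hmt hu2
  have hβle : β ≤ SM m := by
    rw [hβ]
    exact (SM_sum hZ hB).sum_le_tsum u fun ρ _ => by positivity
  have ev2 := Metric.tendsto_nhds.1 hmt (min (ε / 8) 1) (lt_min (by linarith) one_pos)
  filter_upwards [ev1, ev2, eventually_gt_atTop (0:ℝ)] with V h1 h2 hV
  rw [Real.dist_eq] at h2 ⊢
  rw [← IQ_TP _ _ hV.le] at h2
  obtain ⟨Q, hQ⟩ : ∃ Q : ℝ → ℂ, Q = TP (fun ρ => ww ρ * m ρ) Z := ⟨_, rfl⟩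
  have hQad : Ad Q := by rw [hQ]; exact TP_ad _ hre
  rw [← hQ] at h1 h2
  obtain ⟨x, hx⟩ : ∃ x : ℝ, x = IQ (G) V / V := ⟨_, rfl⟩
  obtain ⟨y, hy⟩ : ∃ y : ℝ, y = IQ Q V / V := ⟨_, rfl⟩
  obtain ⟨d, hd⟩ : ∃ d : ℝ, d = IQ (fun v => G v - Q v) V / V := ⟨_, rfl⟩
  rw [← hd] at h1
  rw [← hy] at h2
  rw [← hx]
  have iT : IntervalIntegrable (fun v => ‖Q v‖ ^ 2) volume 0 V := hQad.int_sq 0 V
  have ih : IntervalIntegrable (fun v => ‖G v‖ ^ 2) volume 0 V := hGad.int_sq 0 V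
  have id : IntervalIntegrable (fun v => ‖G v - Q v‖ ^ 2) volume 0 V := (hGad.sub hQad).int_sq 0 V
  have hxy : |x - y| ≤ (1 + 1 / η) * d + η * y := by
    have e1 : x - y = (∫ v in (0:ℝ)..V, (‖G v‖ ^ 2 - ‖Q v‖ ^ 2)) / V := by
      rw [intervalIntegral.integral_sub ih iT, hx, hy]
      unfold IQ
      ring
    have e2 : |∫ v in (0:ℝ)..V, (‖G v‖ ^ 2 - ‖Q v‖ ^ 2)| ≤
        ∫ v in (0:ℝ)..V, ((1 + 1 / η) * ‖G v - Q v‖ ^ 2 + η * ‖Q v‖ ^ 2) := by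
      refine (intervalIntegral.abs_integral_le_integral_abs hV.le).trans ?_
      refine intervalIntegral.integral_mono_on hV.le (ih.sub iT).abs
        ((id.const_mul _).add (iT.const_mul _)) fun v _ => ?_
      have f1 := abs_norm_sub_norm_le (G v) (Q v)
      have f2 := norm_nonneg (G v - Q v)
      have f3 := norm_nonneg (G v)
      have f4 := norm_nonneg (Q v)
      have f5 : |‖G v‖ ^ 2 - ‖Q v‖ ^ 2| = |‖G v‖ - ‖Q v‖| * (‖G v‖ + ‖Q v‖) := by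
        rw [show ‖G v‖ ^ 2 - ‖Q v‖ ^ 2 = (‖G v‖ - ‖Q v‖) * (‖G v‖ + ‖Q v‖) by ring, abs_mul,
          abs_of_nonneg (by positivity : 0 ≤ ‖G v‖ + ‖Q v‖)]
      have f6 : ‖G v‖ ≤ ‖G v - Q v‖ + ‖Q v‖ := by
        have := (le_abs_self _).trans f1
        linarith
      rw [f5]
      have f7 : |‖G v‖ - ‖Q v‖| * (‖G v‖ + ‖Q v‖) ≤ ‖G v - Q v‖ * (‖G v - Q v‖ + 2 * ‖Q v‖) :=
        mul_le_mul f1 (by linarith) (by positivity) f2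
      refine f7.trans ?_
      have f8 : 2 * ‖G v - Q v‖ * ‖Q v‖ ≤ 1 / η * ‖G v - Q v‖ ^ 2 + η * ‖Q v‖ ^ 2 := by
        have : 0 ≤ 1 / η * (‖G v - Q v‖ - η * ‖Q v‖) ^ 2 := by positivity
        have f9 : 1 / η * (‖G v - Q v‖ - η * ‖Q v‖) ^ 2 =
            1 / η * ‖G v - Q v‖ ^ 2 - 2 * ‖G v - Q v‖ * ‖Q v‖ + η * ‖Q v‖ ^ 2 := by
          field_simp
          ring
        linarith
      nlinarith
    rw [intervalIntegral.integral_add (id.const_mul _) (iT.const_mul _), intervalIntegral.integral_const_mul,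
      intervalIntegral.integral_const_mul] at e2
    rw [e1, abs_div, abs_of_pos hV, div_le_iff₀ hV, hd, hy]
    refine e2.trans (le_of_eq ?_)
    unfold IQ
    field_simp
  have hm1 := min_le_right (ε / 8) (1:ℝ)
  have hm8 := min_le_left (ε / 8) (1:ℝ)
  have g1 := abs_lt.1 h2
  have g2 := abs_lt.1 hu2
  have hyle : y ≤ SM m + 1 := by linarith [g1.2]
  have g3 : η * y ≤ ε / 8 := by rw [← hη1]; gcongr
  have hq0 : 0 < 1 + 1 / η := by positivity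
  have g4 : (1 + 1 / η) * d ≤ ε / 8 + ε / 8 := by
    calc (1 + 1 / η) * d ≤ (1 + 1 / η) * (K * (SS -
          ∑ ρ ∈ u, 1 / ‖(ρ : ℂ) * deriv riemannZeta ρ‖ ^ 2) + δ) := by gcongr
      _ ≤ (1 + 1 / η) * (K * θ + δ) := by gcongr
      _ = (1 + 1 / η) * K * θ + (1 + 1 / η) * δ := by ring
      _ ≤ ε / 8 + ε / 8 := by
        have : (1 + 1 / η) * K * θ ≤ ε / 8 := by
          have e9 : ((1 + 1 / η) * K + 1) * θ = (1 + 1 / η) * K * θ + θ := by ring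
          rw [e9] at hθ1
          linarith
        linarith
  have g5 := abs_le.1 hxy
  rw [abs_lt]
  constructor
  · linarith [g5.1, g1.1, g2.1]
  · linarith [g5.2, g1.2, g2.2]


end Pool.Agent.P8H42.EP
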