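import Pool.Agent.P8H42.EP.Crz

set_option autoImplicit false

/-! # Project EP: the converse -/

namespace Pool.Agent.P8H42.EP

open MeasureTheory Filter Topology Set
open Pool.Agent.H295R2 (ww ee)
open Pool.Agent.W120.WM (ZC NT)
open Pool.Agent.TH223.AP (dist_lim' SS)
open Pool.Agent.R305.FM (Ad fC fC_ad mn_trig Ad.sub Ad.int_sq)
open Pool.Agent.R613.WM (IQ IQ_nonneg IQ_add IQ_sub IQ_smul TP TP_ad TP_eq SM E E_ad Ad.smul Ad.add Ad.zero Z0
  Z0.of_tendsto IQ_TP IQ_mono fC_top ek ek_ad ek_bd)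
open Pool.Agent.P8H24.EP (id1 id2 lap)

/-- the points covered -/
def Pt (s : ℂ) : Prop :=
  s.re < 1 / 2 ∨ s = 1 ∨ riemannZeta s ≠ 0 ∨ (s.re = 1 / 2 ∧ deriv riemannZeta s ≠ 0)

lemma Cs_form' {s : ℂ} (hs : Pt s) : ∃ c0 c1 : ℂ, (∀ v : ℝ, Cs s (Real.exp v) = c0 + c1 * v) ∧
    (c1 ≠ 0 → s.re = 1 / 2) := by
  unfold Cs
  simp only [Real.log_exp]
  split_ifs with h1 h2 h3
  · exact ⟨0, 0, fun v => by ring, fun h => absurd rfl h⟩
  · exact ⟨0, 0, fun v => by ring, fun h => absurd rfl h⟩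
  · exact ⟨1 / riemannZeta s, 0, fun v => by ring, fun h => absurd rfl h⟩
  · refine ⟨-(iteratedDeriv 2 riemannZeta s / (2 * deriv riemannZeta s ^ 2)), 1 / deriv riemannZeta s,
      fun v => by ring, fun _ => ?_⟩
    rcases hs with h | h | h | h
    · exact absurd h h1
    · exact absurd h h2
    · exact absurd h h3
    · exact h.1

/-- integration by parts for the main term -/
lemma main_parts (s c0 c1 : ℂ) {v : ℝ} (_hv : 0 ≤ v) :
    Complex.exp ((s - 1 / 2) * v) * (c0 + c1 * v) - s * ∫ w in (0:ℝ)..v,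
      Complex.exp (-((v - w) / 2)) * (Complex.exp ((s - 1 / 2) * w) * (c0 + c1 * w)) =
    Complex.exp (-(v / 2)) * (c0 + c1 * ∫ w in (0:ℝ)..v, Complex.exp (s * w)) := by
  have hder : ∀ w : ℝ, HasDerivAt (fun w : ℝ => Complex.exp (s * w) * (c0 + c1 * w))
      (s * (Complex.exp (s * w) * (c0 + c1 * w)) + c1 * Complex.exp (s * w)) w := by
    intro w
    have h1 : HasDerivAt (fun w : ℝ => s * (w : ℂ)) s w := by
      have := (HasDerivAt.ofReal_comp (hasDerivAt_id w)).const_mul s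
      simpa using this
    have h2 : HasDerivAt (fun w : ℝ => c0 + c1 * (w : ℂ)) c1 w := by
      have := ((HasDerivAt.ofReal_comp (hasDerivAt_id w)).const_mul c1).const_add c0
      simpa using this
    have h3 := h1.cexp.mul h2
    refine h3.congr_deriv ?_
    ring
  have i1 : IntervalIntegrable (fun w : ℝ => s * (Complex.exp (s * w) * (c0 + c1 * w))) volume 0 v :=
    Continuous.intervalIntegrable (by fun_prop) _ _
  have i2 : IntervalIntegrable (fun w : ℝ => c1 * Complex.exp (s * w)) volume 0 v :=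
    Continuous.intervalIntegrable (by fun_prop) _ _
  have h4 := intervalIntegral.integral_eq_sub_of_hasDerivAt (fun w _ => hder w) (i1.add i2)
  rw [intervalIntegral.integral_add i1 i2, intervalIntegral.integral_const_mul,
    intervalIntegral.integral_const_mul] at h4
  simp only [Complex.ofReal_zero, mul_zero, Complex.exp_zero, add_zero, one_mul] at h4
  have h5 : ∫ w in (0:ℝ)..v,
      Complex.exp (-((v - w) / 2)) * (Complex.exp ((s - 1 / 2) * w) * (c0 + c1 * w)) =
      Complex.exp (-(v / 2)) * ∫ w in (0:ℝ)..v, Complex.exp (s * w) * (c0 + c1 * w) := by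
    rw [← intervalIntegral.integral_const_mul]
    congr 1
    funext w
    have : Complex.exp (-(((v : ℂ) - w) / 2)) * Complex.exp ((s - 1 / 2) * w) =
        Complex.exp (-((v : ℂ) / 2)) * Complex.exp (s * w) := by
      rw [← Complex.exp_add, ← Complex.exp_add]
      congr 1
      ring
    linear_combination (c0 + c1 * w) * this
  have h6 : Complex.exp ((s - 1 / 2) * v) = Complex.exp (-((v : ℂ) / 2)) * Complex.exp (s * v) := by
    rw [← Complex.exp_add]
    congr 1
    ring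
  rw [h5, h6]
  linear_combination -Complex.exp (-((v : ℂ) / 2)) * h4

lemma rest_bd {s c0 c1 : ℂ} (hc : c1 ≠ 0 → s.re = 1 / 2) {v : ℝ} (hv : 0 ≤ v) :
    ‖Complex.exp (-(v / 2)) * (c0 + c1 * ∫ w in (0:ℝ)..v, Complex.exp (s * w))‖ ≤ ‖c0‖ + 2 * ‖c1‖ := by
  have e1 : ‖Complex.exp (-((v : ℂ) / 2))‖ = Real.exp (-(v / 2)) := by
    rw [Complex.norm_exp]
    congr 1
    have : (-((v : ℂ) / 2)) = ((-(v / 2) : ℝ) : ℂ) := by push_cast; ring
    rw [this, Complex.ofReal_re]
  have hle : Real.exp (-(v / 2)) ≤ 1 := by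
    rw [Real.exp_le_one_iff]
    linarith
  rw [norm_mul, e1]
  by_cases h0 : c1 = 0
  · rw [h0, zero_mul, add_zero, norm_zero, mul_zero, add_zero]
    exact mul_le_of_le_one_left (norm_nonneg _) hle
  · have hs := hc h0
    have h1 : ‖∫ w in (0:ℝ)..v, Complex.exp (s * w)‖ ≤ ∫ w in (0:ℝ)..v, Real.exp (w / 2) := by
      refine intervalIntegral.norm_integral_le_of_norm_le hv ?_ (Continuous.intervalIntegrable (by fun_prop) _ _)
      refine Eventually.of_forall fun w _ => ?_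
      rw [Complex.norm_exp]
      apply Real.exp_le_exp.2
      simp [hs]
      linarith
    have h2 : ∫ w in (0:ℝ)..v, Real.exp (w / 2) = 2 * Real.exp (v / 2) - 2 := by
      have hder : ∀ w : ℝ, HasDerivAt (fun w : ℝ => 2 * Real.exp (w / 2)) (Real.exp (w / 2)) w := by
        intro w
        have h3 : HasDerivAt (fun w : ℝ => w / 2) (1 / 2) w := (hasDerivAt_id w).div_const 2
        refine (h3.exp.const_mul 2).congr_deriv ?_
        ring
      rw [intervalIntegral.integral_eq_sub_of_hasDerivAt (fun w _ => hder w)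
        (Continuous.intervalIntegrable (by fun_prop) _ _)]
      simp
    rw [h2] at h1
    have h3 : Real.exp (-(v / 2)) * Real.exp (v / 2) = 1 := by
      rw [← Real.exp_add]
      simp
    have h4 : ‖c0 + c1 * ∫ w in (0:ℝ)..v, Complex.exp (s * w)‖ ≤ ‖c0‖ + ‖c1‖ * (2 * Real.exp (v / 2)) := by
      refine (norm_add_le _ _).trans ?_
      rw [norm_mul]
      have : ‖c1‖ * ‖∫ w in (0:ℝ)..v, Complex.exp (s * w)‖ ≤ ‖c1‖ * (2 * Real.exp (v / 2)) := by
        gcongr
        linarith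
      linarith
    have h5 := Real.exp_pos (-(v / 2))
    calc Real.exp (-(v / 2)) * ‖c0 + c1 * ∫ w in (0:ℝ)..v, Complex.exp (s * w)‖ ≤
        Real.exp (-(v / 2)) * (‖c0‖ + ‖c1‖ * (2 * Real.exp (v / 2))) := by gcongr
      _ = Real.exp (-(v / 2)) * ‖c0‖ + 2 * ‖c1‖ * (Real.exp (-(v / 2)) * Real.exp (v / 2)) := by ring
      _ ≤ 1 * ‖c0‖ + 2 * ‖c1‖ * 1 := by
        rw [h3]
        have := mul_le_mul_of_nonneg_right hle (norm_nonneg c0)
        linarith
      _ = _ := by ring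

/-- the converse -/
theorem top_neg (hZ : ¬ ZC) {s : ℂ} (hs : Pt s) :
    Tendsto (fun V : ℝ => IQ (Gs s) V / V) atTop atTop := by
  obtain ⟨c0, c1, hc, hc1⟩ := Cs_form' hs
  have hG := Gs_ad s
  have hE := ek_ad (β := 1 / 2) (by norm_num) hG
  obtain ⟨R, hR⟩ : ∃ R : ℝ → ℂ, R = fun v => ff v - (Gs s v - s * ek (1 / 2) (Gs s) v) := ⟨_, rfl⟩
  have hRad : Ad R := by
    rw [hR]
    exact (fC_ad.sub (hG.sub (Ad.smul hE s)) : Ad (fun v => fC v - (Gs s v - s * ek (1 / 2) (Gs s) v)))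
  have hRv : ∀ v : ℝ, 0 ≤ v → R v =
      Complex.exp (-(v / 2)) * (c0 + c1 * ∫ w in (0:ℝ)..v, Complex.exp (s * w)) := by
    intro v hv
    rw [← main_parts s c0 c1 hv, hR]
    have hGv : ∀ w : ℝ, 0 ≤ w → Complex.exp ((s - 1 / 2) * w) * As s (Real.exp w) =
        Gs s w + Complex.exp ((s - 1 / 2) * w) * (c0 + c1 * w) := by
      intro w hw
      rw [Gs_nonneg s hw, hc]
      ring
    have e1 : ∫ w in (0:ℝ)..v,
        Complex.exp (-((v - w) / 2)) * (Complex.exp ((s - 1 / 2) * w) * As s (Real.exp w)) =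
        ek (1 / 2) (Gs s) v + ∫ w in (0:ℝ)..v,
        Complex.exp (-((v - w) / 2)) * (Complex.exp ((s - 1 / 2) * w) * (c0 + c1 * w)) := by
      have e2 : ∫ w in (0:ℝ)..v,
          Complex.exp (-((v - w) / 2)) * (Complex.exp ((s - 1 / 2) * w) * As s (Real.exp w)) =
          ∫ w in (0:ℝ)..v, (Complex.exp (-((v - w) / 2)) * Gs s w +
          Complex.exp (-((v - w) / 2)) * (Complex.exp ((s - 1 / 2) * w) * (c0 + c1 * w))) := by
        apply intervalIntegral.integral_congr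
        intro w hw
        rw [uIcc_of_le hv] at hw
        simp only
        rw [hGv w hw.1]
        ring
      rw [e2, intervalIntegral.integral_add (Ad.ii hG _ (by fun_prop) 0 v)
        (Continuous.intervalIntegrable (by fun_prop) _ _)]
      congr 1
      unfold ek
      rw [if_neg (not_lt.2 hv), ← intervalIntegral.integral_const_mul]
      congr 1
      funext w
      have : Complex.exp (-(((v : ℂ) - w) / 2)) = Complex.exp (-(((1 / 2 : ℝ) : ℂ) * v)) *
          Complex.exp (((1 / 2 : ℝ) : ℂ) * w) := by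
        rw [← Complex.exp_add]
        congr 1
        push_cast
        ring
      rw [this]
      ring
    simp only
    rw [id2 s v hv, e1, hGv v hv]
    ring
  obtain ⟨K, hK⟩ : ∃ K : ℝ, K = ‖c0‖ + 2 * ‖c1‖ := ⟨_, rfl⟩
  have hK0 : 0 ≤ K := by rw [hK]; positivity
  have hIR : ∀ V : ℝ, 0 ≤ V → IQ R V ≤ K ^ 2 * V := by
    intro V hV
    unfold IQ
    have h1 : ∫ v in (0:ℝ)..V, ‖R v‖ ^ 2 ≤ ∫ _ in (0:ℝ)..V, K ^ 2 := by
      refine intervalIntegral.integral_mono_on hV (hRad.int_sq 0 V) intervalIntegrable_const fun v hv => ?_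
      have h2 := rest_bd (c0 := c0) hc1 hv.1
      rw [← hRv v hv.1, ← hK] at h2
      gcongr
    rw [intervalIntegral.integral_const, sub_zero, smul_eq_mul] at h1
    linarith
  obtain ⟨M, hM⟩ : ∃ M : ℝ, M = 4 + 16 * ‖s‖ ^ 2 := ⟨_, rfl⟩
  have hM0 : 0 < M := by rw [hM]; positivity
  have key : ∀ V : ℝ, 0 < V → IQ fC V / V ≤ M * (IQ (Gs s) V / V) + 2 * K ^ 2 := by
    intro V hV
    have e3 : fC = fun v => (Gs s v - s * ek (1 / 2) (Gs s) v) + R v := by
      funext v
      rw [hR, ff_fC]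
      ring
    have h1 := IQ_add (hG.sub (Ad.smul hE s)) hRad hV.le
    rw [← e3] at h1
    have h2 := IQ_sub hG (Ad.smul hE s) hV.le
    rw [IQ_smul] at h2
    have h3 := ek_bd (β := 1 / 2) (by norm_num) hG hV.le
    have h4 := hIR V hV.le
    have h5 : ‖s‖ ^ 2 * IQ (ek (1 / 2) (Gs s)) V ≤ ‖s‖ ^ 2 * ((1 / (1 / 2)) ^ 2 * IQ (Gs s) V) := by gcongr
    have h6 : IQ fC V ≤ M * IQ (Gs s) V + 2 * K ^ 2 * V := by
      rw [hM]
      linarith
    rw [div_le_iff₀ hV]
    have h7 : (M * (IQ (Gs s) V / V) + 2 * K ^ 2) * V = M * IQ (Gs s) V + 2 * K ^ 2 * V := by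
      field_simp
    rw [h7]
    exact h6
  have h1 := (tendsto_atTop_add_const_right atTop (-(2 * K ^ 2)) (fC_top hZ)).atTop_div_const hM0
  refine tendsto_atTop_mono' atTop ?_ h1
  filter_upwards [eventually_gt_atTop (0:ℝ)] with V hV
  rw [div_le_iff₀ hM0]
  have := key V hV
  linarith

end Pool.Agent.P8H42.EP
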